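import Pool.Agent.Helper92.TP.Defs

/-!
Block C2: decay of `PP`.
-/

namespace Pool.Agent.Helper92.TP

open Pool.Agent.Helper92.LP

/-- C2 -/
lemma PP_decay {D : ℝ} {K k₀ k : ℕ} (hD : 100 ≤ D) (h0 : K ≤ k₀) (h : k₀ ≤ k) :
    ((k : ℝ) + D) ^ 9 * PP D K k ≤ ((k₀ : ℝ) + D) ^ 9 * PP D K k₀ := by
  have hD0 : 0 < D := by linarith
  induction k, h using Nat.le_induction with
  | base => exact le_rfl
  | succ k hk ih =>
    have hP := PP_nonneg hD0 K k
    have hk0 : (0 : ℝ) ≤ k := Nat.cast_nonneg k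
    rw [PP_succ (h0.trans hk)]
    refine le_trans ?_ ih
    push_cast
    have hs : (0 : ℝ) < k + 1 + D := by positivity
    have key : ((k : ℝ) + 1 + D) ^ 9 * (((k : ℝ) + 1) / (k + 1 + D)) ≤ ((k : ℝ) + D) ^ 9 := by
      have e : ((k : ℝ) + 1 + D) ^ 9 * (((k : ℝ) + 1) / (k + 1 + D))
          = ((k : ℝ) + 1 + D) ^ 8 * ((k : ℝ) + 1) := by
        field_simp
      rw [e]
      set s := (k : ℝ) + 1 + D with hsdef
      have hs1 : (1 : ℝ) ≤ s := by linarith
      have hb : (s - 1) = (k : ℝ) + D := by rw [hsdef]; ring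
      rw [← hb]
      have hber := one_add_mul_le_pow (a := -(1 / s)) (by
        have : 1 / s ≤ 1 := by rw [div_le_one hs]; exact hs1
        linarith) 9
      have e2 : (s - 1) ^ 9 = s ^ 9 * (1 + -(1 / s)) ^ 9 := by
        rw [← mul_pow]
        congr 1
        field_simp
        ring
      rw [e2]
      have h1 : s ^ 9 * (1 + ((9 : ℕ) : ℝ) * -(1 / s)) ≤ s ^ 9 * (1 + -(1 / s)) ^ 9 :=
        mul_le_mul_of_nonneg_left hber (by positivity)
      refine le_trans ?_ h1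
      have e3 : s ^ 9 * (1 + ((9 : ℕ) : ℝ) * -(1 / s)) = s ^ 8 * (s - 9) := by
        push_cast
        field_simp
        ring
      rw [e3]
      apply mul_le_mul_of_nonneg_left _ (by positivity)
      linarith
    calc ((k : ℝ) + 1 + D) ^ 9 * (PP D K k * (((k : ℝ) + 1) / (k + 1 + D)))
        = (((k : ℝ) + 1 + D) ^ 9 * (((k : ℝ) + 1) / (k + 1 + D))) * PP D K k := by ring
      _ ≤ ((k : ℝ) + D) ^ 9 * PP D K k := mul_le_mul_of_nonneg_right key hP

end Pool.Agent.Helper92.TP
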