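import Pool.Agent.Helper92.TP.Defs

/-!
Block C3: a node of the quadrature is a good point.
-/

namespace Pool.Agent.Helper92.TP

open Pool.Agent.Helper92.LP

private lemma PP_decay_aux {D : ℝ} {K k : ℕ} (hD : 100 ≤ D) (h : K ≤ k) :
    ((k : ℝ) + D) ^ 9 * PP D K k ≤ ((K : ℝ) + D) ^ 9 := by
  have hD0 : 0 < D := by linarith
  induction k, h using Nat.le_induction with
  | base =>
    have : PP D K K = 1 := by unfold PP; simp
    rw [this, mul_one]
  | succ k hk ih =>
    refine le_trans ?_ ih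
    rw [PP_succ hk]
    have hP := PP_nonneg hD0 K k
    have hk0 : (0 : ℝ) ≤ k := Nat.cast_nonneg k
    have hq : 0 < (k : ℝ) + 1 + D := by positivity
    have hb := one_add_mul_le_pow (a := -(1 / ((k : ℝ) + 1 + D)))
      (by
        have : 1 / ((k : ℝ) + 1 + D) ≤ 1 := by
          rw [div_le_one hq]; linarith
        linarith) 9
    have e1 : (1 + -(1 / ((k : ℝ) + 1 + D))) = (k + D) / (k + 1 + D) := by
      field_simp
      ring
    rw [e1, div_pow, le_div_iff₀ (by positivity)] at hb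
    have key : ((k : ℝ) + 1 + D) ^ 9 * (((k : ℝ) + 1) / (k + 1 + D)) ≤ (k + D) ^ 9 := by
      refine le_trans ?_ hb
      rw [mul_comm]
      apply mul_le_mul_of_nonneg_right _ (by positivity)
      rw [div_le_iff₀ hq]
      push_cast
      have : (1 + 9 * -(1 / ((k : ℝ) + 1 + D))) * (k + 1 + D) = k + 1 + D - 9 := by
        field_simp
        ring
      rw [this]
      linarith
    push_cast
    calc ((k : ℝ) + 1 + D) ^ 9 * (PP D K k * (((k : ℝ) + 1) / (k + 1 + D)))
        = (((k : ℝ) + 1 + D) ^ 9 * (((k : ℝ) + 1) / (k + 1 + D))) * PP D K k := by ring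
      _ ≤ _ := mul_le_mul_of_nonneg_right key hP

private lemma PP_nn {D : ℝ} {K k : ℕ} (hD : 0 < D) (h : K ≤ k) :
    PP D K k * ((k : ℝ) + D) * ((2 * K + D) * nn D K) = nn D k * (2 * k + D) * (K + D) := by
  induction k, h using Nat.le_induction with
  | base =>
    have : PP D K K = 1 := by unfold PP; simp
    rw [this]
    ring
  | succ k hk ih =>
    rw [PP_succ hk]
    have hn : nn D (k + 1) = nn D k * cB D (k + 1) / cA D k := rfl
    rw [hn]
    unfold cA cB
    push_cast
    have hk0 : (0 : ℝ) ≤ k := Nat.cast_nonneg k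
    have h1 : (k : ℝ) + 1 + D ≠ 0 := by positivity
    have h2 : (k : ℝ) + D ≠ 0 := by positivity
    have h3 : 2 * (k : ℝ) + D ≠ 0 := by positivity
    have h4 : 2 * ((k : ℝ) + 1) + D ≠ 0 := by positivity
    have e : nn D k * (((k : ℝ) + 1) / (2 * (k + 1) + D)) / ((k + D) / (2 * k + D))
        * (2 * (k + 1) + D) * (K + D)
        = (nn D k * (2 * k + D) * (K + D)) * ((k + 1) / (k + D)) := by
      field_simp
    rw [e, ← ih]
    field_simp

lemma good_node {D x : ℝ} {K : ℕ} (hD : 100 ≤ D) (hK : 1 ≤ K) (hx : x ^ 2 ≤ 1 / 4)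
    (h0 : G D x K = 0) (hd : 0 < disc D x K) : Good D x := by
  have hD0 : 0 < D := by linarith
  have hx1 : x ^ 2 ≤ 1 := by linarith
  have hK0 : (0 : ℝ) ≤ K := Nat.cast_nonneg K
  set c : ℝ := (K ^ 2 / (K + D)) * G D x (K - 1) ^ 2 / disc D x K with hc
  have hc0 : 0 ≤ c := by rw [hc]; positivity
  have hb : ∀ m : ℕ, K ≤ m → G D x m ^ 2 ≤ c * (((m : ℝ) + D) * PP D K m) := by
    intro m hm
    have h1 := G_sq_bound hD0 hx1 hK hd h0 m hm
    have h2 : c * (((m : ℝ) + D) * PP D K m)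
        = ((m + D) * PP D K m * (K ^ 2 / (K + D)) * G D x (K - 1) ^ 2) / disc D x K := by
      rw [hc]; ring
    rw [h2, le_div_iff₀ hd]
    linarith
  refine ⟨hx, ?_, ?_⟩
  · refine ⟨c * ((K : ℝ) + D) ^ 9
      + ∑ j ∈ Finset.range K, G D x j ^ 2 * ((j : ℝ) + 1) ^ 8, ?_⟩
    intro m
    have hm0 : (0 : ℝ) ≤ m := Nat.cast_nonneg m
    have hmp : 0 < ((m : ℝ) + 1) ^ 8 := by positivity
    have hS : 0 ≤ ∑ j ∈ Finset.range K, G D x j ^ 2 * ((j : ℝ) + 1) ^ 8 :=
      Finset.sum_nonneg (fun j _ => by positivity)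
    have hC : 0 ≤ c * ((K : ℝ) + D) ^ 9 := by positivity
    rw [le_div_iff₀ hmp]
    rcases le_or_gt K m with hm | hm
    · have h1 := hb m hm
      have h2 := PP_decay_aux hD hm
      have hP := PP_nonneg hD0 K m
      have h3 : ((m : ℝ) + 1) ^ 8 ≤ (m + D) ^ 8 :=
        pow_le_pow_left₀ (by positivity) (by linarith) 8
      calc G D x m ^ 2 * ((m : ℝ) + 1) ^ 8
          ≤ (c * (((m : ℝ) + D) * PP D K m)) * (m + D) ^ 8 :=
            mul_le_mul h1 h3 hmp.le (by positivity)
        _ = c * (((m : ℝ) + D) ^ 9 * PP D K m) := by ring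
        _ ≤ c * ((K : ℝ) + D) ^ 9 := mul_le_mul_of_nonneg_left h2 hc0
        _ ≤ _ := by linarith
    · have h1 : G D x m ^ 2 * ((m : ℝ) + 1) ^ 8
          ≤ ∑ j ∈ Finset.range K, G D x j ^ 2 * ((j : ℝ) + 1) ^ 8 :=
        Finset.single_le_sum (f := fun j : ℕ => G D x j ^ 2 * ((j : ℝ) + 1) ^ 8)
          (fun j _ => by positivity) (Finset.mem_range.2 hm)
      linarith
  · set q : ℝ := (2 * K + D) * nn D K with hq
    have hnK := nn_pos hD0 K
    have hq0 : 0 < q := by rw [hq]; positivity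
    refine ⟨c * D * ((K + D) / q) + ∑ j ∈ Finset.range K, G D x j ^ 2 / nn D j, ?_⟩
    intro m
    have hm0 : (0 : ℝ) ≤ m := Nat.cast_nonneg m
    have hn : ∀ j, 0 < nn D j := fun j => nn_pos hD0 j
    have hS : 0 ≤ ∑ j ∈ Finset.range K, G D x j ^ 2 / nn D j :=
      Finset.sum_nonneg (fun j _ => div_nonneg (sq_nonneg _) (hn j).le)
    have hC : 0 ≤ c * D * ((K + D) / q) := by positivity
    rcases le_or_gt K m with hm | hm
    · have h1 := hb m hm
      have h2 := PP_nn hD0 hm
      have h3 : ((m : ℝ) + D) * PP D K m = nn D m * ((2 * m + D) * ((K + D) / q)) := by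
        rw [← hq] at h2
        field_simp
        linarith
      rw [h3] at h1
      have h4 : G D x m ^ 2 / nn D m ≤ c * ((2 * m + D) * ((K + D) / q)) := by
        rw [div_le_iff₀ (hn m)]
        linarith
      have h5 : (2 * (m : ℝ) + D) ≤ D * (m + 1) := by nlinarith
      have h6 : 0 ≤ (K + D) / q := by positivity
      calc G D x m ^ 2 / nn D m ≤ c * ((2 * m + D) * ((K + D) / q)) := h4
        _ ≤ c * ((D * (m + 1)) * ((K + D) / q)) :=
            mul_le_mul_of_nonneg_left (mul_le_mul_of_nonneg_right h5 h6) hc0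
        _ = c * D * ((K + D) / q) * (m + 1) := by ring
        _ ≤ _ := mul_le_mul_of_nonneg_right (by linarith) (by positivity)
    · have h1 : G D x m ^ 2 / nn D m ≤ ∑ j ∈ Finset.range K, G D x j ^ 2 / nn D j :=
        Finset.single_le_sum (f := fun j : ℕ => G D x j ^ 2 / nn D j)
          (fun j _ => div_nonneg (sq_nonneg _) (hn j).le) (Finset.mem_range.2 hm)
      have h2 : G D x m ^ 2 / nn D m ≤
          c * D * ((K + D) / q) + ∑ j ∈ Finset.range K, G D x j ^ 2 / nn D j := by linarith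
      have h3 : 0 ≤ c * D * ((K + D) / q) + ∑ j ∈ Finset.range K, G D x j ^ 2 / nn D j := by
        linarith
      nlinarith

end Pool.Agent.Helper92.TP
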