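import Pool.Agent.Helper92.LP.BN12

/-!
Blocks N1', N2' of the three point part: polynomial times `q ^ m` with `q < 1`.
-/

namespace Pool.Agent.Helper92.TP

namespace BN12

open Pool.Agent.Helper92.LP.BN12

/-- polynomial (of any degree) times `q ^ m` is eventually below any positive constant -/
lemma eventually_small' (d : ℕ) (q C δ : ℝ) (hq0 : 0 ≤ q) (hq : q < 1) (hδ : 0 < δ) :
    ∃ m₀ : ℕ, ∀ m : ℕ, m₀ ≤ m → C * ((m : ℝ) ^ d * q ^ m) ≤ δ := by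
  have h := tendsto_pow_const_mul_const_pow_of_abs_lt_one d (r := q) (by
    rw [abs_of_nonneg hq0]; exact hq)
  have h2 := h.const_mul C
  rw [mul_zero] at h2
  have h3 := h2.eventually (eventually_le_nhds hδ)
  obtain ⟨m₀, hm₀⟩ := Filter.eventually_atTop.1 h3
  exact ⟨m₀, fun m hm => hm₀ m hm⟩

lemma combine' (d : ℕ) (q C : ℝ) (x : ℝ) (hx0 : 0 ≤ x) (hq0 : 0 ≤ q) (hq : q < 1)
    (hx : x ≤ q * (2 : ℝ) ^ (-(0.76 * 130 : ℝ))) (hC : 0 ≤ C) :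
    ∃ m₀ : ℕ, ∀ m : ℕ, m₀ ≤ m →
      C * ((m : ℝ) ^ d * x ^ m) ≤ (2 : ℝ) ^ (-(0.76 * (130 * (m : ℝ) + 132))) := by
  obtain ⟨m₀, hm₀⟩ := eventually_small' d q C ((2 : ℝ) ^ (-(0.76 * 132 : ℝ))) hq0 hq
    (Real.rpow_pos_of_pos (by norm_num) _)
  refine ⟨m₀, fun m hm => ?_⟩
  rw [rhs_eq]
  have h1 := hm₀ m hm
  have h0 : (0 : ℝ) ≤ ((2 : ℝ) ^ (-(0.76 * 130 : ℝ))) ^ m := by positivity
  have h2 : x ^ m ≤ q ^ m * ((2 : ℝ) ^ (-(0.76 * 130 : ℝ))) ^ m := by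
    rw [← mul_pow]
    exact pow_le_pow_left₀ hx0 hx m
  calc C * ((m : ℝ) ^ d * x ^ m)
      ≤ C * ((m : ℝ) ^ d * (q ^ m * ((2 : ℝ) ^ (-(0.76 * 130 : ℝ))) ^ m)) := by gcongr
    _ = C * ((m : ℝ) ^ d * q ^ m) * ((2 : ℝ) ^ (-(0.76 * 130 : ℝ))) ^ m := by ring
    _ ≤ _ := mul_le_mul_of_nonneg_right h1 h0

end BN12

open Pool.Agent.Helper92.LP.BN12 BN12

/-- N1' -/
lemma num1' : ∃ m₀ : ℕ, ∀ m : ℕ, m₀ ≤ m →
    (10 ^ 8 * (m : ℝ) ^ 4) ^ 2 * ((450 * (140 * (m : ℝ) + 1) * ((13 : ℝ) ^ 130 / 14 ^ 140) ^ m) ^ 2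
        / (34153 / 100000) ^ (5 * m - 1)
        * ((81839 / 100000) ^ (10 * m) * (1036 / 1000) ^ (2 * m + 2)))
      ≤ (2 : ℝ) ^ (-(0.76 * (130 * (m : ℝ) + 132))) := by
  have hx : ((13 : ℝ) ^ 130 / 14 ^ 140) ^ 2 / (34153 / 100000) ^ 5 * (81839 / 100000) ^ 10
      * (1036 / 1000) ^ 2 ≤ (9 / 10) * (2 : ℝ) ^ (-(0.76 * 130 : ℝ)) := by
    apply le_of_fifth (by norm_num)
    have h := nat1
    have h' : (((13 ^ 130) ^ 10 * 100000 ^ 25 * 81839 ^ 50 * 1036 ^ 10 * ((2 ^ 247) ^ 2) * 10 ^ 5 : ℕ) : ℝ)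
      ≤ ((9 ^ 5 * ((14 ^ 140) ^ 10 * 34153 ^ 25 * 100000 ^ 50 * 1000 ^ 10) : ℕ) : ℝ) :=
      Nat.cast_le.2 h
    simp only [Nat.cast_mul, Nat.cast_pow, Nat.cast_ofNat] at h'
    have e : (((13 : ℝ) ^ 130 / 14 ^ 140) ^ 2 / (34153 / 100000) ^ 5 * (81839 / 100000) ^ 10
        * (1036 / 1000) ^ 2) ^ 5 * 2 ^ 494
        = ((13 ^ 130) ^ 10 * 100000 ^ 25 * 81839 ^ 50 * 1036 ^ 10 * ((2 ^ 247) ^ 2))
          / ((14 ^ 140) ^ 10 * 34153 ^ 25 * 100000 ^ 50 * 1000 ^ 10) := by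
      rw [show (2 : ℝ) ^ 494 = (2 ^ 247) ^ 2 by rw [← pow_mul]]
      exact e_aux _ _ _ _ _ _ _ _ (by positivity) (by norm_num) (by norm_num) (by norm_num)
    rw [e, div_le_iff₀ (by positivity), div_pow, div_mul_eq_mul_div, le_div_iff₀ (by positivity)]
    exact h'
  obtain ⟨m₀, hm₀⟩ := combine' 10 (9 / 10)
    ((10 ^ 8) ^ 2 * (450 ^ 2 * 141 ^ 2 * (34153 / 100000) * (1036 / 1000) ^ 2))
    _ (by positivity) (by norm_num) (by norm_num) hx (by positivity)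
  refine ⟨max m₀ 1, fun m hm => ?_⟩
  have hm1 : 1 ≤ m := le_trans (le_max_right _ _) hm
  refine le_trans ?_ (hm₀ m (le_trans (le_max_left _ _) hm))
  have hm1R : (1 : ℝ) ≤ m := by exact_mod_cast hm1
  have hL : ((34153 : ℝ) / 100000) ^ (5 * m - 1) * (34153 / 100000)
      = ((34153 / 100000) ^ 5) ^ m := by
    rw [← pow_succ, ← pow_mul]
    congr 1
    omega
  have hLpos : (0 : ℝ) < ((34153 : ℝ) / 100000) ^ (5 * m - 1) := by positivity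
  have hpoly : (140 * (m : ℝ) + 1) ^ 2 ≤ 141 ^ 2 * (m : ℝ) ^ 2 := by nlinarith
  have main : (450 * (140 * (m : ℝ) + 1) * ((13 : ℝ) ^ 130 / 14 ^ 140) ^ m) ^ 2
        / (34153 / 100000) ^ (5 * m - 1)
        * ((81839 / 100000) ^ (10 * m) * (1036 / 1000) ^ (2 * m + 2))
      ≤ 450 ^ 2 * 141 ^ 2 * (34153 / 100000) * (1036 / 1000) ^ 2 *
      ((m : ℝ) ^ 2 * (((13 : ℝ) ^ 130 / 14 ^ 140) ^ 2 / (34153 / 100000) ^ 5 * (81839 / 100000) ^ 10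
      * (1036 / 1000) ^ 2) ^ m) := by
    rw [div_mul_eq_mul_div, div_le_iff₀ hLpos]
    have e1 : (450 * (140 * (m : ℝ) + 1) * ((13 : ℝ) ^ 130 / 14 ^ 140) ^ m) ^ 2
        * ((81839 / 100000) ^ (10 * m) * (1036 / 1000) ^ (2 * m + 2))
        = (140 * (m : ℝ) + 1) ^ 2 * (450 ^ 2 * (((13 : ℝ) ^ 130 / 14 ^ 140) ^ 2) ^ m
          * ((81839 / 100000) ^ 10) ^ m * (((1036 / 1000) ^ 2) ^ m * (1036 / 1000) ^ 2)) := by
      rw [pow_add, pow_mul (1036 / 1000 : ℝ) 2 m, pow_mul (81839 / 100000 : ℝ) 10 m, mul_pow, mul_pow,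
        ← pow_mul ((13 : ℝ) ^ 130 / 14 ^ 140) 2 m, mul_comm 2 m,
        pow_mul ((13 : ℝ) ^ 130 / 14 ^ 140) m 2]
      generalize (((13 : ℝ) ^ 130 / 14 ^ 140)) ^ m = A
      generalize (((81839 : ℝ) / 100000) ^ 10) ^ m = S
      generalize (((1036 : ℝ) / 1000) ^ 2) ^ m = T
      ring
    have e2 : 450 ^ 2 * 141 ^ 2 * (34153 / 100000) * (1036 / 1000) ^ 2 *
        ((m : ℝ) ^ 2 * (((13 : ℝ) ^ 130 / 14 ^ 140) ^ 2 / (34153 / 100000) ^ 5 * (81839 / 100000) ^ 10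
        * (1036 / 1000) ^ 2) ^ m) * (34153 / 100000) ^ (5 * m - 1)
        = (141 ^ 2 * (m : ℝ) ^ 2) * (450 ^ 2 * (((13 : ℝ) ^ 130 / 14 ^ 140) ^ 2) ^ m
          * ((81839 / 100000) ^ 10) ^ m * (((1036 / 1000) ^ 2) ^ m * (1036 / 1000) ^ 2)) := by
      rw [mul_pow, mul_pow, div_pow _ _ m, ← hL]
      have h3 : ((34153 : ℝ) / 100000) ≠ 0 := by norm_num
      have h4 := hLpos.ne'
      generalize ((34153 : ℝ) / 100000) ^ (5 * m - 1) = L at h4 ⊢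
      generalize (34153 : ℝ) / 100000 = l at h3 ⊢
      generalize (((13 : ℝ) ^ 130 / 14 ^ 140) ^ 2) ^ m = A
      generalize (((81839 : ℝ) / 100000) ^ 10) ^ m = S
      generalize (((1036 : ℝ) / 1000) ^ 2) ^ m = T
      field_simp
    rw [e1, e2]
    exact mul_le_mul_of_nonneg_right hpoly (by positivity)
  refine le_trans (mul_le_mul_of_nonneg_left main (by positivity)) (le_of_eq ?_)
  generalize (((13 : ℝ) ^ 130 / 14 ^ 140) ^ 2 / (34153 / 100000) ^ 5 * (81839 / 100000) ^ 10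
      * (1036 / 1000) ^ 2) ^ m = X
  ring

/-- N2' -/
lemma num2' : ∃ m₀ : ℕ, ∀ m : ℕ, m₀ ≤ m →
    (256 * 400 * (156 * (m : ℝ) + 130) ^ 9) * (20 * (156 * m + 1) * ((5 : ℝ) ^ 130 / 6 ^ 156) ^ m)
      ≤ (2 : ℝ) ^ (-(0.76 * (130 * (m : ℝ) + 132))) := by
  have hx : ((5 : ℝ) ^ 130 / 6 ^ 156) ≤ (1 / 2) * (2 : ℝ) ^ (-(0.76 * 130 : ℝ)) := by
    apply le_of_fifth (by norm_num)
    have h' : (((5 ^ 130) ^ 5 * ((2 ^ 247) ^ 2) * 2 ^ 5 : ℕ) : ℝ) ≤ (((6 ^ 156) ^ 5 : ℕ) : ℝ) :=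
      Nat.cast_le.2 nat2
    simp only [Nat.cast_mul, Nat.cast_pow, Nat.cast_ofNat] at h'
    rw [div_pow, div_mul_eq_mul_div, div_pow, one_pow, div_le_div_iff₀ (by positivity) (by positivity),
      one_mul, show (2 : ℝ) ^ 494 = (2 ^ 247) ^ 2 by rw [← pow_mul]]
    exact h'
  obtain ⟨m₀, hm₀⟩ := combine' 10 (1 / 2) (256 * 400 * 286 ^ 9 * (20 * 157))
    _ (by positivity) (by norm_num) (by norm_num) hx (by positivity)
  refine ⟨max m₀ 1, fun m hm => ?_⟩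
  have hm1 : 1 ≤ m := le_trans (le_max_right _ _) hm
  refine le_trans ?_ (hm₀ m (le_trans (le_max_left _ _) hm))
  have hm1R : (1 : ℝ) ≤ m := by exact_mod_cast hm1
  have hp : (0 : ℝ) ≤ ((5 : ℝ) ^ 130 / 6 ^ 156) ^ m := by positivity
  have h0 : (156 * (m : ℝ) + 130) ^ 9 ≤ (286 * (m : ℝ)) ^ 9 := by
    apply pow_le_pow_left₀ (by positivity)
    linarith
  have h0' : 20 * (156 * (m : ℝ) + 1) ≤ 20 * 157 * (m : ℝ) := by linarith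
  have h1 : (256 * 400 * (156 * (m : ℝ) + 130) ^ 9) * (20 * (156 * m + 1))
      ≤ (256 * 400 * (286 * (m : ℝ)) ^ 9) * (20 * 157 * (m : ℝ)) := by
    apply mul_le_mul (mul_le_mul_of_nonneg_left h0 (by norm_num)) h0' (by positivity) (by positivity)
  calc (256 * 400 * (156 * (m : ℝ) + 130) ^ 9) * (20 * (156 * m + 1) * ((5 : ℝ) ^ 130 / 6 ^ 156) ^ m)
      = ((256 * 400 * (156 * (m : ℝ) + 130) ^ 9) * (20 * (156 * m + 1))) * ((5 : ℝ) ^ 130 / 6 ^ 156) ^ m := by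
        ring
    _ ≤ ((256 * 400 * (286 * (m : ℝ)) ^ 9) * (20 * 157 * (m : ℝ))) * ((5 : ℝ) ^ 130 / 6 ^ 156) ^ m :=
      mul_le_mul_of_nonneg_right h1 hp
    _ = _ := by
      generalize ((5 : ℝ) ^ 130 / 6 ^ 156) ^ m = X
      ring

end Pool.Agent.Helper92.TP
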