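import Pool.Agent.Helper92.TP.BC1
import Pool.Agent.Helper92.TP.BC2
import Pool.Agent.Helper92.TP.BC3
import Pool.Agent.Helper92.TP.BN12
import Pool.Agent.Helper92.LP.Final

namespace Pool.Agent.Helper92.TP

open Pool.Agent.Helper92.LP

lemma le_of_sq_le' {a b : ℝ} (hb : 0 ≤ b) (h : a ^ 2 ≤ b ^ 2) : a ≤ b := by
  nlinarith [abs_le_of_sq_le_sq h hb, le_abs_self a]

/-- The dual measure with a polynomial factor. -/
theorem dual_measure2 : ∃ m₀ : ℕ, ∀ m : ℕ, m₀ ≤ m → ∀ D : ℝ, 130 * (m : ℝ) ≤ D →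
    D ≤ 130 * m + 130 → ∃ w x : Fin (10 * m - 1) → ℝ, (∀ i, 0 ≤ w i) ∧ (∑ i, w i = 1) ∧
      (∀ i, Good D (x i)) ∧ (∀ j, NN D w x j j ≤ (j + D) * nn D j) ∧
      ∀ k : ℕ, 1 ≤ k → |NN D w x 0 k| * ((8 * ((k : ℝ) + 2) * (k + 1 + D)) * ((k + 1) * (k + 2)))
        ≤ (2 : ℝ) ^ (-(0.38 * (D + 2))) := by
  obtain ⟨m1, hm1⟩ := num1'
  obtain ⟨m2, hm2⟩ := num2'
  refine ⟨max 425 (max m1 m2), fun m hm D h1 h2 => ?_⟩
  have hm425 : 425 ≤ m := le_trans (le_max_left _ _) hm
  have hmm1 : m1 ≤ m := le_trans (le_trans (le_max_left _ _) (le_max_right _ _)) hm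
  have hmm2 : m2 ≤ m := le_trans (le_trans (le_max_right _ _) (le_max_right _ _)) hm
  have hmR : (425 : ℝ) ≤ m := by exact_mod_cast hm425
  have hD : 10000 ≤ D := by nlinarith
  have hD0 : 0 < D := by linarith
  obtain ⟨w, x, hw, hN', hK, hx⟩ := exists_gauss hD0 (K := 10 * m - 1) (by omega)
  have hN : ∀ j k, j < 10 * m - 1 → k < 10 * m - 1 →
      NN D w x j k = if j = k then nn D j else 0 := hN'
  have h00 : NN D w x 0 0 = 1 := by
    rw [hN 0 0 (by omega) (by omega), if_pos rfl]; rfl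
  have hsum : ∑ i, w i = 1 := by
    rw [← h00, NN_zero]
    simp [G_zero]
  have hc : ((10 * m - 1 : ℕ) : ℝ) = 10 * m - 1 := by
    have : 1 ≤ 10 * m := by omega
    push_cast [Nat.cast_sub this]; ring
  have hKD : 13 * ((10 * m - 1 : ℕ) : ℝ) ≤ D := by rw [hc]; linarith
  have hxs : ∀ i, x i ^ 2 ≤ 4 * (cA D (10 * m - 1 - 2) * cB D (10 * m - 1 - 1)) :=
    fun i => node_sq (by linarith) (by omega) (x i) (hx i)
  have hxq : ∀ i, x i ^ 2 ≤ 1 / 4 :=
    fun i => node_quarter (by linarith) (by omega) hKD (x i) (hxs i)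
  have hxd : ∀ i, D / 4 ≤ disc D (x i) (10 * m - 1) :=
    fun i => node_disc (by linarith) (by omega) hKD (x i) (hxs i)
  have hx1 : ∀ i, x i ^ 2 ≤ 1 := fun i => (hxq i).trans (by norm_num)
  refine ⟨w, x, hw, hsum, fun i => good_node (by linarith) (by omega) (hxq i) (hK i)
    (lt_of_lt_of_le (by linarith) (hxd i)),
    fun j => NN_diag (by linarith) (by omega) hKD hw hxq hK hxd hN j, fun k hk1 => ?_⟩
  set E := (2 : ℝ) ^ (-(0.38 * (D + 2))) with hE
  have hE0 : 0 < E := by positivity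
  have hEE : (2 : ℝ) ^ (-(0.76 * (130 * (m : ℝ) + 132))) ≤ E ^ 2 := by
    rw [hE, ← Real.rpow_natCast, ← Real.rpow_mul (by norm_num)]
    apply Real.rpow_le_rpow_of_exponent_le (by norm_num)
    push_cast
    linarith
  have hk0 : (0 : ℝ) ≤ k := Nat.cast_nonneg k
  set pk := (8 * ((k : ℝ) + 2) * (k + 1 + D)) * ((k + 1) * (k + 2)) with hpk
  have hpk0 : 0 ≤ pk := by positivity
  by_cases c1 : k < 10 * m - 1
  · rw [hN 0 k (by omega) c1, if_neg (by omega)]
    simpa using hE0.le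
  by_cases c2 : k < 2 * (10 * m - 1)
  · rw [exactness hD0 (by omega) hK hN k 0 (by omega) (by omega) (by omega)]
    simpa using hE0.le
  by_cases c3 : Odd k
  · rw [parity hD0 (by omega) hK hN k 0 (by omega) (by simpa using c3)]
    simpa using hE0.le
  rw [Nat.not_odd_iff_even] at c3
  apply le_of_sq_le' hE0.le
  rw [mul_pow, sq_abs]
  refine le_trans ?_ hEE
  by_cases c4 : k ≤ 26 * m
  · obtain ⟨r, hr⟩ := c3
    obtain ⟨s, hs⟩ : ∃ s, k = 10 * m - 2 + 2 * s := ⟨r - (5 * m - 1), by omega⟩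
    have hs1 : 5 * m ≤ s := by omega
    have hs2 : s ≤ 8 * m + 1 := by omega
    have hch := chain_spec hm425 h1 h2 hK hN s hs2
    rw [← hs] at hch
    have hnn := nn_bound (D := D) (m := m) (by omega) h1
    have hH := H_bound hm425 h1 h2
    have hS := S_prod (D := D) (m := m) (by omega) h1 s hs1 hs2
    have hnn0 := nn_pos hD0 (10 * m - 2)
    have hH0 := H_pos hD0 (show (0 : ℝ) < 7 / 10 by norm_num) (10 * m - 2)
    set P := ∏ l ∈ Finset.range s, SU D (10 * m - 2 + 2 * l)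
    have hsq : NN D w x 0 k ^ 2 ≤ (nn D (10 * m - 2) / H D (7 / 10) (10 * m - 2) * P) ^ 2 := by
      rw [← sq_abs]
      exact pow_le_pow_left₀ (abs_nonneg _) hch 2
    have hkR : (k : ℝ) ≤ 26 * m := by exact_mod_cast c4
    have hpkb : pk ≤ 10 ^ 8 * (m : ℝ) ^ 4 := by
      have a1 : (k : ℝ) + 2 ≤ 27 * m := by linarith
      have a2 : (k : ℝ) + 1 + D ≤ 157 * m := by linarith
      have a3 : (k : ℝ) + 1 ≤ 27 * m := by linarith
      have b1 : 8 * ((k : ℝ) + 2) * (k + 1 + D) ≤ 8 * (27 * m) * (157 * m) :=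
        mul_le_mul (by linarith) a2 (by positivity) (by positivity)
      have b2 : ((k : ℝ) + 1) * (k + 2) ≤ (27 * m) * (27 * m) :=
        mul_le_mul a3 a1 (by positivity) (by positivity)
      have b3 : pk ≤ (8 * (27 * (m : ℝ)) * (157 * m)) * ((27 * m) * (27 * m)) :=
        mul_le_mul b1 b2 (by positivity) (by positivity)
      have hm4 : (0 : ℝ) ≤ (m : ℝ) ^ 4 := by positivity
      have e : (8 * (27 * (m : ℝ)) * (157 * m)) * ((27 * m) * (27 * m))
          = (8 * 27 * 157 * 27 * 27) * (m : ℝ) ^ 4 := by ring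
      rw [e] at b3
      refine b3.trans (mul_le_mul_of_nonneg_right (by norm_num) hm4)
    refine le_trans ?_ (hm1 m hmm1)
    rw [mul_comm]
    apply mul_le_mul (pow_le_pow_left₀ hpk0 hpkb 2) _ (sq_nonneg _) (by positivity)
    refine hsq.trans ?_
    rw [mul_pow, div_pow]
    apply mul_le_mul _ hS (sq_nonneg _) (by positivity)
    apply div_le_div₀ (by positivity) _ (by positivity) hH
    exact pow_le_pow_left₀ hnn0.le hnn 2
  · have hk26 : 26 * m ≤ k := by omega
    have henv := env_bound hD0 (K := 10 * m - 1) (by omega) hw hx1 hK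
      (δ := D / 4) (by linarith) hxd h00 k (by omega)
    have e2 : 10 * m - 1 - 1 = 10 * m - 2 := by omega
    rw [hN (10 * m - 1 - 1) (10 * m - 1 - 1) (by omega) (by omega), if_pos rfl, e2, hc] at henv
    have hPA := PP_decay (D := D) (K := 10 * m - 1) (by linarith)
      (show 10 * m - 1 ≤ 26 * m by omega) hk26
    have hPB := PP_bound (D := D) (m := m) (by omega) h1
    have hnn0 := nn_pos hD0 (10 * m - 2)
    have hP0 := PP_nonneg hD0 (10 * m - 1) k
    have hP1 := PP_nonneg hD0 (10 * m - 1) (26 * m)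
    have q1 : 0 < 10 * (m : ℝ) - 1 + D := by linarith
    have hc26 : (((26 * m : ℕ) : ℝ) + D) ≤ 156 * m + 130 := by push_cast; linarith
    have hfac : ((10 * (m : ℝ) - 1) ^ 2 / (10 * m - 1 + D)) / (D / 4) ≤ 400 := by
      rw [div_div, div_le_iff₀ (by positivity)]
      nlinarith
    have hfac0 : 0 ≤ ((10 * (m : ℝ) - 1) ^ 2 / (10 * m - 1 + D)) / (D / 4) := by positivity
    set fac := ((10 * (m : ℝ) - 1) ^ 2 / (10 * m - 1 + D)) / (D / 4) with hfacdef
    have hpk2 : pk ^ 2 ≤ 256 * ((k : ℝ) + D) ^ 8 := by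
      have a1 : (k : ℝ) + 2 ≤ k + D := by linarith
      have a2 : (k : ℝ) + 1 + D ≤ 2 * (k + D) := by linarith
      have a3 : (k : ℝ) + 1 ≤ k + D := by linarith
      have a0 : (0 : ℝ) ≤ k + D := by positivity
      have b1 : 8 * ((k : ℝ) + 2) * (k + 1 + D) ≤ 8 * (k + D) * (2 * (k + D)) :=
        mul_le_mul (by linarith) a2 (by positivity) (by positivity)
      have b2 : ((k : ℝ) + 1) * (k + 2) ≤ (k + D) * (k + D) :=
        mul_le_mul a3 a1 (by positivity) (by positivity)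
      have b3 : pk ≤ (8 * ((k : ℝ) + D) * (2 * (k + D))) * ((k + D) * (k + D)) :=
        mul_le_mul b1 b2 (by positivity) (by positivity)
      have b4 := pow_le_pow_left₀ hpk0 b3 2
      calc pk ^ 2 ≤ _ := b4
        _ = _ := by ring
    have hND : NN D w x 0 k ^ 2 ≤ fac * (((k : ℝ) + D) * PP D (10 * m - 1) k) * nn D (10 * m - 2) := by
      refine henv.trans (le_of_eq ?_)
      rw [hfacdef]
      ring
    refine le_trans ?_ (hm2 m hmm2)
    calc NN D w x 0 k ^ 2 * pk ^ 2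
        ≤ (fac * (((k : ℝ) + D) * PP D (10 * m - 1) k) * nn D (10 * m - 2))
          * (256 * ((k : ℝ) + D) ^ 8) :=
          mul_le_mul hND hpk2 (sq_nonneg _) (by positivity)
      _ = fac * (256 * ((((k : ℝ) + D) ^ 9 * PP D (10 * m - 1) k) * nn D (10 * m - 2))) := by ring
      _ ≤ 400 * (256 * (((((26 * m : ℕ) : ℝ) + D) ^ 9 * PP D (10 * m - 1) (26 * m))
          * nn D (10 * m - 2))) := by
          apply mul_le_mul hfac _ (by positivity) (by norm_num)
          apply mul_le_mul_of_nonneg_left _ (by norm_num)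
          exact mul_le_mul_of_nonneg_right hPA hnn0.le
      _ = (256 * 400 * (((26 * m : ℕ) : ℝ) + D) ^ 9)
          * (PP D (10 * m - 1) (26 * m) * nn D (10 * m - 2)) := by ring
      _ ≤ (256 * 400 * (156 * (m : ℝ) + 130) ^ 9)
          * (20 * (156 * m + 1) * ((5 : ℝ) ^ 130 / 6 ^ 156) ^ m) := by
          apply mul_le_mul _ hPB (by positivity) (by positivity)
          apply mul_le_mul_of_nonneg_left _ (by norm_num)
          exact pow_le_pow_left₀ (by positivity) hc26 9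

end Pool.Agent.Helper92.TP
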