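import Pool.Agent.Helper92.LP.Geg

/-! Contiguous relations of the Gegenbauer polynomials, `D → D + 2`. -/

namespace Pool.Agent.Helper92.TP
open Pool.Agent.Helper92.LP

/-- A1 -/
lemma G_L2 {D : ℝ} (hD : 0 < D) (u : ℝ) (i : ℕ) :
    (1 - u ^ 2) * G (D + 2) u i = (D + 1) / (2 * (i + 1) + D) * (G D u i - G D u (i + 2)) := by
  have hD2 : 0 < D + 2 := by linarith
  induction i using Nat.twoStepInduction with
  | zero =>
    simp only [G, cA, cB]
    push_cast
    have h1 : (2 * (0 + 1) + D) ≠ 0 := by positivity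
    have h2 : (0 + 1 + D) ≠ 0 := by positivity
    field_simp
    ring
  | one =>
    simp only [G, cA, cB]
    push_cast
    have h1 : (2 * (0 + 1) + D) ≠ 0 := by positivity
    have h2 : (0 + 1 + D) ≠ 0 := by positivity
    have h3 : (2 * (1 + 1) + D) ≠ 0 := by positivity
    have h4 : (1 + 1 + D) ≠ 0 := by positivity
    field_simp
    ring
  | more i ih0 ih1 =>
    have r1 := G_rec hD u i
    have r3 := G_rec hD u (i + 2)
    have r' := G_rec hD2 u i
    have hc := cA_pos hD2 (i + 1)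
    apply mul_left_cancel₀ hc.ne'
    have e1 : cA (D + 2) (i + 1) * ((1 - u ^ 2) * G (D + 2) u (i + 2)) =
        u * ((1 - u ^ 2) * G (D + 2) u (i + 1)) -
          cB (D + 2) (i + 1) * ((1 - u ^ 2) * G (D + 2) u i) := by
      linear_combination (1 - u ^ 2) * r'
    rw [e1, ih0, ih1]
    have r1' : u * G D u (i + 1) = cA D (i + 1) * G D u (i + 2) + cB D (i + 1) * G D u i := by
      linarith
    have r3' : u * G D u (i + 3) = cA D (i + 3) * G D u (i + 4) + cB D (i + 3) * G D u (i + 2) := by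
      have e2 : i + 2 + 1 = i + 3 := rfl
      have e3 : i + 2 + 2 = i + 4 := rfl
      rw [e2, e3] at r3
      linarith
    have e4 : u * ((D + 1) / (2 * (((i + 1 : ℕ) : ℝ) + 1) + D) *
        (G D u (i + 1) - G D u (i + 1 + 2))) =
        (D + 1) / (2 * (((i + 1 : ℕ) : ℝ) + 1) + D) *
          ((cA D (i + 1) * G D u (i + 2) + cB D (i + 1) * G D u i) -
            (cA D (i + 3) * G D u (i + 4) + cB D (i + 3) * G D u (i + 2))) := by
      rw [← r1', ← r3']
      ring
    rw [e4]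
    simp only [cA, cB]
    push_cast
    have h1 : (2 * ((i : ℝ) + 1) + D) ≠ 0 := by positivity
    have h2 : (2 * ((i : ℝ) + 1 + 1) + D) ≠ 0 := by positivity
    have h3 : (2 * ((i : ℝ) + 3) + D) ≠ 0 := by positivity
    have h4 : (2 * ((i : ℝ) + 2 + 1) + D) ≠ 0 := by positivity
    have h5 : (2 * ((i : ℝ) + 1) + (D + 2)) ≠ 0 := by positivity
    field_simp
    ring

/-- A1 -/
lemma G_L3 {D : ℝ} (hD : 0 < D) (u : ℝ) (i : ℕ) :
    G D u (i + 2) = (((D + 2 + i) * (D + 3 + i)) * G (D + 2) u (i + 2)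
      - ((i + 1) * (i + 2)) * G (D + 2) u i) / ((2 * i + 4 + D) * (D + 1)) := by
  have hD2 : 0 < D + 2 := by linarith
  induction i using Nat.twoStepInduction with
  | zero =>
    simp only [G, cA, cB]
    push_cast
    have h1 : (2 * (0 + 1) + D) ≠ 0 := by positivity
    have h2 : (0 + 1 + D) ≠ 0 := by positivity
    have h3 : (2 * (0 + 1) + (D + 2)) ≠ 0 := by positivity
    have h4 : (0 + 1 + (D + 2)) ≠ 0 := by positivity
    have h5 : (2 * 0 + 4 + D) ≠ 0 := by positivity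
    have h6 : (D + 1) ≠ 0 := by positivity
    field_simp
    ring
  | one =>
    simp only [G, cA, cB]
    push_cast
    have h1 : (2 * (0 + 1) + D) ≠ 0 := by positivity
    have h2 : (0 + 1 + D) ≠ 0 := by positivity
    have h3 : (2 * (0 + 1) + (D + 2)) ≠ 0 := by positivity
    have h4 : (0 + 1 + (D + 2)) ≠ 0 := by positivity
    have h7 : (2 * (1 + 1) + D) ≠ 0 := by positivity
    have h8 : (1 + 1 + D) ≠ 0 := by positivity
    have h9 : (2 * (1 + 1) + (D + 2)) ≠ 0 := by positivity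
    have h10 : (1 + 1 + (D + 2)) ≠ 0 := by positivity
    have h5 : (2 * 1 + 4 + D) ≠ 0 := by positivity
    have h6 : (D + 1) ≠ 0 := by positivity
    field_simp
    ring
  | more i ih0 ih1 =>
    have r := G_rec hD u (i + 2)
    have r1 := G_rec hD2 u i
    have r3 := G_rec hD2 u (i + 2)
    have hc := cA_pos hD (i + 3)
    apply mul_left_cancel₀ hc.ne'
    have r' : cA D (i + 3) * G D u (i + 2 + 2) =
        u * G D u (i + 1 + 2) - cB D (i + 3) * G D u (i + 2) := r
    have r1' : u * G (D + 2) u (i + 1) =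
        cA (D + 2) (i + 1) * G (D + 2) u (i + 2) + cB (D + 2) (i + 1) * G (D + 2) u i := by
      linarith
    have r3' : u * G (D + 2) u (i + 1 + 2) =
        cA (D + 2) (i + 3) * G (D + 2) u (i + 2 + 2) + cB (D + 2) (i + 3) * G (D + 2) u (i + 2) := by
      have e2 : cA (D + 2) (i + 3) * G (D + 2) u (i + 2 + 2) =
        u * G (D + 2) u (i + 1 + 2) - cB (D + 2) (i + 3) * G (D + 2) u (i + 2) := r3
      linarith
    rw [r', ih1, ih0]
    have e4 : u * ((((D + 2 + ((i + 1 : ℕ) : ℝ)) * (D + 3 + ((i + 1 : ℕ) : ℝ))) *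
        G (D + 2) u (i + 1 + 2) - ((((i + 1 : ℕ) : ℝ) + 1) * (((i + 1 : ℕ) : ℝ) + 2)) *
        G (D + 2) u (i + 1)) / ((2 * ((i + 1 : ℕ) : ℝ) + 4 + D) * (D + 1))) =
        (((D + 2 + ((i + 1 : ℕ) : ℝ)) * (D + 3 + ((i + 1 : ℕ) : ℝ))) *
        (cA (D + 2) (i + 3) * G (D + 2) u (i + 2 + 2) +
          cB (D + 2) (i + 3) * G (D + 2) u (i + 2)) -
        ((((i + 1 : ℕ) : ℝ) + 1) * (((i + 1 : ℕ) : ℝ) + 2)) *
        (cA (D + 2) (i + 1) * G (D + 2) u (i + 2) + cB (D + 2) (i + 1) * G (D + 2) u i)) /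
          ((2 * ((i + 1 : ℕ) : ℝ) + 4 + D) * (D + 1)) := by
      rw [← r1', ← r3']
      ring
    rw [e4]
    simp only [cA, cB]
    push_cast
    have h1 : (2 * ((i : ℝ) + 1) + (D + 2)) ≠ 0 := by positivity
    have h3 : (2 * ((i : ℝ) + 3) + (D + 2)) ≠ 0 := by positivity
    have h4 : (2 * ((i : ℝ) + 3) + D) ≠ 0 := by positivity
    have h5 : (2 * ((i : ℝ) + 1) + 4 + D) ≠ 0 := by positivity
    have h6 : (2 * (i : ℝ) + 4 + D) ≠ 0 := by positivity
    have h7 : (2 * ((i : ℝ) + 2) + 4 + D) ≠ 0 := by positivity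
    have h8 : (D + 1) ≠ 0 := by positivity
    field_simp
    ring

end Pool.Agent.Helper92.TP
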