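import Pool.Agent.Helper92.TP.Defs
import Pool.Agent.Helper92.TP.BA1

/-!
Block A2: the two star identities.
-/

namespace Pool.Agent.Helper92.TP

open Pool.Agent.Helper92.LP

namespace A2

/-- the product in `CC` -/
noncomputable def pp (D : ℝ) (k : ℕ) : ℝ := ∏ j ∈ Finset.range k, ((D + 1 + 2 * j) / (D + 2 + 2 * j))

lemma pp_succ (D : ℝ) (k : ℕ) : pp D (k + 1) = pp D k * ((D + 1 + 2 * k) / (D + 2 + 2 * k)) := by
  unfold pp
  rw [Finset.prod_range_succ]

lemma pp_pos {D : ℝ} (hD : 0 < D) (k : ℕ) : 0 < pp D k := by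
  unfold pp
  apply Finset.prod_pos
  intro j _
  positivity

lemma CC_eq (D : ℝ) (i k : ℕ) : CC D (i + k) k = 1 / (nn (D + 2 * k) i * pp D k) := by
  unfold CC pp
  rw [if_neg (by omega), Nat.add_sub_cancel]

lemma Ph_lt (D u v : ℝ) {m k : ℕ} (h : m < k) : Ph D u v m k = 0 := by
  unfold Ph CC
  rw [if_pos h, zero_mul]

lemma Ph_eq (D u v : ℝ) (i k : ℕ) : Ph D u v (i + k) k =
    1 / (nn (D + 2 * k) i * pp D k) * (G (D + 2 * k) u i * G (D + 2 * k) v i) := by
  unfold Ph
  rw [CC_eq, Nat.add_sub_cancel]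

lemma nn_succ (D : ℝ) (k : ℕ) : nn D (k + 1) = nn D k * cB D (k + 1) / cA D k := rfl

lemma nn_shift {D : ℝ} (hD : 0 < D) (j : ℕ) :
    nn (D + 2) j = nn D (j + 1) * ((D + 2) * (D + 1) / ((j + 1) * (D + j + 1))) := by
  induction j with
  | zero =>
    rw [nn_succ]
    simp only [nn, cA, cB]
    push_cast
    field_simp
    ring
  | succ j ih =>
    rw [nn_succ (D + 2), ih, nn_succ D (j + 1)]
    have h0 := nn_pos hD (j + 1)
    unfold cA cB
    push_cast
    field_simp
    ring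

lemma nn_prev {D : ℝ} (hD : 0 < D) (i : ℕ) :
    nn D i = nn D (i + 1) * (cA D i / cB D (i + 1)) := by
  rw [nn_succ]
  have h1 := cA_pos hD i
  have h2 := cB_pos hD i
  field_simp

/-- rational identity for order `k + 1` -/
lemma star_alg {F k i : ℝ} (hF : 0 < F - 2 * k) (hk : 0 ≤ k) (hi : 0 ≤ i)
    {N P A A' B B' uU vU W W' u v V V' : ℝ} (hN : 0 < N) (hP : 0 < P)
    (hu : uU = (i + 1 + (F + 2)) / (2 * (i + 1) + (F + 2)) * B
      + (i + 1) / (2 * (i + 1) + (F + 2)) * A)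
    (hv : vU = (i + 1 + (F + 2)) / (2 * (i + 1) + (F + 2)) * B'
      + (i + 1) / (2 * (i + 1) + (F + 2)) * A')
    (hW : (1 - u ^ 2) * W = (F + 2 + 1) / (2 * (i + 1) + (F + 2)) * (A - B))
    (hW' : (1 - v ^ 2) * W' = (F + 2 + 1) / (2 * (i + 1) + (F + 2)) * (A' - B'))
    (hV : V = (((F + 2 + i) * (F + 3 + i)) * B - ((i + 1) * (i + 2)) * A)
      / ((2 * i + 4 + F) * (F + 1)))
    (hV' : V' = (((F + 2 + i) * (F + 3 + i)) * B' - ((i + 1) * (i + 2)) * A')
      / ((2 * i + 4 + F) * (F + 1))) :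
    (i + k + 1 + (F - 2 * k)) / (2 * (i + k + 1) + (F - 2 * k)) *
        (1 / (N * ((i + (F + 2)) / (2 * i + (F + 2)) / ((i + 1) / (2 * (i + 1) + (F + 2)))) * P)
          * (A * A'))
      + (i + k + 3) / (2 * (i + k + 3) + (F - 2 * k)) *
        (1 / (N * ((i + 2) / (2 * (i + 2) + (F + 2)))
          / ((i + 1 + (F + 2)) / (2 * (i + 1) + (F + 2))) * P) * (B * B'))
      = 1 / (N * P) * (uU * vU)
        + (k + 1 + (F - 2 * k - 1)) / (2 * (k + 1) + (F - 2 * k - 1)) *
          (1 / (N * ((F + 2 + 2) * (F + 2 + 1) / ((i + 1) * (F + 2 + i + 1)))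
            * (P * ((F + 3) / (F + 4)))) * (((1 - u ^ 2) * W) * ((1 - v ^ 2) * W')))
        + (k + 1) / (2 * (k + 1) + (F - 2 * k - 1)) *
          (1 / ((N * ((i + 2) * (F + 2 + i) / ((F + 2) * (F + 1))))
            * (P / ((F + 1) / (F + 2)))) * (V * V')) := by
  rw [hu, hv, hW, hW', hV, hV']
  have e1 : 0 < F := by linarith
  have e2 : 2 * (i + k + 1) + (F - 2 * k) ≠ 0 := by
    have : 2 * (i + k + 1) + (F - 2 * k) = 2 * i + 2 + F := by ring
    rw [this]; positivity
  have e3 : 2 * (i + k + 3) + (F - 2 * k) ≠ 0 := by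
    have : 2 * (i + k + 3) + (F - 2 * k) = 2 * i + 6 + F := by ring
    rw [this]; positivity
  have e4 : 2 * (k + 1) + (F - 2 * k - 1) ≠ 0 := by
    have : 2 * (k + 1) + (F - 2 * k - 1) = F + 1 := by ring
    rw [this]; positivity
  have d2 : 2 * (i + k + 1) + (F - 2 * k) = 2 * i + 2 + F := by ring
  have d3 : 2 * (i + k + 3) + (F - 2 * k) = 2 * i + 6 + F := by ring
  have d4 : 2 * (k + 1) + (F - 2 * k - 1) = F + 1 := by ring
  rw [d2, d3, d4]
  field_simp
  ring

/-- order `k + 1`, degree at least the order -/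
lemma star_gen {D : ℝ} (hD : 2 ≤ D) (u v : ℝ) (i k : ℕ) :
    cA D (i + (k + 1)) * Ph D u v (i + (k + 1)) (k + 1)
      + cB D (i + (k + 1) + 2) * Ph D u v (i + (k + 1) + 2) (k + 1)
      = u * v * Ph D u v (i + (k + 1) + 1) (k + 1)
      + cA (D - 1) (k + 1) * ((1 - u ^ 2) * (1 - v ^ 2)) * Ph D u v (i + (k + 1) + 1) (k + 1 + 1)
      + cB (D - 1) (k + 1) * Ph D u v (i + (k + 1) + 1) k := by
  have hD0 : 0 < D := by linarith
  have e2 : i + (k + 1) + 2 = (i + 2) + (k + 1) := by ring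
  have e1 : i + (k + 1) + 1 = (i + 1) + (k + 1) := by ring
  have e3 : (i + 1) + (k + 1) = i + (k + 1 + 1) := by ring
  have e4 : (i + 1) + (k + 1) = (i + 2) + k := by ring
  obtain ⟨F, hF⟩ : ∃ F, F = D + 2 * (k : ℝ) := ⟨_, rfl⟩
  have f1 : D + 2 * ((k + 1 : ℕ) : ℝ) = F + 2 := by rw [hF]; push_cast; ring
  have f2 : D + 2 * ((k + 1 + 1 : ℕ) : ℝ) = F + 2 + 2 := by rw [hF]; push_cast; ring
  have hF0 : 0 < F := by rw [hF]; positivity
  have p0 := Ph_eq D u v i (k + 1)
  have p2 := Ph_eq D u v (i + 2) (k + 1)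
  have p1 := Ph_eq D u v (i + 1) (k + 1)
  have pp1 := Ph_eq D u v i (k + 1 + 1)
  have pm := Ph_eq D u v (i + 2) k
  rw [f1] at p0 p2 p1
  rw [f2] at pp1
  rw [← hF] at pm
  have hN := nn_pos (D := F + 2) (by linarith) (i + 1)
  have hP := pp_pos hD0 (k + 1)
  have n0 := nn_prev (D := F + 2) (by linarith) i
  have n2 := nn_succ (F + 2) (i + 1)
  have np := nn_shift (D := F + 2) (by linarith) i
  have nm := nn_shift (D := F) hF0 (i + 1)
  have nm' : nn F (i + 2) = nn (F + 2) (i + 1) *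
      (((i : ℝ) + 2) * (F + 2 + i) / ((F + 2) * (F + 1))) := by
    rw [nm]
    push_cast
    field_simp
    ring
  have q1 := pp_succ D (k + 1)
  have q0 := pp_succ D k
  have q0' : pp D k = pp D (k + 1) / ((F + 1) / (F + 2)) := by
    rw [q0, hF]
    have : 0 < D + 1 + 2 * (k : ℝ) := by positivity
    have : 0 < D + 2 + 2 * (k : ℝ) := by positivity
    have : D + 2 * (k : ℝ) + 1 = D + 1 + 2 * k := by ring
    rw [this]
    have : D + 2 * (k : ℝ) + 2 = D + 2 + 2 * k := by ring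
    rw [this]
    field_simp
  have q1' : pp D (k + 1 + 1) = pp D (k + 1) * ((F + 3) / (F + 4)) := by
    rw [q1, hF]
    push_cast
    congr 2 <;> ring
  rw [e2, e1, p2, p1, e3, pp1, ← e3, e4, pm, p0, np, nm', n0, n2, q1', q0']
  have hmu := G_mul (D := F + 2) (by linarith) u (i + 1)
  have hmv := G_mul (D := F + 2) (by linarith) v (i + 1)
  have hlu := G_L2 (D := F + 2) (by linarith) u i
  have hlv := G_L2 (D := F + 2) (by linarith) v i
  have h3u := G_L3 (D := F) hF0 u i
  have h3v := G_L3 (D := F) hF0 v i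
  simp only [Nat.add_sub_cancel] at hmu hmv
  have key := star_alg (F := F) (k := k) (i := i) (by rw [hF]; linarith) (by positivity)
    (by positivity) hN hP (A := G (F + 2) u i) (A' := G (F + 2) v i) (B := G (F + 2) u (i + 2))
    (B' := G (F + 2) v (i + 2)) (u := u) (v := v) (uU := u * G (F + 2) u (i + 1))
    (vU := v * G (F + 2) v (i + 1))
    (by rw [hmu]; unfold cA cB; push_cast; ring) (by rw [hmv]; unfold cA cB; push_cast; ring)
    hlu hlv h3u h3v
  have hDF : D = F - 2 * k := by rw [hF]; ring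
  generalize nn (F + 2) (i + 1) = N at key ⊢
  generalize pp D (k + 1) = P at key ⊢
  have c1' : cA D (i + (k + 1)) = (i + k + 1 + (F - 2 * k)) / (2 * (i + k + 1) + (F - 2 * k)) := by
    unfold cA; rw [hDF]; push_cast; congr 1 <;> ring
  have c2 : cB D (i + 2 + (k + 1)) = (i + k + 3) / (2 * (i + k + 3) + (F - 2 * k)) := by
    unfold cB; rw [hDF]; push_cast; congr 1 <;> ring
  have c3 : cA (D - 1) (k + 1) = (k + 1 + (F - 2 * k - 1)) / (2 * (k + 1) + (F - 2 * k - 1)) := by
    unfold cA; rw [hDF]; push_cast; rfl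
  have c4 : cB (D - 1) (k + 1) = (k + 1) / (2 * (k + 1) + (F - 2 * k - 1)) := by
    unfold cB; rw [hDF]; push_cast; rfl
  have c5 : cA (F + 2) i = (i + (F + 2)) / (2 * i + (F + 2)) := by
    unfold cA; rfl
  have c6 : cB (F + 2) (i + 1) = (i + 1) / (2 * (i + 1) + (F + 2)) := by
    unfold cB; push_cast; rfl
  have c7 : cB (F + 2) (i + 1 + 1) = (i + 2) / (2 * (i + 2) + (F + 2)) := by
    unfold cB; push_cast; congr 1 <;> ring
  have c8 : cA (F + 2) (i + 1) = (i + 1 + (F + 2)) / (2 * (i + 1) + (F + 2)) := by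
    unfold cA; push_cast; rfl
  rw [c1', c2, c3, c4, c5, c6, c7, c8]
  linear_combination key

/-- rational identity for order `0` -/
lemma star_alg0 {F i : ℝ} (hF : 0 < F) (hi : 0 ≤ i)
    {N P A A' B B' uU vU W W' u v : ℝ} (hN : 0 < N) (hP : 0 < P)
    (hu : uU = (i + 1 + F) / (2 * (i + 1) + F) * B
      + (i + 1) / (2 * (i + 1) + F) * A)
    (hv : vU = (i + 1 + F) / (2 * (i + 1) + F) * B'
      + (i + 1) / (2 * (i + 1) + F) * A')
    (hW : (1 - u ^ 2) * W = (F + 1) / (2 * (i + 1) + F) * (A - B))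
    (hW' : (1 - v ^ 2) * W' = (F + 1) / (2 * (i + 1) + F) * (A' - B')) :
    (i + F) / (2 * i + F) *
        (1 / (N * ((i + F) / (2 * i + F) / ((i + 1) / (2 * (i + 1) + F))) * P)
          * (A * A'))
      + (i + 2) / (2 * (i + 2) + F) *
        (1 / (N * ((i + 2) / (2 * (i + 2) + F))
          / ((i + 1 + F) / (2 * (i + 1) + F)) * P) * (B * B'))
      = 1 / (N * P) * (uU * vU)
        + 1 *
          (1 / (N * ((F + 2) * (F + 1) / ((i + 1) * (F + i + 1)))
            * (P * ((F + 1) / (F + 2)))) * (((1 - u ^ 2) * W) * ((1 - v ^ 2) * W'))) := by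
  rw [hu, hv, hW, hW']
  field_simp
  ring

/-- order `0` -/
lemma star_gen0 {D : ℝ} (hD : 2 ≤ D) (u v : ℝ) (i : ℕ) :
    cA D i * Ph D u v i 0
      + cB D (i + 2) * Ph D u v (i + 2) 0
      = u * v * Ph D u v (i + 1) 0
      + cA (D - 1) 0 * ((1 - u ^ 2) * (1 - v ^ 2)) * Ph D u v (i + 1) 1 := by
  have hD0 : 0 < D := by linarith
  have f1 : D + 2 * ((0 : ℕ) : ℝ) = D := by push_cast; ring
  have f2 : D + 2 * ((1 : ℕ) : ℝ) = D + 2 := by push_cast; ring
  have p0 := Ph_eq D u v i 0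
  have p2 := Ph_eq D u v (i + 2) 0
  have p1 := Ph_eq D u v (i + 1) 0
  have pp1 := Ph_eq D u v i 1
  rw [f1, Nat.add_zero] at p0 p2 p1
  rw [f2] at pp1
  have hN := nn_pos (D := D) hD0 (i + 1)
  have hP := pp_pos hD0 0
  have n0 := nn_prev (D := D) hD0 i
  have n2 := nn_succ D (i + 1)
  have np := nn_shift (D := D) hD0 i
  have q1 := pp_succ D 0
  have q1' : pp D 1 = pp D 0 * ((D + 1) / (D + 2)) := by
    rw [q1]
    push_cast
    congr 2 <;> ring
  have hmu := G_mul (D := D) hD0 u (i + 1)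
  have hmv := G_mul (D := D) hD0 v (i + 1)
  have hlu := G_L2 (D := D) hD0 u i
  have hlv := G_L2 (D := D) hD0 v i
  simp only [Nat.add_sub_cancel] at hmu hmv
  rw [p2, p1, pp1, p0, np, n0, n2, q1', cA_zero (by linarith : 0 < D - 1)]
  have key := star_alg0 (F := D) (i := i) hD0
    (by positivity) hN hP (A := G D u i) (A' := G D v i) (B := G D u (i + 2))
    (B' := G D v (i + 2)) (u := u) (v := v) (uU := u * G D u (i + 1))
    (vU := v * G D v (i + 1))
    (by rw [hmu]; unfold cA cB; push_cast; ring) (by rw [hmv]; unfold cA cB; push_cast; ring)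
    hlu hlv
  generalize nn D (i + 1) = N at key ⊢
  generalize pp D 0 = P at key ⊢
  have c1 : cA D i = (i + D) / (2 * i + D) := rfl
  have c2 : cB D (i + 2) = (i + 2) / (2 * (i + 2) + D) := by
    unfold cB; push_cast; rfl
  have c6 : cB D (i + 1) = (i + 1) / (2 * (i + 1) + D) := by
    unfold cB; push_cast; rfl
  have c8 : cA D (i + 1) = (i + 1 + D) / (2 * (i + 1) + D) := by
    unfold cA; push_cast; rfl
  rw [c1, c2, c6, c8]
  linear_combination key

lemma nn_one {D : ℝ} (hD : 0 < D) : nn D 1 = 1 / (D + 2) := by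
  rw [nn_succ]
  simp only [nn, cA, cB]
  push_cast
  field_simp
  ring

lemma nn_zero (D : ℝ) : nn D 0 = 1 := rfl

end A2

open A2

/-- A2 -/
lemma star_zero {D : ℝ} (hD : 2 ≤ D) (u v : ℝ) (k : ℕ) :
    cB D 1 * Ph D u v 1 k = u * v * Ph D u v 0 k
      + cA (D - 1) k * ((1 - u ^ 2) * (1 - v ^ 2)) * Ph D u v 0 (k + 1)
      + cB (D - 1) k * Ph D u v 0 (k - 1) := by
  have hD0 : 0 < D := by linarith
  rcases k with _ | _ | k
  · rw [Ph_lt D u v (Nat.lt_succ_self 0), cB_zero]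
    have h1 := Ph_eq D u v 1 0
    have h0 := Ph_eq D u v 0 0
    simp only [Nat.cast_zero, mul_zero, add_zero] at h1 h0
    rw [h1, h0, nn_one hD0, nn_zero]
    have : pp D 0 = 1 := by unfold pp; simp
    rw [this]
    simp only [G, cB]
    push_cast
    field_simp
    ring
  · have h1 := Ph_eq D u v 0 1
    have h0 := Ph_eq D u v 0 0
    simp only [Nat.zero_add, Nat.add_zero] at h1 h0
    rw [Ph_lt D u v (show 0 < 0 + 1 by omega), Ph_lt D u v (show 0 < 0 + 1 + 1 by omega)]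
    simp only [Nat.zero_add, Nat.sub_self]
    rw [h1, h0, nn_zero, nn_zero]
    have : pp D 0 = 1 := by unfold pp; simp
    rw [pp_succ D 0, this]
    simp only [G, cB]
    push_cast
    have e : (2 : ℝ) * 1 + (D - 1) = D + 1 := by ring
    rw [e]
    field_simp
    ring
  · rw [Ph_lt D u v (show 1 < k + 1 + 1 by omega), Ph_lt D u v (show 0 < k + 1 + 1 by omega),
      Ph_lt D u v (show 0 < k + 1 + 1 + 1 by omega), Ph_lt D u v (show 0 < k + 1 + 1 - 1 by omega)]
    ring

/-- A2 -/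
lemma star_succ {D : ℝ} (hD : 2 ≤ D) (u v : ℝ) (m k : ℕ) :
    cA D m * Ph D u v m k + cB D (m + 2) * Ph D u v (m + 2) k = u * v * Ph D u v (m + 1) k
      + cA (D - 1) k * ((1 - u ^ 2) * (1 - v ^ 2)) * Ph D u v (m + 1) (k + 1)
      + cB (D - 1) k * Ph D u v (m + 1) (k - 1) := by
  have hD0 : 0 < D := by linarith
  rcases k with _ | k
  · rw [cB_zero, zero_mul, add_zero]
    exact star_gen0 hD u v m
  · rw [Nat.add_sub_cancel]
    rcases Nat.lt_or_ge m (k + 1) with h | h
    · rw [Ph_lt D u v h, Ph_lt D u v (show m + 1 < k + 1 + 1 by omega)]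
      rcases Nat.lt_or_ge (m + 1) (k + 1) with h2 | h2
      · rw [Ph_lt D u v h2]
        rcases Nat.lt_or_ge (m + 2) (k + 1) with h3 | h3
        · rw [Ph_lt D u v h3, Ph_lt D u v (show m + 1 < k by omega)]
          ring
        · obtain rfl : k = m + 1 := by omega
          have h1 := Ph_eq D u v 0 (m + 1 + 1)
          have h0 := Ph_eq D u v 0 (m + 1)
          rw [Nat.zero_add] at h1 h0
          rw [show m + 2 = m + 1 + 1 from rfl, h1, h0, nn_zero, nn_zero, pp_succ D (m + 1)]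
          have hP := pp_pos hD0 (m + 1)
          simp only [G, cB]
          push_cast
          have a1 : 0 < 2 * ((m : ℝ) + 1 + 1) + (D - 1) := by
            have : (0 : ℝ) ≤ m := Nat.cast_nonneg m
            linarith
          have a2 : 0 < D + 1 + 2 * ((m : ℝ) + 1) := by positivity
          have a3 : 2 * ((m : ℝ) + 1 + 1) + (D - 1) = D + 1 + 2 * ((m : ℝ) + 1) := by ring
          rw [a3]
          field_simp
          ring
      · obtain rfl : k = m := by omega
        have h2 := Ph_eq D u v 1 (k + 1)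
        have h1 := Ph_eq D u v 0 (k + 1)
        have h0 := Ph_eq D u v 1 k
        rw [Nat.zero_add] at h1
        rw [show k + 2 = 1 + (k + 1) by ring, h2, h1, show k + 1 = 1 + k by ring, h0]
        rw [show 1 + k = k + 1 by ring]
        rw [nn_one (by positivity), nn_one (by positivity), nn_zero, pp_succ D k]
        have hP := pp_pos hD0 k
        simp only [G, cB]
        push_cast
        have a3 : 2 * ((k : ℝ) + 1) + (D - 1) = D + 1 + 2 * (k : ℝ) := by ring
        rw [a3]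
        field_simp
        ring
    · obtain ⟨i, rfl⟩ := Nat.exists_eq_add_of_le' h
      exact star_gen hD u v i k

end Pool.Agent.Helper92.TP
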