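import Pool.Agent.Helper92.TP.Defs

/-!
Block A3 (helper47): `Q_k(u,v,t) F_0(u,v,t) = ((1-u²)(1-v²))^k F_k(u,v,t)`, from the coefficient
identities `star_zero`, `star_succ` (block A2), which are hypotheses here.
-/

namespace Pool.Agent.Helper92.TP

open Pool.Agent.Helper92.LP Filter Topology

section A3

variable {D u v t : ℝ}

lemma summable_sq_inv (C : ℝ) : Summable (fun m : ℕ => C / ((m : ℝ) + 1) ^ 2) := by
  have h := (summable_nat_add_iff 1).2 (Real.summable_one_div_nat_pow.2 (by norm_num : 1 < 2))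
  have h2 := h.mul_left C
  refine h2.congr fun m => ?_
  push_cast
  rw [mul_one_div]

/-- the summability criterion used below -/
lemma summable_of_bounds {p q : ℕ → ℝ} {C C' : ℝ} (hp : ∀ m : ℕ, |p m| ≤ C * ((m : ℝ) + 1) ^ 2)
    (hq : ∀ m : ℕ, |q m| ≤ C' / ((m : ℝ) + 1) ^ 4) : Summable (fun m => p m * q m) := by
  refine Summable.of_norm_bounded (summable_sq_inv (C * C')) fun m => ?_
  rw [Real.norm_eq_abs, abs_mul]
  have h1 : (0 : ℝ) < (m : ℝ) + 1 := by positivity
  have h2 : 0 ≤ C * ((m : ℝ) + 1) ^ 2 := (abs_nonneg _).trans (hp m)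
  calc |p m| * |q m| ≤ (C * ((m : ℝ) + 1) ^ 2) * (C' / ((m : ℝ) + 1) ^ 4) :=
        mul_le_mul (hp m) (hq m) (abs_nonneg _) h2
    _ = C * C' / ((m : ℝ) + 1) ^ 2 := by
        field_simp

lemma abs_cA_le (hD : 0 < D) (m : ℕ) : |cA D m| ≤ 1 := by
  rw [abs_of_pos (cA_pos hD m)]
  exact cA_le_one hD m

lemma abs_cB_le (hD : 0 < D) (m : ℕ) : |cB D m| ≤ 1 := by
  rw [abs_of_nonneg (cB_nonneg hD m)]
  linarith [cB_le_half hD m]

/-- the recurrence of the series in `k` -/
lemma FF_rec (hD : 2 ≤ D)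
    (hs0 : ∀ k, cB D 1 * Ph D u v 1 k = u * v * Ph D u v 0 k
      + cA (D - 1) k * ((1 - u ^ 2) * (1 - v ^ 2)) * Ph D u v 0 (k + 1)
      + cB (D - 1) k * Ph D u v 0 (k - 1))
    (hs1 : ∀ m k, cA D m * Ph D u v m k + cB D (m + 2) * Ph D u v (m + 2) k
      = u * v * Ph D u v (m + 1) k
      + cA (D - 1) k * ((1 - u ^ 2) * (1 - v ^ 2)) * Ph D u v (m + 1) (k + 1)
      + cB (D - 1) k * Ph D u v (m + 1) (k - 1))
    (hP : ∀ k, ∃ C : ℝ, ∀ m : ℕ, |Ph D u v m k| ≤ C * ((m : ℝ) + 1) ^ 2)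
    (hG : ∃ C : ℝ, ∀ m : ℕ, |G D t m| ≤ C / ((m : ℝ) + 1) ^ 4) (k : ℕ) :
    (t - u * v) * FF D u v t k = cA (D - 1) k * ((1 - u ^ 2) * (1 - v ^ 2)) * FF D u v t (k + 1)
      + cB (D - 1) k * FF D u v t (k - 1) := by
  have hD0 : 0 < D := by linarith
  obtain ⟨C', hC'⟩ := hG
  have hC'0 : 0 ≤ C' := by
    have h := (abs_nonneg _).trans (hC' 0)
    simpa using h
  -- summability of the basic series
  have hs : ∀ k, Summable (fun m => Ph D u v m k * G D t m) := fun k => by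
    obtain ⟨C, hC⟩ := hP k
    exact summable_of_bounds hC hC'
  obtain ⟨C, hC⟩ := hP k
  have hC0 : 0 ≤ C := by
    have h := (abs_nonneg _).trans (hC 0)
    simpa using h
  have hU : Summable (fun m => cA D m * Ph D u v m k * G D t (m + 1)) := by
    refine summable_of_bounds (C := C) (C' := C') (fun m => ?_) (fun m => ?_)
    · rw [abs_mul]
      calc |cA D m| * |Ph D u v m k| ≤ 1 * |Ph D u v m k| :=
            mul_le_mul_of_nonneg_right (abs_cA_le hD0 m) (abs_nonneg _)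
        _ ≤ _ := by rw [one_mul]; exact hC m
    · refine (hC' (m + 1)).trans ?_
      apply div_le_div_of_nonneg_left hC'0 (by positivity)
      push_cast
      gcongr
      linarith
  have hV : Summable (fun m => cB D (m + 1) * Ph D u v (m + 1) k * G D t m) := by
    refine summable_of_bounds (C := 4 * C) (C' := C') (fun m => ?_) hC'
    rw [abs_mul]
    calc |cB D (m + 1)| * |Ph D u v (m + 1) k| ≤ 1 * |Ph D u v (m + 1) k| :=
          mul_le_mul_of_nonneg_right (abs_cB_le hD0 _) (abs_nonneg _)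
      _ ≤ C * (((m + 1 : ℕ) : ℝ) + 1) ^ 2 := by rw [one_mul]; exact hC (m + 1)
      _ ≤ 4 * C * ((m : ℝ) + 1) ^ 2 := by
          push_cast
          have hm : (0 : ℝ) ≤ m := Nat.cast_nonneg m
          nlinarith [mul_nonneg hC0 hm, mul_nonneg hC0 (mul_nonneg hm hm)]
  -- the left side
  have hW : Summable (fun m => cB D m * Ph D u v m k * G D t (m - 1)) := by
    rw [← summable_nat_add_iff 1]
    simpa using hV
  have hWsum : ∑' m, cB D m * Ph D u v m k * G D t (m - 1)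
      = ∑' m, cB D (m + 1) * Ph D u v (m + 1) k * G D t m := by
    rw [hW.tsum_eq_zero_add]
    simp [cB_zero]
  have hleft : t * FF D u v t k = ∑' m, cA D m * Ph D u v m k * G D t (m + 1)
      + ∑' m, cB D (m + 1) * Ph D u v (m + 1) k * G D t m := by
    unfold FF
    rw [← tsum_mul_left, ← hWsum, ← hU.tsum_add hW]
    refine tsum_congr fun m => ?_
    have h := G_mul hD0 t m
    calc t * (Ph D u v m k * G D t m) = Ph D u v m k * (t * G D t m) := by ring
      _ = _ := by rw [h]; ring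
  -- the right side
  have hR : Summable (fun m => u * v * (Ph D u v m k * G D t m)
      + cA (D - 1) k * ((1 - u ^ 2) * (1 - v ^ 2)) * (Ph D u v m (k + 1) * G D t m)
      + cB (D - 1) k * (Ph D u v m (k - 1) * G D t m)) :=
    (((hs k).mul_left _).add ((hs (k + 1)).mul_left _)).add ((hs (k - 1)).mul_left _)
  have hright : u * v * FF D u v t k
      + cA (D - 1) k * ((1 - u ^ 2) * (1 - v ^ 2)) * FF D u v t (k + 1)
      + cB (D - 1) k * FF D u v t (k - 1)
      = ∑' m, (u * v * (Ph D u v m k * G D t m)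
      + cA (D - 1) k * ((1 - u ^ 2) * (1 - v ^ 2)) * (Ph D u v m (k + 1) * G D t m)
      + cB (D - 1) k * (Ph D u v m (k - 1) * G D t m)) := by
    unfold FF
    rw [(((hs k).mul_left _).add ((hs (k + 1)).mul_left _)).tsum_add ((hs (k - 1)).mul_left _),
      ((hs k).mul_left _).tsum_add ((hs (k + 1)).mul_left _), tsum_mul_left, tsum_mul_left,
      tsum_mul_left]
  have hV1 : Summable (fun m => cB D (m + 1 + 1) * Ph D u v (m + 1 + 1) k * G D t (m + 1)) :=
    (summable_nat_add_iff 1).2 hV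
  have hright2 : ∑' m, (u * v * (Ph D u v m k * G D t m)
      + cA (D - 1) k * ((1 - u ^ 2) * (1 - v ^ 2)) * (Ph D u v m (k + 1) * G D t m)
      + cB (D - 1) k * (Ph D u v m (k - 1) * G D t m))
      = ∑' m, cA D m * Ph D u v m k * G D t (m + 1)
      + ∑' m, cB D (m + 1) * Ph D u v (m + 1) k * G D t m := by
    rw [hR.tsum_eq_zero_add, hV.tsum_eq_zero_add]
    have h0 := hs0 k
    have e : ∀ m, u * v * (Ph D u v (m + 1) k * G D t (m + 1))
      + cA (D - 1) k * ((1 - u ^ 2) * (1 - v ^ 2)) * (Ph D u v (m + 1) (k + 1) * G D t (m + 1))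
      + cB (D - 1) k * (Ph D u v (m + 1) (k - 1) * G D t (m + 1))
      = cA D m * Ph D u v m k * G D t (m + 1)
        + cB D (m + 1 + 1) * Ph D u v (m + 1 + 1) k * G D t (m + 1) := fun m => by
      have h1 := hs1 m k
      have h2 : m + 1 + 1 = m + 2 := rfl
      rw [h2]
      linear_combination (-G D t (m + 1)) * h1
    rw [tsum_congr e, hU.tsum_add hV1]
    have h3 : u * v * (Ph D u v 0 k * G D t 0)
      + cA (D - 1) k * ((1 - u ^ 2) * (1 - v ^ 2)) * (Ph D u v 0 (k + 1) * G D t 0)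
      + cB (D - 1) k * (Ph D u v 0 (k - 1) * G D t 0)
      = cB D (0 + 1) * Ph D u v (0 + 1) k * G D t 0 := by
      simp only [Nat.zero_add]
      linear_combination (-G D t 0) * h0
    rw [h3]
    ring
  have := hleft.trans (hright2.symm.trans hright.symm)
  linear_combination this

theorem Qh_FF_of (hD : 2 ≤ D)
    (hs0 : ∀ k, cB D 1 * Ph D u v 1 k = u * v * Ph D u v 0 k
      + cA (D - 1) k * ((1 - u ^ 2) * (1 - v ^ 2)) * Ph D u v 0 (k + 1)
      + cB (D - 1) k * Ph D u v 0 (k - 1))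
    (hs1 : ∀ m k, cA D m * Ph D u v m k + cB D (m + 2) * Ph D u v (m + 2) k
      = u * v * Ph D u v (m + 1) k
      + cA (D - 1) k * ((1 - u ^ 2) * (1 - v ^ 2)) * Ph D u v (m + 1) (k + 1)
      + cB (D - 1) k * Ph D u v (m + 1) (k - 1))
    (hP : ∀ k, ∃ C : ℝ, ∀ m : ℕ, |Ph D u v m k| ≤ C * ((m : ℝ) + 1) ^ 2)
    (hG : ∃ C : ℝ, ∀ m : ℕ, |G D t m| ≤ C / ((m : ℝ) + 1) ^ 4) (k : ℕ) :
    Qh D u v t k * FF D u v t 0 = ((1 - u ^ 2) * (1 - v ^ 2)) ^ k * FF D u v t k := by
  have hD1 : 0 < D - 1 := by linarith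
  have hrec := FF_rec hD hs0 hs1 hP hG
  have key : ∀ k, Qh D u v t k * FF D u v t 0 = ((1 - u ^ 2) * (1 - v ^ 2)) ^ k * FF D u v t k ∧
      Qh D u v t (k + 1) * FF D u v t 0
        = ((1 - u ^ 2) * (1 - v ^ 2)) ^ (k + 1) * FF D u v t (k + 1) := by
    intro k
    induction k with
    | zero =>
      refine ⟨by simp [Qh], ?_⟩
      have h := hrec 0
      rw [cA_zero hD1, cB_zero] at h
      simp only [Qh, Nat.zero_add, pow_one] at h ⊢
      linear_combination h
    | succ k ih =>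
      refine ⟨ih.2, ?_⟩
      have ha := (cA_pos hD1 (k + 1)).ne'
      have h := hrec (k + 1)
      simp only [Nat.add_sub_cancel] at h
      have hq : Qh D u v t (k + 1 + 1) = ((t - u * v) * Qh D u v t (k + 1)
        - cB (D - 1) (k + 1) * ((1 - u ^ 2) * (1 - v ^ 2)) * Qh D u v t k)
          / cA (D - 1) (k + 1) := rfl
      rw [hq, div_mul_eq_mul_div, div_eq_iff ha]
      linear_combination (t - u * v) * ih.2
        - cB (D - 1) (k + 1) * ((1 - u ^ 2) * (1 - v ^ 2)) * ih.1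
        + ((1 - u ^ 2) * (1 - v ^ 2)) ^ (k + 1) * h
  exact (key k).1

end A3

end Pool.Agent.Helper92.TP
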