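import Pool.Agent.Helper92.TP.Defs
import Pool.Agent.Helper92.TP.BA1

/-!
Block B1 of the three point barrier: orthogonality of the associated families.
-/

namespace Pool.Agent.Helper92.TP

open Pool.Agent.Helper92.LP

namespace B1

/-- weighted sums of products at level `k` -/
noncomputable def S {ι : Type*} [Fintype ι] (D : ℝ) (w y : ι → ℝ) (k i j : ℕ) : ℝ :=
  ∑ a, w a * ((1 - y a ^ 2) ^ k * (G (D + 2 * k) (y a) i * G (D + 2 * k) (y a) j))

/-- mixed sums -/
noncomputable def T {ι : Type*} [Fintype ι] (D : ℝ) (w y : ι → ℝ) (k i j : ℕ) : ℝ :=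
  ∑ a, w a * ((1 - y a ^ 2) ^ k * (G (D + 2 * k) (y a) i * G (D + 2 * k + 2) (y a) j))

/-- the product of the normalising constants -/
noncomputable def Pk (D : ℝ) (k : ℕ) : ℝ := ∏ j ∈ Finset.range k, ((D + 1 + 2 * j) / (D + 2 + 2 * j))

lemma Pk_pos {D : ℝ} (hD : 0 < D) (k : ℕ) : 0 < Pk D k := by
  unfold Pk
  exact Finset.prod_pos fun j _ => by positivity

lemma S_comm {ι : Type*} [Fintype ι] (D : ℝ) (w y : ι → ℝ) (k i j : ℕ) :
    S D w y k i j = S D w y k j i := by
  unfold S
  exact Finset.sum_congr rfl fun a _ => by ring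

lemma nn_two {E : ℝ} (hE : 0 < E) (j : ℕ) :
    nn (E + 2) j * ((2 * j + 2 + E) * (E + j) * (E + 1 + j)) =
      nn E j * ((E + 2) * (2 * j + E) * (E + 1)) := by
  induction j with
  | zero =>
    simp only [nn, Nat.cast_zero]
    ring
  | succ j ih =>
    simp only [nn, cA, cB]
    push_cast
    have h1 : (j : ℝ) + E ≠ 0 := by positivity
    have h2 : 2 * (j : ℝ) + E ≠ 0 := by positivity
    have h3 : 2 * ((j : ℝ) + 1) + E ≠ 0 := by positivity
    have h4 : 2 * ((j : ℝ) + 1) + (E + 2) ≠ 0 := by positivity
    have h5 : 2 * (j : ℝ) + (E + 2) ≠ 0 := by positivity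
    have h6 : (j : ℝ) + (E + 2) ≠ 0 := by positivity
    have h7 : (E + j) * (E + 1 + j) ≠ 0 := by positivity
    have h8 : nn (E + 2) j = nn E j * ((E + 2) * (2 * j + E) * (E + 1)) /
        ((2 * j + 2 + E) * (E + j) * (E + 1 + j)) := by
      rw [eq_div_iff (by positivity)]
      exact ih
    rw [h8]
    field_simp
    ring

lemma T_zero {D : ℝ} {ι : Type*} [Fintype ι] (w y : ι → ℝ) (k i : ℕ) :
    T D w y k i 0 = S D w y k i 0 := by
  unfold T S
  simp [G]

lemma T_one {D : ℝ} {ι : Type*} [Fintype ι] (w y : ι → ℝ) (k i : ℕ) :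
    T D w y k i 1 = S D w y k i 1 := by
  unfold T S
  simp [G]

lemma T_two {D : ℝ} (hD : 0 < D) {ι : Type*} [Fintype ι] (w y : ι → ℝ) (k i j : ℕ) :
    ((D + 2 * k + 2 + j) * (D + 2 * k + 3 + j)) * T D w y k i (j + 2) =
      ((2 * j + 4 + (D + 2 * k)) * (D + 2 * k + 1)) * S D w y k i (j + 2)
        + ((j + 1) * (j + 2)) * T D w y k i j := by
  have hE : 0 < D + 2 * (k : ℝ) := by positivity
  unfold T S
  rw [Finset.mul_sum, Finset.mul_sum, Finset.mul_sum, ← Finset.sum_add_distrib]
  refine Finset.sum_congr rfl fun a _ => ?_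
  have h := G_L3 hE (y a) j
  rw [eq_div_iff (by positivity)] at h
  linear_combination (-(w a * ((1 - y a ^ 2) ^ k * G (D + 2 * k) (y a) i))) * h

lemma S_succ {D : ℝ} (hD : 0 < D) {ι : Type*} [Fintype ι] (w y : ι → ℝ) (k i j : ℕ) :
    S D w y (k + 1) i j = (D + 2 * k + 1) / (2 * (i + 1) + (D + 2 * k)) *
      (T D w y k i j - T D w y k (i + 2) j) := by
  have hE : 0 < D + 2 * (k : ℝ) := by positivity
  have hc : D + 2 * ((k + 1 : ℕ) : ℝ) = D + 2 * k + 2 := by push_cast; ring
  unfold T S
  rw [hc, ← Finset.sum_sub_distrib, Finset.mul_sum]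
  refine Finset.sum_congr rfl fun a _ => ?_
  have h := G_L2 hE (y a) i
  rw [pow_succ]
  linear_combination (w a * ((1 - y a ^ 2) ^ k * G (D + 2 * k + 2) (y a) j)) * h

lemma main {D : ℝ} (hD : 0 < D) {ι : Type*} [Fintype ι] {w y : ι → ℝ} {M : ℕ}
    (hN : ∀ i j, i < M → j < M → NN D w y i j = if i = j then nn D i else 0) (k : ℕ) :
    ∀ i j : ℕ, i + 2 * k < M → j + 2 * k < M →
      S D w y k i j = if i = j then nn (D + 2 * k) i * Pk D k else 0 := by
  induction k with
  | zero =>
    intro i j hi hj
    have := hN i j (by omega) (by omega)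
    unfold S Pk
    simp only [Nat.cast_zero, mul_zero, add_zero, pow_zero, one_mul, Finset.range_zero,
      Finset.prod_empty, mul_one]
    rw [← this]
    rfl
  | succ k ih =>
    have hE : 0 < D + 2 * (k : ℝ) := by positivity
    -- the mixed sums
    have hT : ∀ j : ℕ, j + 2 * k < M → ∀ i, j ≤ i → i + 2 * k < M →
        T D w y k i j * ((D + 2 * k + j) * (D + 2 * k + 1 + j)) =
          if i = j then nn (D + 2 * k) j * Pk D k * ((2 * j + (D + 2 * k)) * (D + 2 * k + 1))
            else 0 := by
      intro j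
      induction j using Nat.strong_induction_on with
      | _ j ihj =>
      intro hj i hij hi
      rcases j with _ | _ | j
      · rw [T_zero, ih i 0 hi hj]
        split_ifs with h
        · subst h
          push_cast
          ring
        · ring
      · rw [T_one, ih i 1 hi hj]
        split_ifs with h
        · subst h
          push_cast
          ring
        · ring
      · have h1 := T_two hD w y k i j
        have h2 := ih i (j + 1 + 1) hi hj
        have h3 := ihj j (by omega) (by omega) i (by omega) hi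
        rw [if_neg (by omega)] at h3
        have h4 : T D w y k i j = 0 := by
          rcases mul_eq_zero.mp h3 with h | h
          · exact h
          · exfalso
            have : 0 < (D + 2 * (k : ℝ) + j) * (D + 2 * k + 1 + j) := by positivity
            linarith
        rw [h4, mul_zero, add_zero] at h1
        have h5 : T D w y k i (j + 1 + 1) * ((D + 2 * k + ((j + 1 + 1 : ℕ) : ℝ)) *
            (D + 2 * k + 1 + ((j + 1 + 1 : ℕ) : ℝ))) =
            ((2 * j + 4 + (D + 2 * k)) * (D + 2 * k + 1)) * S D w y k i (j + 2) := by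
          rw [← h1]
          push_cast
          ring
        rw [h5]
        have h6 : S D w y k i (j + 2) = S D w y k i (j + 1 + 1) := rfl
        rw [h6, h2]
        split_ifs with h
        · subst h
          push_cast
          ring
        · ring
    -- the step for j ≤ i
    have hle : ∀ i j : ℕ, j ≤ i → i + 2 * (k + 1) < M →
        S D w y (k + 1) i j = if i = j then nn (D + 2 * ((k + 1 : ℕ) : ℝ)) i * Pk D (k + 1)
          else 0 := by
      intro i j hij hi
      rw [S_succ hD]
      have h1 := hT j (by omega) i hij (by omega)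
      have h2 := hT j (by omega) (i + 2) (by omega) (by omega)
      rw [if_neg (by omega)] at h2
      have hpos : (0 : ℝ) < (D + 2 * k + j) * (D + 2 * k + 1 + j) := by positivity
      have h3 : T D w y k (i + 2) j = 0 := by
        rcases mul_eq_zero.mp h2 with h | h
        · exact h
        · exact absurd h hpos.ne'
      rw [h3, sub_zero]
      split_ifs with h
      · subst h
        rw [if_pos rfl, ← eq_div_iff hpos.ne'] at h1
        rw [h1]
        have hc : D + 2 * ((k + 1 : ℕ) : ℝ) = D + 2 * k + 2 := by push_cast; ring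
        rw [hc]
        have h4 := nn_two hE i
        have h5 : nn (D + 2 * k + 2) i = nn (D + 2 * k) i *
            ((D + 2 * k + 2) * (2 * i + (D + 2 * k)) * (D + 2 * k + 1)) /
              ((2 * i + 2 + (D + 2 * k)) * (D + 2 * k + i) * (D + 2 * k + 1 + i)) := by
          rw [eq_div_iff (by positivity)]
          exact h4
        have h6 : Pk D (k + 1) = Pk D k * ((D + 1 + 2 * k) / (D + 2 + 2 * k)) := by
          unfold Pk
          rw [Finset.prod_range_succ]
        rw [h5, h6]
        have h7 : D + 1 + 2 * (k : ℝ) ≠ 0 := by positivity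
        have h8 : D + 2 + 2 * (k : ℝ) ≠ 0 := by positivity
        have h9 : D + 2 * (k : ℝ) + 2 ≠ 0 := by positivity
        have h10 : 2 * ((i : ℝ) + 1) + (D + 2 * k) ≠ 0 := by positivity
        have h11 : 2 * (i : ℝ) + 2 + (D + 2 * k) ≠ 0 := by positivity
        have h12 : D + 2 * (k : ℝ) + i ≠ 0 := by positivity
        have h13 : D + 2 * (k : ℝ) + 1 + i ≠ 0 := by positivity
        field_simp
        ring
      · rw [if_neg h] at h1
        rcases mul_eq_zero.mp h1 with h | h
        · rw [h, mul_zero]
        · exact absurd h hpos.ne'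
    intro i j hi hj
    rcases le_total j i with h | h
    · exact hle i j h hi
    · rw [S_comm, hle j i h hj]
      by_cases hij : i = j
      · subst hij; rfl
      · rw [if_neg hij, if_neg (Ne.symm hij)]

end B1

/-- B1 -/
lemma assoc_orth {D : ℝ} (hD : 0 < D) {ι : Type*} [Fintype ι] {w y : ι → ℝ} {M : ℕ}
    (hN : ∀ i j, i < M → j < M → NN D w y i j = if i = j then nn D i else 0) :
    ∀ k i j : ℕ, i + 2 * k < M → j + 2 * k < M →
      CC D (i + k) k * ∑ a, w a * ((1 - y a ^ 2) ^ k
        * (G (D + 2 * k) (y a) i * G (D + 2 * k) (y a) j)) = if i = j then 1 else 0 := by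
  intro k i j hi hj
  have h := B1.main hD hN k i j hi hj
  unfold B1.S at h
  rw [h]
  have hE : 0 < D + 2 * (k : ℝ) := by positivity
  split_ifs with hij
  · unfold CC
    rw [if_neg (by omega), Nat.add_sub_cancel]
    have h1 := nn_pos hE i
    have h2 := B1.Pk_pos hD k
    unfold B1.Pk at h2 ⊢
    exact one_div_mul_cancel (by positivity)
  · rw [mul_zero]

end Pool.Agent.Helper92.TP
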