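import Pool.Agent.Helper92.TP.Defs

/-!
Block B2: products `(1 - u²)^r G(D + 4r)(u, i)` in the span of the Gegenbauer polynomials of order
`D`.
-/

namespace Pool.Agent.Helper92.TP

open Pool.Agent.Helper92.LP

namespace B2

/-- the span of `G D · 0, …, G D · n` -/
noncomputable def V (D : ℝ) (n : ℕ) : Submodule ℝ (ℝ → ℝ) :=
  Submodule.span ℝ (Set.range (fun (j : Fin (n + 1)) (u : ℝ) => G D u j))

lemma G_mem (D : ℝ) {j n : ℕ} (h : j ≤ n) : (fun u => G D u j) ∈ V D n :=
  Submodule.subset_span ⟨⟨j, by omega⟩, rfl⟩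

lemma V_mono (D : ℝ) {n n' : ℕ} (h : n ≤ n') : V D n ≤ V D n' := by
  refine Submodule.span_le.2 ?_
  rintro _ ⟨j, rfl⟩
  exact G_mem D (by have := j.2; omega)

/-- multiplication by the variable -/
def mulX : (ℝ → ℝ) →ₗ[ℝ] (ℝ → ℝ) where
  toFun f := fun u => u * f u
  map_add' f g := by funext u; simp [mul_add]
  map_smul' a f := by funext u; simp; ring

lemma mulX_mem {D : ℝ} (hD : 0 < D) {n : ℕ} {f : ℝ → ℝ} (hf : f ∈ V D n) :
    mulX f ∈ V D (n + 1) := by
  have h : V D n ≤ (V D (n + 1)).comap mulX := by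
    refine Submodule.span_le.2 ?_
    rintro _ ⟨j, rfl⟩
    have hj := j.2
    change mulX (fun u => G D u j) ∈ V D (n + 1)
    have h1 : mulX (fun u => G D u j) =
        cA D j • (fun u => G D u ((j : ℕ) + 1)) + cB D j • (fun u => G D u ((j : ℕ) - 1)) := by
      funext u
      simp only [mulX, LinearMap.coe_mk, AddHom.coe_mk, Pi.add_apply, Pi.smul_apply, smul_eq_mul]
      exact G_mul hD u j
    rw [h1]
    exact add_mem (Submodule.smul_mem _ _ (G_mem D (by omega)))
      (Submodule.smul_mem _ _ (G_mem D (by omega)))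
  exact h hf

lemma G_mem' {D D' : ℝ} (hD : 0 < D) : ∀ i : ℕ, (fun u => G D' u i) ∈ V D i
  | 0 => by
      have : (fun u => G D' u 0) = fun u => G D u 0 := by funext u; simp [G]
      rw [this]
      exact G_mem D le_rfl
  | 1 => by
      have : (fun u => G D' u 1) = fun u => G D u 1 := by funext u; simp [G]
      rw [this]
      exact G_mem D le_rfl
  | (i + 2) => by
      have h1 := mulX_mem hD (G_mem' (D' := D') hD (i + 1))
      have h2 := V_mono D (show i ≤ i + 2 by omega) (G_mem' (D' := D') hD i)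
      have h3 : (fun u => G D' u (i + 2)) = (1 / cA D' (i + 1)) • mulX (fun u => G D' u (i + 1))
          + (-(cB D' (i + 1) / cA D' (i + 1))) • (fun u => G D' u i) := by
        funext u
        simp only [mulX, LinearMap.coe_mk, AddHom.coe_mk, Pi.add_apply, Pi.smul_apply,
          smul_eq_mul, G]
        ring
      rw [h3]
      exact add_mem (Submodule.smul_mem _ _ h1) (Submodule.smul_mem _ _ h2)

lemma factor_mem {D : ℝ} (hD : 0 < D) {n : ℕ} {f : ℝ → ℝ} (hf : f ∈ V D n) :
    (fun u => (1 - u ^ 2) * f u) ∈ V D (n + 2) := by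
  have h1 := V_mono D (show n ≤ n + 2 by omega) hf
  have h2 := mulX_mem hD (mulX_mem hD hf)
  have h3 : (fun u => (1 - u ^ 2) * f u) = f - mulX (mulX f) := by
    funext u
    simp only [mulX, LinearMap.coe_mk, AddHom.coe_mk, Pi.sub_apply]
    ring
  rw [h3]
  exact sub_mem h1 h2

lemma pow_mem {D : ℝ} (hD : 0 < D) {n : ℕ} {f : ℝ → ℝ} (hf : f ∈ V D n) (r : ℕ) :
    (fun u => (1 - u ^ 2) ^ r * f u) ∈ V D (n + 2 * r) := by
  induction r with
  | zero => simpa using hf
  | succ r ih =>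
    have := factor_mem hD ih
    have h : (fun u => (1 - u ^ 2) ^ (r + 1) * f u)
        = fun u => (1 - u ^ 2) * ((1 - u ^ 2) ^ r * f u) := by
      funext u; ring
    rw [h]
    exact this

end B2

/-- B2 -/
lemma even_span {D : ℝ} (hD : 0 < D) (r i : ℕ) : ∃ c : ℕ → ℝ, ∀ u : ℝ,
    (1 - u ^ 2) ^ r * G (D + 4 * r) u i = ∑ j ∈ Finset.range (i + 2 * r + 1), c j * G D u j := by
  have h := B2.pow_mem hD (B2.G_mem' (D' := D + 4 * r) hD i) r
  rw [B2.V, Submodule.mem_span_range_iff_exists_fun] at h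
  obtain ⟨c, hc⟩ := h
  refine ⟨fun j => if h : j < i + 2 * r + 1 then c ⟨j, h⟩ else 0, fun u => ?_⟩
  have h1 := congrFun hc u
  simp only [Finset.sum_apply, Pi.smul_apply, smul_eq_mul] at h1
  rw [← h1, Finset.sum_range]
  refine Finset.sum_congr rfl fun j _ => ?_
  simp only [j.2, dif_pos]

end Pool.Agent.Helper92.TP
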