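import Pool.Agent.Helper92.TP.Defs
import Pool.Agent.Helper92.TP.BB1
import Pool.Agent.Helper92.TP.BB2

/-!
Block B3 of the three point barrier: Christoffel bound for the associated functions of even order.
-/

namespace Pool.Agent.Helper92.TP

open Pool.Agent.Helper92.LP

namespace B3

/-- the squared norm of a combination of the `G_j` in the discrete measure -/
lemma norm_comb {D : ℝ} {M n : ℕ} {w y : Fin M → ℝ}
    (hN : ∀ j k, j < M → k < M → ∑ i, w i * (G D (y i) j * G D (y i) k)
        = if j = k then nn D j else 0) (hn : n ≤ M) (c : ℕ → ℝ) :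
    ∑ a, w a * (∑ j ∈ Finset.range n, c j * G D (y a) j) ^ 2
      = ∑ j ∈ Finset.range n, c j ^ 2 * nn D j := by
  have e : ∀ a, w a * (∑ j ∈ Finset.range n, c j * G D (y a) j) ^ 2
      = ∑ j ∈ Finset.range n, ∑ l ∈ Finset.range n,
        c j * c l * (w a * (G D (y a) j * G D (y a) l)) := by
    intro a
    rw [sq, Finset.sum_mul_sum, Finset.mul_sum]
    refine Finset.sum_congr rfl fun j _ => ?_
    rw [Finset.mul_sum]
    exact Finset.sum_congr rfl fun l _ => by ring
  rw [Finset.sum_congr rfl fun a _ => e a, Finset.sum_comm]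
  refine Finset.sum_congr rfl fun j hj => ?_
  rw [Finset.sum_comm]
  have hj' := Finset.mem_range.1 hj
  have e2 : ∀ l ∈ Finset.range n, ∑ a, c j * c l * (w a * (G D (y a) j * G D (y a) l))
      = if j = l then c j ^ 2 * nn D j else 0 := by
    intro l hl
    have hl' := Finset.mem_range.1 hl
    rw [← Finset.mul_sum, hN j l (by omega) (by omega)]
    by_cases h : j = l
    · subst h
      simp only [if_true]
      ring
    · simp [h]
  rw [Finset.sum_congr rfl e2, Finset.sum_ite_eq, if_pos hj]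

end B3

/-- B3 -/
lemma EE_even {D : ℝ} (hD : 0 < D) (x : ℝ) (m k : ℕ) (hk : Even k) :
    EE D x m k ≤ ∑ j ∈ Finset.range (m + 1), G D x j ^ 2 / nn D j := by
  have hnn : 0 ≤ ∑ j ∈ Finset.range (m + 1), G D x j ^ 2 / nn D j :=
    Finset.sum_nonneg fun j _ => div_nonneg (sq_nonneg _) (nn_pos hD j).le
  by_cases hmk : m < k
  · unfold EE CC
    rw [if_pos hmk, zero_mul]
    exact hnn
  obtain ⟨r, hr⟩ := hk
  obtain ⟨c, hc⟩ := even_span hD r (m - k)
  have hlen : m - k + 2 * r + 1 = m + 1 := by omega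
  rw [hlen] at hc
  have hcast : D + 4 * (r : ℝ) = D + 2 * (k : ℝ) := by
    rw [hr]; push_cast; ring
  rw [hcast] at hc
  obtain ⟨w, y, -, hN, -, -⟩ := exists_gauss hD (K := 2 * m + 2 * k + 5) (by omega)
  have horth := assoc_orth hD (w := w) (y := y) (M := 2 * m + 2 * k + 5)
    (fun i j hi hj => hN i j hi hj) k (m - k) (m - k) (by omega) (by omega)
  have hmk' : m - k + k = m := by omega
  rw [hmk', if_pos rfl] at horth
  have hsq : ∀ u : ℝ, (1 - u ^ 2) ^ k * (G (D + 2 * k) u (m - k) * G (D + 2 * k) u (m - k))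
      = (∑ j ∈ Finset.range (m + 1), c j * G D u j) ^ 2 := by
    intro u
    rw [← hc u, hr]
    ring
  rw [Finset.sum_congr rfl fun a _ => by rw [hsq (y a)],
    B3.norm_comb hN (by omega : m + 1 ≤ 2 * m + 2 * k + 5) c] at horth
  have hCC : 0 ≤ CC D m k := by
    by_contra h
    have h1 : 0 ≤ ∑ j ∈ Finset.range (m + 1), c j ^ 2 * nn D j :=
      Finset.sum_nonneg fun j _ => mul_nonneg (sq_nonneg _) (nn_pos hD j).le
    have h2 := mul_nonpos_of_nonpos_of_nonneg (not_le.1 h).le h1
    linarith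
  have hEE : EE D x m k = CC D m k * (∑ j ∈ Finset.range (m + 1), c j * G D x j) ^ 2 := by
    unfold EE
    rw [← hsq x]
    ring
  have hCS : (∑ j ∈ Finset.range (m + 1), c j * G D x j) ^ 2
      ≤ (∑ j ∈ Finset.range (m + 1), c j ^ 2 * nn D j)
        * ∑ j ∈ Finset.range (m + 1), G D x j ^ 2 / nn D j := by
    refine Finset.sum_sq_le_sum_mul_sum_of_sq_le_mul _
      (fun j _ => mul_nonneg (sq_nonneg _) (nn_pos hD j).le)
      (fun j _ => div_nonneg (sq_nonneg _) (nn_pos hD j).le) (fun j _ => ?_)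
    refine le_of_eq ?_
    have := (nn_pos hD j).ne'
    field_simp
  rw [hEE]
  calc CC D m k * (∑ j ∈ Finset.range (m + 1), c j * G D x j) ^ 2
      ≤ CC D m k * ((∑ j ∈ Finset.range (m + 1), c j ^ 2 * nn D j)
        * ∑ j ∈ Finset.range (m + 1), G D x j ^ 2 / nn D j) :=
        mul_le_mul_of_nonneg_left hCS hCC
    _ = (CC D m k * ∑ j ∈ Finset.range (m + 1), c j ^ 2 * nn D j)
        * ∑ j ∈ Finset.range (m + 1), G D x j ^ 2 / nn D j := by ring
    _ = ∑ j ∈ Finset.range (m + 1), G D x j ^ 2 / nn D j := by rw [horth, one_mul]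

end Pool.Agent.Helper92.TP
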