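import Pool.Agent.Helper92.LP.Energy
import Pool.Agent.Helper92.LP.Gauss

/-!
Definitions for the three point barrier. `D = d - 2`; `G D x m` is the Gegenbauer polynomial of the
sphere `S^(d-1)`, normalised at `1`, and `nn D m` its squared norm.
-/

namespace Pool.Agent.Helper92.TP

open Pool.Agent.Helper92.LP

/-- normalising constants `C_{m,k}` of the associated functions -/
noncomputable def CC (D : ℝ) (m k : ℕ) : ℝ :=
  if m < k then 0 else
    1 / (nn (D + 2 * k) (m - k) * ∏ j ∈ Finset.range k, ((D + 1 + 2 * j) / (D + 2 + 2 * j)))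

/-- `Φ_{m,k}(u,v)` without the factor `((1-u²)(1-v²))^{k/2}` -/
noncomputable def Ph (D u v : ℝ) (m k : ℕ) : ℝ :=
  CC D m k * (G (D + 2 * k) u (m - k) * G (D + 2 * k) v (m - k))

/-- square of the associated function, `E_{m,k}(u)²` -/
noncomputable def EE (D u : ℝ) (m k : ℕ) : ℝ :=
  CC D m k * ((1 - u ^ 2) ^ k * G (D + 2 * k) u (m - k) ^ 2)

/-- the polynomials `Q_k(u,v,t)` of Bachoc and Vallentin -/
noncomputable def Qh (D u v t : ℝ) : ℕ → ℝ
  | 0 => 1
  | 1 => t - u * v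
  | (k + 2) => ((t - u * v) * Qh D u v t (k + 1)
      - cB (D - 1) (k + 1) * ((1 - u ^ 2) * (1 - v ^ 2)) * Qh D u v t k) / cA (D - 1) (k + 1)

/-- the series `∑_m Φ_{m,k}(u,v) G_m(t)` without the factor `((1-u²)(1-v²))^{k/2}`; for `k = 0` it
is the density `W(u,v,t)` of the Gram triple of three uniform points. -/
noncomputable def FF (D u v t : ℝ) (k : ℕ) : ℝ := ∑' m, Ph D u v m k * G D t m

/-- good points: fast decay of `G_m(x)` -/
structure Good (D x : ℝ) : Prop where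
  quarter : x ^ 2 ≤ 1 / 4
  decay : ∃ C : ℝ, ∀ m : ℕ, G D x m ^ 2 ≤ C / ((m : ℝ) + 1) ^ 8
  ratio : ∃ C : ℝ, ∀ m : ℕ, G D x m ^ 2 / nn D m ≤ C * ((m : ℝ) + 1)

end Pool.Agent.Helper92.TP
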