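import Pool.Agent.Helper92.TP.BA1
import Pool.Agent.Helper92.TP.BB3
import Pool.Agent.Helper92.TP.Defs

namespace Pool.Agent.Helper92.TP

open Pool.Agent.Helper92.LP

namespace B4

lemma nn_succ' {E : ℝ} (i : ℕ) : nn E (i + 1) = nn E i * cB E (i + 1) / cA E i := rfl

lemma nn_step {E : ℝ} (hE : 0 < E) (i : ℕ) :
    nn E (i + 1) * ((2 * (i + 1) + E) * (i + E)) = nn E i * ((i + 1) * (2 * i + E)) := by
  rw [nn_succ']
  unfold cA cB
  have h1 : (2 * (i : ℝ) + E) ≠ 0 := by positivity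
  have h2 : ((i : ℝ) + E) ≠ 0 := by positivity
  have h3 : (2 * ((i : ℝ) + 1) + E) ≠ 0 := by positivity
  push_cast
  field_simp

lemma nn_two {E : ℝ} (hE : 0 < E) (i : ℕ) :
    nn E i = nn (E + 2) i * ((2 * i + E + 2) * ((E + i) * (E + i + 1)))
      / ((E + 2) * ((E + 1) * (2 * i + E))) := by
  have h1 : (2 * (i : ℝ) + E) ≠ 0 := by positivity
  have h2 : (E + 1) ≠ 0 := by positivity
  have h3 : (E + 2) ≠ 0 := by positivity
  rw [eq_div_iff (by positivity)]
  induction i with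
  | zero =>
    simp only [nn, Nat.cast_zero]
    ring
  | succ i ih =>
    have s1 := nn_step hE i
    have s2 := nn_step (E := E + 2) (by linarith) i
    have ih' := ih (by positivity)
    have p1 : (2 * ((i : ℝ) + 1) + E) * (i + E) ≠ 0 := by positivity
    have p2 : (2 * ((i : ℝ) + 1) + (E + 2)) * (i + (E + 2)) ≠ 0 := by positivity
    rw [← eq_div_iff p1] at s1
    rw [← eq_div_iff p2] at s2
    rw [s1, s2]
    rw [← eq_div_iff (by positivity)] at ih'
    rw [ih']
    have q1 : (2 * (i : ℝ) + E) ≠ 0 := by positivity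
    have q2 : (2 * (i : ℝ) + (E + 2)) ≠ 0 := by positivity
    have q3 : ((i : ℝ) + E) ≠ 0 := by positivity
    have q4 : (2 * ((i : ℝ) + 1) + E) ≠ 0 := by positivity
    have q5 : (2 * ((i : ℝ) + 1) + (E + 2)) ≠ 0 := by positivity
    have q6 : ((i : ℝ) + (E + 2)) ≠ 0 := by positivity
    push_cast
    field_simp
    ring

lemma nn_add_two {E : ℝ} (hE : 0 < E) (i : ℕ) :
    nn E (i + 2) = nn E i * ((2 * i + E) * ((i + 1) * (i + 2)))
      / ((2 * i + 4 + E) * ((E + i) * (E + i + 1))) := by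
  have s1 := nn_step hE i
  have s2 := nn_step hE (i + 1)
  push_cast at s2
  have p1 : (2 * ((i : ℝ) + 1) + E) * (i + E) ≠ 0 := by positivity
  have p2 : (2 * ((i : ℝ) + 1 + 1) + E) * (i + 1 + E) ≠ 0 := by positivity
  rw [← eq_div_iff p1] at s1
  rw [← eq_div_iff p2] at s2
  have e : nn E (i + 2) = nn E (i + 1 + 1) := rfl
  rw [e, s2, s1]
  have q1 : (2 * ((i : ℝ) + 1) + E) ≠ 0 := by positivity
  have q2 : ((i : ℝ) + E) ≠ 0 := by positivity
  have q3 : (2 * ((i : ℝ) + 1 + 1) + E) ≠ 0 := by positivity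
  have q4 : ((i : ℝ) + 1 + E) ≠ 0 := by positivity
  have q5 : (2 * (i : ℝ) + 4 + E) ≠ 0 := by positivity
  have q6 : (E + (i : ℝ)) ≠ 0 := by positivity
  have q7 : (E + (i : ℝ) + 1) ≠ 0 := by positivity
  field_simp
  ring

/-- the key estimate for one ladder step -/
lemma step {D : ℝ} (hD : 0 < D) (x : ℝ) (hx : x ^ 2 ≤ 1) (i k : ℕ) :
    (1 - x ^ 2) * EE D x (i + k + 1) (k + 1)
      ≤ 2 * (EE D x (i + k) k + 1 / 4 * EE D x (i + k + 2) k) := by
  set E : ℝ := D + 2 * k with hEdef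
  have hE : 0 < E := by positivity
  set P : ℝ := ∏ j ∈ Finset.range k, ((D + 1 + 2 * j) / (D + 2 + 2 * j)) with hP
  have hPpos : 0 < P := by
    rw [hP]; apply Finset.prod_pos; intro j _; positivity
  have c0 : CC D (i + k) k = 1 / (nn E i * P) := by
    unfold CC
    rw [if_neg (by omega), Nat.add_sub_cancel]
  have c2 : CC D (i + k + 2) k = 1 / (nn E (i + 2) * P) := by
    unfold CC
    rw [if_neg (by omega), show i + k + 2 - k = i + 2 by omega]
  have c1 : CC D (i + k + 1) (k + 1) = 1 / (nn (E + 2) i * (P * ((E + 1) / (E + 2)))) := by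
    unfold CC
    rw [if_neg (by omega), show i + k + 1 - (k + 1) = i by omega, Finset.prod_range_succ]
    have e1 : D + 2 * ((k + 1 : ℕ) : ℝ) = E + 2 := by rw [hEdef]; push_cast; ring
    have e2 : D + 1 + 2 * (k : ℝ) = E + 1 := by rw [hEdef]; ring
    have e3 : D + 2 + 2 * (k : ℝ) = E + 2 := by rw [hEdef]; ring
    rw [e1, e2, e3]
  have hL := G_L2 hE x i
  set a := G E x i with ha
  set b := G E x (i + 2) with hb
  set h := nn (E + 2) i with hh
  have hpos : 0 < h := nn_pos (by linarith) i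
  set T : ℝ := (1 - x ^ 2) ^ k with hT
  have hT0 : 0 ≤ T := by rw [hT]; apply pow_nonneg; linarith
  have l0 : EE D x (i + k) k = CC D (i + k) k * (T * a ^ 2) := by
    unfold EE; rw [Nat.add_sub_cancel]
  have l2 : EE D x (i + k + 2) k = CC D (i + k + 2) k * (T * b ^ 2) := by
    unfold EE; rw [show i + k + 2 - k = i + 2 by omega]
  have l1 : (1 - x ^ 2) * EE D x (i + k + 1) (k + 1)
      = CC D (i + k + 1) (k + 1) * (T * ((1 - x ^ 2) * G (E + 2) x i) ^ 2) := by
    unfold EE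
    rw [show i + k + 1 - (k + 1) = i by omega]
    have e1 : D + 2 * ((k + 1 : ℕ) : ℝ) = E + 2 := by rw [hEdef]; push_cast; ring
    rw [e1, hT, pow_succ]
    ring
  rw [l1, hL, l0, l2, c0, c1, c2, nn_add_two hE i, nn_two hE i, ← hh]
  set n : ℝ := (i : ℝ) with hn
  have hn0 : 0 ≤ n := by rw [hn]; positivity
  -- main estimate
  have m1 : 1 / (h * (P * ((E + 1) / (E + 2)))) * (T * ((E + 1) / (2 * (n + 1) + E) * (a - b)) ^ 2)
      = T / (h * P) * ((E + 1) * (E + 2) / (2 * (n + 1) + E) ^ 2) * (a - b) ^ 2 := by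
    field_simp
  have m2 : 1 / (h * ((2 * n + E + 2) * ((E + n) * (E + n + 1))) / ((E + 2) * ((E + 1) * (2 * n + E))) * P)
      * (T * a ^ 2)
      = T / (h * P) * ((E + 1) * (E + 2) * (2 * n + E) / ((2 * n + E + 2) * ((E + n) * (E + n + 1)))) * a ^ 2 := by
    field_simp
  have m3 : 1 / (h * ((2 * n + E + 2) * ((E + n) * (E + n + 1))) / ((E + 2) * ((E + 1) * (2 * n + E)))
        * ((2 * n + E) * ((n + 1) * (n + 2))) / ((2 * n + 4 + E) * ((E + n) * (E + n + 1))) * P)
      * (T * b ^ 2)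
      = T / (h * P) * ((E + 1) * (E + 2) * (2 * n + 4 + E) / ((2 * n + E + 2) * ((n + 1) * (n + 2)))) * b ^ 2 := by
    field_simp
  rw [m1, m2, m3]
  have k1 : (E + 1) * (E + 2) / (2 * (n + 1) + E) ^ 2
      ≤ (E + 1) * (E + 2) * (2 * n + E) / ((2 * n + E + 2) * ((E + n) * (E + n + 1))) := by
    rw [div_le_div_iff₀ (by positivity) (by positivity)]
    have : (2 * n + E + 2) * ((E + n) * (E + n + 1)) ≤ (2 * n + E) * (2 * (n + 1) + E) ^ 2 := by
      have t1 : (E + n) ≤ 2 * n + E := by linarith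
      have t2 : (E + n + 1) ≤ 2 * n + E + 2 := by linarith
      have t3 : (E + n) * (E + n + 1) ≤ (2 * n + E) * (2 * n + E + 2) :=
        mul_le_mul t1 t2 (by positivity) (by positivity)
      have t4 := mul_le_mul_of_nonneg_left t3 (show (0:ℝ) ≤ 2 * n + E + 2 by positivity)
      calc _ ≤ _ := t4
        _ = _ := by ring
    have t5 := mul_le_mul_of_nonneg_left this (show (0:ℝ) ≤ (E + 1) * (E + 2) by positivity)
    calc _ ≤ _ := t5
      _ = _ := by ring
  have k2 : (E + 1) * (E + 2) / (2 * (n + 1) + E) ^ 2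
      ≤ 1 / 4 * ((E + 1) * (E + 2) * (2 * n + 4 + E) / ((2 * n + E + 2) * ((n + 1) * (n + 2)))) := by
    rw [div_mul_div_comm, div_le_div_iff₀ (by positivity) (by positivity)]
    have : 4 * ((2 * n + E + 2) * ((n + 1) * (n + 2))) ≤ (2 * n + 4 + E) * (2 * (n + 1) + E) ^ 2 := by
      have t1 : 2 * (n + 1) ≤ 2 * n + E + 2 := by linarith
      have t2 : 2 * (n + 2) ≤ 2 * n + 4 + E := by linarith
      have t3 : (2 * (n + 1)) * (2 * (n + 2)) ≤ (2 * n + E + 2) * (2 * n + 4 + E) :=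
        mul_le_mul t1 t2 (by positivity) (by positivity)
      have t4 := mul_le_mul_of_nonneg_left t3 (show (0:ℝ) ≤ 2 * n + E + 2 by positivity)
      calc _ = (2 * n + E + 2) * (2 * (n + 1) * (2 * (n + 2))) := by ring
        _ ≤ _ := t4
        _ = _ := by ring
    have t5 := mul_le_mul_of_nonneg_left this (show (0:ℝ) ≤ (E + 1) * (E + 2) by positivity)
    calc _ = _ := by ring
      _ ≤ _ := t5
      _ = _ := by ring
  set K := (E + 1) * (E + 2) / (2 * (n + 1) + E) ^ 2 with hK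
  set A := (E + 1) * (E + 2) * (2 * n + E) / ((2 * n + E + 2) * ((E + n) * (E + n + 1)))
  set B := (E + 1) * (E + 2) * (2 * n + 4 + E) / ((2 * n + E + 2) * ((n + 1) * (n + 2)))
  have hK0 : 0 ≤ K := by rw [hK]; positivity
  have hQ : 0 ≤ T / (h * P) := by positivity
  have hab : (a - b) ^ 2 ≤ 2 * (a ^ 2 + b ^ 2) := by
    have e0 : 2 * (a ^ 2 + b ^ 2) = (a - b) ^ 2 + (a + b) ^ 2 := by ring
    rw [e0]
    exact le_add_of_nonneg_right (sq_nonneg _)
  have f1 : K * (a - b) ^ 2 ≤ 2 * (A * a ^ 2 + 1 / 4 * B * b ^ 2) := by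
    have g1 := mul_le_mul_of_nonneg_left hab hK0
    have g2 := mul_le_mul_of_nonneg_right k1 (sq_nonneg a)
    have g3 := mul_le_mul_of_nonneg_right k2 (sq_nonneg b)
    have e1 : K * (2 * (a ^ 2 + b ^ 2)) = 2 * (K * a ^ 2) + 2 * (K * b ^ 2) := by ring
    have e2 : 2 * (A * a ^ 2 + 1 / 4 * B * b ^ 2) = 2 * (A * a ^ 2) + 2 * (1 / 4 * B * b ^ 2) := by
      ring
    rw [e1] at g1
    rw [e2]
    linarith
  have f2 := mul_le_mul_of_nonneg_left f1 hQ
  calc T / (h * P) * K * (a - b) ^ 2 = T / (h * P) * (K * (a - b) ^ 2) := by ring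
    _ ≤ _ := f2
    _ = _ := by ring

end B4

/-- B4 -/
lemma EE_bound {D : ℝ} (hD : 2 ≤ D) {x : ℝ} (hx : x ^ 2 ≤ 1 / 4) (m k : ℕ) :
    EE D x m k ≤ 8 * ∑ j ∈ Finset.range (m + 2), G D x j ^ 2 / nn D j := by
  have hD0 : 0 < D := by linarith
  have hterm : ∀ j, 0 ≤ G D x j ^ 2 / nn D j := fun j => by
    have := nn_pos hD0 j
    positivity
  have hmono : ∀ a b : ℕ, a ≤ b → ∑ j ∈ Finset.range a, G D x j ^ 2 / nn D j
      ≤ ∑ j ∈ Finset.range b, G D x j ^ 2 / nn D j := by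
    intro a b hab
    apply Finset.sum_le_sum_of_subset_of_nonneg
    · intro j hj
      rw [Finset.mem_range] at hj ⊢
      omega
    · intro j _ _
      exact hterm j
  have hnn : 0 ≤ ∑ j ∈ Finset.range (m + 2), G D x j ^ 2 / nn D j :=
    Finset.sum_nonneg fun j _ => hterm j
  rcases Nat.even_or_odd k with hk | hk
  · have h1 := EE_even hD0 x m k hk
    have h2 := hmono (m + 1) (m + 2) (by omega)
    linarith
  · by_cases hmk : m < k
    · have : EE D x m k = 0 := by
        unfold EE CC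
        rw [if_pos hmk, zero_mul]
      rw [this]
      positivity
    · obtain ⟨r, hr⟩ := hk
      obtain ⟨i, hi⟩ : ∃ i, m = i + 2 * r + 1 := ⟨m - k, by omega⟩
      subst hr
      rw [hi]
      have h1 := B4.step hD0 x (by linarith) i (2 * r)
      have e1 := EE_even hD0 x (i + 2 * r) (2 * r) (even_two_mul r)
      have e2 := EE_even hD0 x (i + 2 * r + 2) (2 * r) (even_two_mul r)
      rw [hi] at hnn
      have q1 := hmono (i + 2 * r + 1) (i + 2 * r + 1 + 2) (by omega)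
      have q2 : ∑ j ∈ Finset.range (i + 2 * r + 2 + 1), G D x j ^ 2 / nn D j
        = ∑ j ∈ Finset.range (i + 2 * r + 1 + 2), G D x j ^ 2 / nn D j := by
          rw [show i + 2 * r + 2 + 1 = i + 2 * r + 1 + 2 by omega]
      rw [q2] at e2
      have hE0 : 0 ≤ EE D x (i + 2 * r + 1) (2 * r + 1) := by
        unfold EE CC
        rw [if_neg (by omega)]
        have : 0 < nn (D + 2 * ((2 * r + 1 : ℕ) : ℝ)) (i + 2 * r + 1 - (2 * r + 1)) :=
          nn_pos (by positivity) _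
        have h2 : (0:ℝ) ≤ 1 - x ^ 2 := by linarith
        positivity
      have p1 : (1 - x ^ 2) * EE D x (i + 2 * r + 1) (2 * r + 1)
          = 3 / 4 * EE D x (i + 2 * r + 1) (2 * r + 1)
            + (1 / 4 - x ^ 2) * EE D x (i + 2 * r + 1) (2 * r + 1) := by ring
      have p2 := mul_nonneg (sub_nonneg.2 hx) hE0
      rw [p1] at h1
      linarith

end Pool.Agent.Helper92.TP
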