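import Pool.Agent.Helper92.TP.Defs

/-!
Block C1: the diagonal bound for the discrete norms.
-/

namespace Pool.Agent.Helper92.TP

open Pool.Agent.Helper92.LP

/-- explicit ratio of the product `PP` and the norms -/
lemma PP_mul_nn {D : ℝ} (hD : 0 < D) {K : ℕ} (hK : 1 ≤ K) (j : ℕ) (hj : K ≤ j) :
    PP D K j * nn D (K - 1) * ((2 * ((K - 1 : ℕ) : ℝ) + D) * K * (j + D))
      = (2 * j + D) * (((K - 1 : ℕ) : ℝ) + D) * (K + D) * nn D j := by
  obtain ⟨K', rfl⟩ : ∃ K', K = K' + 1 := ⟨K - 1, by omega⟩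
  simp only [Nat.add_sub_cancel]
  induction j, hj using Nat.le_induction with
  | base =>
    have h1 : PP D (K' + 1) (K' + 1) = 1 := by unfold PP; simp
    have h2 : nn D (K' + 1) = nn D K' * cB D (K' + 1) / cA D K' := rfl
    have h3 := den_pos hD K'
    have h4 := den_pos hD (K' + 1)
    have h5 : 0 < (K' : ℝ) + D := by positivity
    rw [h1, h2]
    unfold cA cB
    push_cast at h4 ⊢
    field_simp
  | succ j hj ih =>
    have h2 : nn D (j + 1) = nn D j * cB D (j + 1) / cA D j := rfl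
    have h3 := den_pos hD j
    have h4 := den_pos hD (j + 1)
    have h5 : 0 < (j : ℝ) + D := by positivity
    have h6 : 0 < (j : ℝ) + 1 + D := by positivity
    rw [PP_succ hj, h2]
    unfold cA cB
    push_cast at h4 ih ⊢
    have e1 : PP D (K' + 1) j * (((j : ℝ) + 1) / (j + 1 + D)) * nn D K'
        * ((2 * (K' : ℝ) + D) * (K' + 1) * (j + 1 + D))
        = (PP D (K' + 1) j * nn D K' * ((2 * (K' : ℝ) + D) * (K' + 1) * (j + D)))
          * (((j : ℝ) + 1) / (j + D)) := by
      field_simp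
    rw [e1, ih]
    field_simp

/-- C1 -/
lemma NN_diag {D : ℝ} {K : ℕ} (hD : 100 ≤ D) (hK : 2 ≤ K) (hKD : 13 * (K : ℝ) ≤ D)
    {w y : Fin K → ℝ} (hw : ∀ i, 0 ≤ w i) (hy : ∀ i, y i ^ 2 ≤ 1 / 4)
    (h0 : ∀ i, G D (y i) K = 0) (hδ : ∀ i, D / 4 ≤ disc D (y i) K)
    (hN : ∀ j k, j < K → k < K → NN D w y j k = if j = k then nn D j else 0) (j : ℕ) :
    NN D w y j j ≤ (j + D) * nn D j := by
  have hD0 : 0 < D := by linarith
  have hnj := nn_pos hD0 j
  rcases lt_or_ge j K with hj | hj
  · rw [hN j j hj hj, if_pos rfl]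
    have hj0 : (0 : ℝ) ≤ j := Nat.cast_nonneg j
    nlinarith
  · have hK1 : 1 ≤ K := by omega
    have hP := PP_nonneg hD0 K j
    have hKp : (0 : ℝ) < K := by exact_mod_cast (by omega : 0 < K)
    have hjD : (0 : ℝ) < j + D := by positivity
    have hKD' : (0 : ℝ) < K + D := by positivity
    have hpt : ∀ i, w i * (G D (y i) j * G D (y i) j)
        ≤ ((j + D) * (K ^ 2 / (K + D)) / (D / 4)) * PP D K j
          * (w i * (G D (y i) (K - 1) * G D (y i) (K - 1))) := by
      intro i
      have hdi : 0 < disc D (y i) K := lt_of_lt_of_le (by positivity) (hδ i)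
      have hy1 : y i ^ 2 ≤ 1 := (hy i).trans (by norm_num)
      have h1 := G_sq_bound hD0 hy1 hK1 hdi (h0 i) j hj
      have h2 : D / 4 * G D (y i) j ^ 2
          ≤ (j + D) * PP D K j * (K ^ 2 / (K + D)) * G D (y i) (K - 1) ^ 2 :=
        (mul_le_mul_of_nonneg_right (hδ i) (sq_nonneg _)).trans h1
      have h3 : G D (y i) j * G D (y i) j
          ≤ ((j + D) * (K ^ 2 / (K + D)) / (D / 4)) * PP D K j
            * (G D (y i) (K - 1) * G D (y i) (K - 1)) := by
        have : ((j + D) * (K ^ 2 / (K + D)) / (D / 4)) * PP D K j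
            * (G D (y i) (K - 1) * G D (y i) (K - 1))
            = ((j + D) * PP D K j * (K ^ 2 / (K + D)) * G D (y i) (K - 1) ^ 2) / (D / 4) := by ring
        rw [this, le_div_iff₀ (by positivity)]
        nlinarith
      calc w i * (G D (y i) j * G D (y i) j)
          ≤ w i * (((j + D) * (K ^ 2 / (K + D)) / (D / 4)) * PP D K j
            * (G D (y i) (K - 1) * G D (y i) (K - 1))) := mul_le_mul_of_nonneg_left h3 (hw i)
        _ = _ := by ring
    have hsum : NN D w y j j ≤ ((j + D) * (K ^ 2 / (K + D)) / (D / 4)) * PP D K j * nn D (K - 1) := by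
      have e : nn D (K - 1) = NN D w y (K - 1) (K - 1) := by
        rw [hN _ _ (by omega) (by omega), if_pos rfl]
      rw [e]
      unfold NN
      rw [Finset.mul_sum]
      exact Finset.sum_le_sum (fun i _ => hpt i)
    have hR := PP_mul_nn hD0 hK1 j hj
    -- PP * nn (K-1) ≤ 2 (K+D)/K nn j
    have hden : (0 : ℝ) < 2 * ((K - 1 : ℕ) : ℝ) + D := den_pos hD0 _
    have hR2 : PP D K j * nn D (K - 1) * (K * (j + D)) ≤ 2 * (j + D) * (K + D) * nn D j := by
      have hK0 : (0 : ℝ) ≤ ((K - 1 : ℕ) : ℝ) := Nat.cast_nonneg _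
      have hj0 : (0 : ℝ) ≤ j := Nat.cast_nonneg j
      have h1 : (2 * ((K - 1 : ℕ) : ℝ) + D) * (PP D K j * nn D (K - 1) * (K * (j + D)))
          ≤ (2 * ((K - 1 : ℕ) : ℝ) + D) * (2 * (j + D) * (K + D) * nn D j) := by
        calc (2 * ((K - 1 : ℕ) : ℝ) + D) * (PP D K j * nn D (K - 1) * (K * (j + D)))
            = (2 * j + D) * (((K - 1 : ℕ) : ℝ) + D) * (K + D) * nn D j := by rw [← hR]; ring
          _ ≤ (2 * (j + D)) * (2 * ((K - 1 : ℕ) : ℝ) + D) * (K + D) * nn D j := by
            gcongr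
            · linarith
            · linarith
          _ = _ := by ring
      exact le_of_mul_le_mul_left h1 hden
    have hR3 : PP D K j * nn D (K - 1) ≤ 2 * (K + D) / K * nn D j := by
      rw [div_mul_eq_mul_div, le_div_iff₀ hKp]
      have h1 : (j + D) * (PP D K j * nn D (K - 1) * K) ≤ (j + D) * (2 * (K + D) * nn D j) := by
        linarith
      exact le_of_mul_le_mul_left h1 hjD
    calc NN D w y j j ≤ ((j + D) * (K ^ 2 / (K + D)) / (D / 4)) * PP D K j * nn D (K - 1) := hsum
      _ = ((j + D) * (K ^ 2 / (K + D)) / (D / 4)) * (PP D K j * nn D (K - 1)) := by ring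
      _ ≤ ((j + D) * (K ^ 2 / (K + D)) / (D / 4)) * (2 * (K + D) / K * nn D j) := by gcongr
      _ = (8 * K / D) * ((j + D) * nn D j) := by
        field_simp
        ring
      _ ≤ 1 * ((j + D) * nn D j) := by
        gcongr
        rw [div_le_one hD0]
        linarith
      _ = _ := one_mul _

end Pool.Agent.Helper92.TP
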