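import Pool.Agent.Helper92.TP.Defs
import Pool.Agent.Helper92.LP.Wave

/-!
Block D0: Gauss quadrature with nodes in `[-1, 1]` (helper97).
-/

namespace Pool.Agent.Helper92.TP

open Pool.Agent.Helper92.LP

lemma aa_le_half {D : ℝ} (hD : 2 ≤ D) (j : ℕ) : aa D j ≤ 1 / 2 := by
  unfold aa
  rw [Real.sqrt_le_left (by norm_num)]
  unfold cA cB
  have h0 : (0 : ℝ) ≤ j := Nat.cast_nonneg j
  have h1 : (0 : ℝ) < 2 * j + D := by linarith
  have h2 : (0 : ℝ) < 2 * ((j + 1 : ℕ) : ℝ) + D := by push_cast; linarith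
  rw [div_mul_div_comm, div_le_iff₀ (mul_pos h1 h2)]
  push_cast
  nlinarith

/-- D0 -/
lemma gauss_in_interval {D : ℝ} (hD : 2 ≤ D) (M : ℕ) (hM : 1 ≤ M) :
    ∃ w s : Fin M → ℝ, (∀ i, 0 ≤ w i) ∧ (∀ i, s i ^ 2 ≤ 1) ∧ (∀ i, G D (s i) M = 0) ∧
      (∀ j k, j < M → k < M → NN D w s j k = if j = k then nn D j else 0) := by
  have hD0 : 0 < D := by linarith
  obtain ⟨w, s, hw, horth, hz, hb⟩ := exists_gauss hD0 hM
  refine ⟨w, s, hw, ?_, hz, fun j k hj hk => horth j k hj hk⟩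
  intro i
  obtain ⟨k, -, hk⟩ := hb i
  have h1 : (if k + 1 < M then aa D k else 0) ≤ 1 / 2 := by
    split_ifs
    · exact aa_le_half hD k
    · norm_num
  have h2 : (if k = 0 then 0 else aa D (k - 1)) ≤ 1 / 2 := by
    split_ifs
    · norm_num
    · exact aa_le_half hD _
  have h3 : |s i| ≤ 1 := by linarith
  rw [← sq_abs]
  have := abs_nonneg (s i)
  nlinarith

end Pool.Agent.Helper92.TP
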