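import Pool.Agent.Helper92.TP.Defs
import Pool.Agent.Helper92.LP.Wave
import Pool.Agent.Helper92.TP.BA2

/-!
Block D1: the product formula in quadrature form (helper97).
-/

namespace Pool.Agent.Helper92.TP

open Pool.Agent.Helper92.LP

namespace D1

variable {D u v r : ℝ} {M : ℕ} {w s : Fin M → ℝ}

/-- left side -/
noncomputable def A (D u v r : ℝ) (w s : Fin M → ℝ) (m k : ℕ) : ℝ :=
  ∑ b, w b * (G D (u * v + r * s b) m * G (D - 1) (s b) k)

/-- right side -/
noncomputable def B (D u v r : ℝ) (m k : ℕ) : ℝ := nn D m * (r ^ k * Ph D u v m k)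

lemma A_rec (hD : 2 ≤ D) (m k : ℕ) :
    cA D m * A D u v r w s (m + 1) k + cB D m * A D u v r w s (m - 1) k
      = u * v * A D u v r w s m k + r * (cA (D - 1) k * A D u v r w s m (k + 1)
        + cB (D - 1) k * A D u v r w s m (k - 1)) := by
  have hD0 : 0 < D := by linarith
  have hD1 : 0 < D - 1 := by linarith
  unfold A
  simp only [Finset.mul_sum, ← Finset.sum_add_distrib]
  apply Finset.sum_congr rfl
  intro b _
  have h1 := G_mul hD0 (u * v + r * s b) m
  have h2 := G_mul hD1 (s b) k
  linear_combination (-(w b * G (D - 1) (s b) k)) * h1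
    + (w b * G D (u * v + r * s b) m * r) * h2

lemma nn_step (hD : 0 < D) (m : ℕ) : nn D (m + 1) * cA D m = nn D m * cB D (m + 1) := by
  have := cA_pos hD m
  simp only [nn]
  field_simp

lemma B_rec (hD : 2 ≤ D) (hr : r ^ 2 = (1 - u ^ 2) * (1 - v ^ 2)) (m k : ℕ) :
    cA D m * B D u v r (m + 1) k + cB D m * B D u v r (m - 1) k
      = u * v * B D u v r m k + r * (cA (D - 1) k * B D u v r m (k + 1)
        + cB (D - 1) k * B D u v r m (k - 1)) := by
  have hD0 : 0 < D := by linarith
  have hlow : cB (D - 1) k * (r ^ k * Ph D u v m (k - 1))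
      = cB (D - 1) k * (r * (r ^ (k - 1) * Ph D u v m (k - 1))) := by
    rcases k with _ | k
    · simp [cB_zero]
    · simp only [Nat.add_sub_cancel]
      ring
  unfold B
  rcases m with _ | m
  · have h := star_zero hD u v k
    have h2 := nn_step hD0 0
    simp only [Nat.zero_add, cB_zero, zero_mul, add_zero] at *
    rw [← hr] at h
    linear_combination (r ^ k * Ph D u v 1 k) * h2 + (nn D 0 * r ^ k) * h + nn D 0 * hlow
  · have h := star_succ hD u v m k
    have h2 := nn_step hD0 (m + 1)
    have h3 := nn_step hD0 m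
    simp only [Nat.add_sub_cancel] at *
    rw [← hr] at h
    linear_combination (r ^ k * Ph D u v (m + 1 + 1) k) * h2 - (r ^ k * Ph D u v m k) * h3
      + (nn D (m + 1) * r ^ k) * h + nn D (m + 1) * hlow

end D1

open D1 in
/-- D1 -/
lemma product_formula {D : ℝ} (hD : 2 ≤ D) {M : ℕ} (hM : 1 ≤ M) {w s : Fin M → ℝ}
    (h0 : ∀ i, G (D - 1) (s i) M = 0)
    (hN : ∀ j k, j < M → k < M → NN (D - 1) w s j k = if j = k then nn (D - 1) j else 0)
    {u v : ℝ} (hu : u ^ 2 ≤ 1) (hv : v ^ 2 ≤ 1) (m k : ℕ) (hm : m + k < 2 * M) :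
    ∑ b, w b * (G D (u * v + √(1 - u ^ 2) * √(1 - v ^ 2) * s b) m * G (D - 1) (s b) k)
      = nn D m * ((√(1 - u ^ 2) * √(1 - v ^ 2)) ^ k * Ph D u v m k) := by
  have hD0 : 0 < D := by linarith
  have hD1 : 0 < D - 1 := by linarith
  set r := √(1 - u ^ 2) * √(1 - v ^ 2) with hr0
  have hr : r ^ 2 = (1 - u ^ 2) * (1 - v ^ 2) := by
    rw [hr0, mul_pow, Real.sq_sqrt (by linarith), Real.sq_sqrt (by linarith)]
  have main : ∀ m, ∀ k, m + k < 2 * M → A D u v r w s m k = B D u v r m k := by
    intro m
    induction m using Nat.strong_induction_on with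
    | _ m ih =>
      intro k hmk
      rcases m with _ | m
      · have e1 : A D u v r w s 0 k = NN (D - 1) w s 0 k := by
          unfold A NN
          apply Finset.sum_congr rfl
          intro b _
          simp [G]
        have e2 : NN (D - 1) w s 0 k = if 0 = k then 1 else 0 := by
          by_cases hk : k < M
          · rw [hN 0 k (by omega) hk]
            rfl
          · rw [exactness hD1 hM h0 hN k 0 (by omega) (by omega) (by omega), if_neg (by omega)]
        rw [e1, e2]
        unfold B Ph CC
        rcases k with _ | k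
        · simp [G, nn]
        · simp
      · have h1 := A_rec (u := u) (v := v) (r := r) (w := w) (s := s) hD m k
        have h2 := B_rec (u := u) (v := v) (r := r) hD hr m k
        rw [ih m (by omega) k (by omega), ih m (by omega) (k + 1) (by omega),
          ih m (by omega) (k - 1) (by omega)] at h1
        have h3 : cB D m * A D u v r w s (m - 1) k = cB D m * B D u v r (m - 1) k := by
          rcases m with _ | m
          · simp [cB_zero]
          · simp only [Nat.add_sub_cancel]
            rw [ih m (by omega) k (by omega)]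
        have hA := cA_pos hD0 m
        have h4 : cA D m * A D u v r w s (m + 1) k = cA D m * B D u v r (m + 1) k := by
          linarith
        exact mul_left_cancel₀ hA.ne' h4
  exact main m k hm

end Pool.Agent.Helper92.TP
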