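import Pool.Agent.Helper92.TP.Defs

/-!
Block D2 (by helper68): the Gegenbauer polynomials normalised at `1` are bounded by `1` on
`[-1, 1]`.  Direct proof (no quadrature): `A_k = G_k ^ 2 + G_{k+1} ^ 2 - 2 x G_k G_{k+1}` is
nonincreasing in `k` because `G_{k+2} - x G_{k+1} = (cB / cA) (x G_{k+1} - G_k)` and `cB ≤ cA`;
`A_0 = 1 - x ^ 2` and `A_k ≥ (1 - x ^ 2) G_k ^ 2`.
-/

namespace Pool.Agent.Helper92.TP

open Pool.Agent.Helper92.LP

lemma G_rec_D2 {D : ℝ} (hD : 0 < D) (x : ℝ) (k : ℕ) :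
    cA D (k + 1) * G D x (k + 2) = x * G D x (k + 1) - cB D (k + 1) * G D x k := by
  have h := (cA_pos hD (k + 1)).ne'
  rw [G]
  field_simp

lemma cB_le_cA_D2 {D : ℝ} (hD : 0 < D) (k : ℕ) : cB D k ≤ cA D k := by
  unfold cA cB
  apply div_le_div_of_nonneg_right _ (den_pos hD k).le
  linarith

lemma energy_D2 {D : ℝ} (hD : 0 < D) (x : ℝ) (k : ℕ) :
    G D x k ^ 2 + G D x (k + 1) ^ 2 - 2 * x * G D x k * G D x (k + 1) ≤ 1 - x ^ 2 := by
  induction k with
  | zero => simp only [G]; linarith [sq_nonneg x]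
  | succ k ih =>
    refine le_trans ?_ ih
    have ha := cA_pos hD (k + 1)
    have hb := cB_nonneg hD (k + 1)
    have hab := cB_le_cA_D2 hD (k + 1)
    have hs := cA_add_cB hD (k + 1)
    have hr := G_rec_D2 hD x k
    set a := cA D (k + 1)
    set b := cB D (k + 1)
    set g0 := G D x k
    set g1 := G D x (k + 1)
    set g2 := G D x (k + 2)
    have e : a * (g2 - x * g1) = b * (x * g1 - g0) := by
      linear_combination hr - (x * g1) * hs
    have h1 : (g2 - x * g1) ^ 2 ≤ (x * g1 - g0) ^ 2 := by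
      have h2 : a ^ 2 * (g2 - x * g1) ^ 2 ≤ a ^ 2 * (x * g1 - g0) ^ 2 := by
        have h3 : a ^ 2 * (g2 - x * g1) ^ 2 = b ^ 2 * (x * g1 - g0) ^ 2 := by
          rw [← mul_pow, e, mul_pow]
        rw [h3]
        exact mul_le_mul_of_nonneg_right (pow_le_pow_left₀ hb hab 2) (sq_nonneg _)
      exact le_of_mul_le_mul_left h2 (by positivity)
    show g1 ^ 2 + g2 ^ 2 - 2 * x * g1 * g2 ≤ g0 ^ 2 + g1 ^ 2 - 2 * x * g0 * g1
    nlinarith [h1]

lemma G_sq_le_one_D2 {D : ℝ} (hD : 0 < D) {x : ℝ} (hx : x ^ 2 ≤ 1) (m : ℕ) :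
    G D x m ^ 2 ≤ 1 := by
  rcases lt_or_eq_of_le hx with h | h
  · have h1 := energy_D2 hD x m
    have h2 : (1 - x ^ 2) * G D x m ^ 2 ≤ (1 - x ^ 2) * 1 := by
      nlinarith [sq_nonneg (G D x (m + 1) - x * G D x m)]
    exact le_of_mul_le_mul_left h2 (by linarith)
  · induction m with
    | zero => simp [G]
    | succ m ih =>
      have h1 := energy_D2 hD x m
      have h2 : (G D x (m + 1) - x * G D x m) ^ 2 ≤ 0 := by nlinarith [sq_nonneg (G D x m)]
      have h3 : G D x (m + 1) - x * G D x m = 0 := by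
        have := le_antisymm h2 (sq_nonneg _)
        exact pow_eq_zero_iff (two_ne_zero) |>.mp this
      have h4 : G D x (m + 1) = x * G D x m := by linarith
      rw [h4, mul_pow, h, one_mul]
      exact ih

/-- D2 -/
lemma G_abs_le_one {D : ℝ} (hD : 3 ≤ D) {x : ℝ} (hx : x ^ 2 ≤ 1) (m : ℕ) : |G D x m| ≤ 1 := by
  have h := G_sq_le_one_D2 (D := D) (by linarith) hx m
  exact abs_le_one_iff_mul_self_le_one.mpr (by rw [← sq]; exact h)

end Pool.Agent.Helper92.TP
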