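import Pool.Agent.Helper92.TP.BD0
import Pool.Agent.Helper92.TP.BD2

/-!
Block D3: a positive approximate identity (helper97).
`q_M = K_M ^ 2 / K_M(1)` with `K_M = ∑_{j ≤ M} G_j / h_j`.
-/

namespace Pool.Agent.Helper92.TP

open Pool.Agent.Helper92.LP Filter Topology

namespace D3

variable {D : ℝ}

/-- combinations of `G_0, …, G_n` -/
def V (D : ℝ) (n : ℕ) (f : ℝ → ℝ) : Prop :=
  ∃ c : ℕ → ℝ, ∀ u, f u = ∑ j ∈ Finset.range (n + 1), c j * G D u j

lemma V_mono {n m : ℕ} (h : n ≤ m) {f : ℝ → ℝ} (hf : V D n f) : V D m f := by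
  obtain ⟨c, hc⟩ := hf
  refine ⟨fun j => if j ≤ n then c j else 0, fun u => ?_⟩
  rw [hc u]
  rw [← Finset.sum_subset (s₁ := Finset.range (n + 1)) (s₂ := Finset.range (m + 1))]
  · apply Finset.sum_congr rfl
    intro j hj
    rw [Finset.mem_range] at hj
    show c j * G D u j = (if j ≤ n then c j else 0) * G D u j
    rw [if_pos (by omega)]
  · intro j hj
    rw [Finset.mem_range] at hj ⊢
    omega
  · intro j _ hj
    rw [Finset.mem_range] at hj
    show (if j ≤ n then c j else 0) * G D u j = 0
    rw [if_neg (by omega), zero_mul]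

lemma V_add {n : ℕ} {f g : ℝ → ℝ} (hf : V D n f) (hg : V D n g) : V D n (fun u => f u + g u) := by
  obtain ⟨c, hc⟩ := hf
  obtain ⟨d, hd⟩ := hg
  refine ⟨fun j => c j + d j, fun u => ?_⟩
  show f u + g u = _
  rw [hc u, hd u, ← Finset.sum_add_distrib]
  apply Finset.sum_congr rfl
  intro j _
  ring

lemma V_smul {n : ℕ} {f : ℝ → ℝ} (a : ℝ) (hf : V D n f) : V D n (fun u => a * f u) := by
  obtain ⟨c, hc⟩ := hf
  refine ⟨fun j => a * c j, fun u => ?_⟩
  show a * f u = _
  rw [hc u, Finset.mul_sum]
  apply Finset.sum_congr rfl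
  intro j _
  ring

lemma V_zero (n : ℕ) : V D n (fun _ => 0) := ⟨fun _ => 0, fun u => by simp⟩

lemma V_sum {n : ℕ} {ι : Type*} (s : Finset ι) (f : ι → ℝ → ℝ) (hf : ∀ i ∈ s, V D n (f i)) :
    V D n (fun u => ∑ i ∈ s, f i u) := by
  classical
  induction s using Finset.induction_on with
  | empty => simpa using V_zero n
  | insert a s ha ih =>
    have h1 := V_add (hf a (Finset.mem_insert_self a s))
      (ih (fun i hi => hf i (Finset.mem_insert_of_mem hi)))
    simpa [Finset.sum_insert ha] using h1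

lemma V_G {j n : ℕ} (h : j ≤ n) : V D n (fun u => G D u j) := by
  refine ⟨fun i => if i = j then 1 else 0, fun u => ?_⟩
  rw [Finset.sum_eq_single j]
  · simp
  · intro b _ hb
    simp [hb]
  · intro hj
    exact absurd (Finset.mem_range.2 (by omega)) hj

lemma V_congr {n : ℕ} {f g : ℝ → ℝ} (h : ∀ u, f u = g u) (hf : V D n f) : V D n g := by
  obtain ⟨c, hc⟩ := hf
  exact ⟨c, fun u => by rw [← h u, hc u]⟩

lemma V_mulx (hD : 0 < D) {n : ℕ} {f : ℝ → ℝ} (hf : V D n f) :
    V D (n + 1) (fun u => u * f u) := by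
  obtain ⟨c, hc⟩ := hf
  have h1 : V D (n + 1) (fun u => ∑ j ∈ Finset.range (n + 1),
      (c j * cA D j * G D u (j + 1) + c j * cB D j * G D u (j - 1))) := by
    apply V_sum
    intro j hj
    rw [Finset.mem_range] at hj
    exact V_add (V_smul _ (V_G (by omega))) (V_smul _ (V_G (by omega)))
  refine V_congr (fun u => ?_) h1
  rw [hc u, Finset.mul_sum]
  apply Finset.sum_congr rfl
  intro j _
  have := G_mul hD u j
  linear_combination (-(c j)) * this

lemma V_mulG (hD : 0 < D) {n : ℕ} {f : ℝ → ℝ} (hf : V D n f) (i : ℕ) :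
    V D (n + i) (fun u => G D u i * f u) ∧ V D (n + i + 1) (fun u => G D u (i + 1) * f u) := by
  induction i with
  | zero =>
    refine ⟨V_congr (fun u => by simp [G]) hf, V_congr (fun u => by simp [G]) (V_mulx hD hf)⟩
  | succ i ih =>
    refine ⟨V_mono (by omega) ih.2, ?_⟩
    have hA := cA_pos hD (i + 1)
    have h1 := V_mulx hD ih.2
    have h2 : V D (n + i + 1 + 1) (fun u => (-(cB D (i + 1))) * (G D u i * f u)) :=
      V_mono (by omega) (V_smul _ ih.1)
    have h3 := V_smul (1 / cA D (i + 1)) (V_add h1 h2)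
    refine V_mono (by omega) (V_congr (fun u => ?_) h3)
    have := G_rec hD u i
    field_simp
    linear_combination (-(f u)) * this

/-- the kernel -/
noncomputable def KK (D : ℝ) (M : ℕ) (u : ℝ) : ℝ := ∑ j ∈ Finset.range (M + 1), G D u j / nn D j

/-- its value at `1` -/
noncomputable def kap (D : ℝ) (M : ℕ) : ℝ := ∑ j ∈ Finset.range (M + 1), 1 / nn D j

lemma kap_pos (hD : 0 < D) (M : ℕ) : 0 < kap D M := by
  unfold kap
  apply Finset.sum_pos
  · intro j _
    have := nn_pos hD j
    positivity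
  · exact ⟨0, Finset.mem_range.2 (by omega)⟩

lemma V_KK (hD : 0 < D) (M : ℕ) {n : ℕ} {f : ℝ → ℝ} (hf : V D n f) :
    V D (n + M) (fun u => KK D M u * f u) := by
  have h1 : V D (n + M) (fun u => ∑ j ∈ Finset.range (M + 1), (1 / nn D j) * (G D u j * f u)) := by
    apply V_sum
    intro j hj
    rw [Finset.mem_range] at hj
    exact V_smul _ (V_mono (by omega) (V_mulG hD hf j).1)
  refine V_congr (fun u => ?_) h1
  unfold KK
  rw [Finset.sum_mul]
  apply Finset.sum_congr rfl
  intro j _
  ring

lemma V_KK2 (hD : 0 < D) (M : ℕ) : V D (2 * M) (fun u => KK D M u ^ 2) := by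
  have h0 : V D 0 (fun _ => (1 : ℝ)) := V_congr (fun u => by simp [G]) (V_G (D := D) (le_refl 0))
  have h1 := V_KK hD M (V_KK hD M h0)
  refine V_mono (by omega) (V_congr (fun u => ?_) h1)
  ring

/-- discrete orthogonality against the kernel -/
lemma KK_orth {ι : Type*} [Fintype ι] (hD : 0 < D) {w y : ι → ℝ} {K M : ℕ} (hMK : M < K)
    (hN : ∀ j k, j < K → k < K → NN D w y j k = if j = k then nn D j else 0) {p : ℕ}
    (hp : p < K) : ∑ a, w a * (KK D M (y a) * G D (y a) p) = if p ≤ M then 1 else 0 := by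
  have e : ∀ a, w a * (KK D M (y a) * G D (y a) p)
      = ∑ j ∈ Finset.range (M + 1), (1 / nn D j) * (w a * (G D (y a) j * G D (y a) p)) := by
    intro a
    unfold KK
    rw [Finset.sum_mul, Finset.mul_sum]
    apply Finset.sum_congr rfl
    intro j _
    ring
  rw [Finset.sum_congr rfl (fun a _ => e a), Finset.sum_comm]
  have e2 : ∀ j ∈ Finset.range (M + 1), ∑ a, (1 / nn D j) * (w a * (G D (y a) j * G D (y a) p))
      = if j = p then 1 else 0 := by
    intro j hj
    rw [Finset.mem_range] at hj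
    rw [← Finset.mul_sum]
    have h1 := hN j p (by omega) hp
    unfold NN at h1
    rw [h1]
    have := nn_pos hD j
    split_ifs
    · field_simp
    · simp
  rw [Finset.sum_congr rfl e2, Finset.sum_ite_eq' (Finset.range (M + 1)) p]
  simp only [Finset.mem_range, Nat.lt_succ_iff]

lemma KK_mass {ι : Type*} [Fintype ι] (hD : 0 < D) {w y : ι → ℝ} {K M : ℕ} (hMK : M < K)
    (hN : ∀ j k, j < K → k < K → NN D w y j k = if j = k then nn D j else 0) :
    ∑ a, w a * KK D M (y a) ^ 2 = kap D M := by
  have e : ∀ a, w a * KK D M (y a) ^ 2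
      = ∑ j ∈ Finset.range (M + 1), (1 / nn D j) * (w a * (KK D M (y a) * G D (y a) j)) := by
    intro a
    have : KK D M (y a) ^ 2 = KK D M (y a) * ∑ j ∈ Finset.range (M + 1), G D (y a) j / nn D j := by
      rw [sq]; rfl
    rw [this, Finset.mul_sum, Finset.mul_sum]
    apply Finset.sum_congr rfl
    intro j _
    ring
  rw [Finset.sum_congr rfl (fun a _ => e a), Finset.sum_comm]
  unfold kap
  apply Finset.sum_congr rfl
  intro j hj
  rw [Finset.mem_range] at hj
  rw [← Finset.mul_sum, KK_orth hD hMK hN (by omega), if_pos (by omega), mul_one]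

lemma KK_first {ι : Type*} [Fintype ι] (hD : 0 < D) {w y : ι → ℝ} {K M : ℕ} (hMK : M + 1 < K)
    (hN : ∀ j k, j < K → k < K → NN D w y j k = if j = k then nn D j else 0) :
    ∑ a, w a * (KK D M (y a) ^ 2 * y a) = kap D M - cA D M / nn D M := by
  have e : ∀ a, w a * (KK D M (y a) ^ 2 * y a)
      = ∑ j ∈ Finset.range (M + 1), (1 / nn D j) * (cA D j * (w a * (KK D M (y a) * G D (y a) (j + 1)))
        + cB D j * (w a * (KK D M (y a) * G D (y a) (j - 1)))) := by
    intro a
    have : KK D M (y a) ^ 2 = KK D M (y a) * ∑ j ∈ Finset.range (M + 1), G D (y a) j / nn D j := by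
      rw [sq]; rfl
    rw [this, Finset.mul_sum, Finset.sum_mul, Finset.mul_sum]
    apply Finset.sum_congr rfl
    intro j _
    have h := G_mul hD (y a) j
    linear_combination (w a * KK D M (y a) / nn D j) * h
  rw [Finset.sum_congr rfl (fun a _ => e a), Finset.sum_comm]
  have e2 : ∀ j ∈ Finset.range (M + 1), ∑ a, (1 / nn D j) * (cA D j * (w a * (KK D M (y a) * G D (y a) (j + 1)))
        + cB D j * (w a * (KK D M (y a) * G D (y a) (j - 1))))
      = 1 / nn D j - if j = M then cA D M / nn D M else 0 := by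
    intro j hj
    rw [Finset.mem_range] at hj
    rw [← Finset.mul_sum, Finset.sum_add_distrib, ← Finset.mul_sum, ← Finset.mul_sum,
      KK_orth hD (by omega) hN (by omega), KK_orth hD (by omega) hN (by omega),
      if_pos (show j - 1 ≤ M by omega)]
    have h := cA_add_cB hD j
    have hn := nn_pos hD j
    by_cases hjM : j = M
    · rw [if_neg (by omega), if_pos hjM, ← hjM]
      field_simp
      linarith
    · rw [if_pos (by omega), if_neg hjM, mul_one, mul_one, h, mul_one, sub_zero]
  rw [Finset.sum_congr rfl e2, Finset.sum_sub_distrib, Finset.sum_ite_eq' (Finset.range (M + 1)) M,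
    if_pos (Finset.mem_range.2 (by omega))]
  rfl

lemma nn_kap (hD : 1 ≤ D) (M : ℕ) : ((M : ℝ) + 1) / (1 + D) ≤ nn D M * kap D M := by
  have hD0 : 0 < D := by linarith
  induction M with
  | zero =>
    simp only [kap, nn, CharP.cast_eq_zero, zero_add, Finset.range_one, Finset.sum_singleton]
    rw [div_le_iff₀ (by linarith)]
    linarith
  | succ M ih =>
    have hn := nn_pos hD0 M
    have hn1 := nn_pos hD0 (M + 1)
    have hA := cA_pos hD0 M
    have e1 : kap D (M + 1) = kap D M + 1 / nn D (M + 1) := by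
      unfold kap
      rw [Finset.sum_range_succ]
    have e2 : nn D (M + 1) = nn D M * (cB D (M + 1) / cA D M) := by
      simp only [nn]
      ring
    have e3 : nn D (M + 1) * kap D (M + 1) = (cB D (M + 1) / cA D M) * (nn D M * kap D M) + 1 := by
      rw [e1, mul_add, mul_one_div_cancel hn1.ne', e2]
      ring
    rw [e3]
    have hr0 : 0 ≤ cB D (M + 1) / cA D M := div_nonneg (cB_nonneg hD0 _) hA.le
    have hr : 1 - D / ((M : ℝ) + 1) ≤ cB D (M + 1) / cA D M := by
      unfold cA cB
      have hM : (0 : ℝ) ≤ M := Nat.cast_nonneg M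
      have h1 : (0 : ℝ) < 2 * ((M + 1 : ℕ) : ℝ) + D := by push_cast; linarith
      have h2 : (0 : ℝ) < 2 * (M : ℝ) + D := by linarith
      have h3 : (0 : ℝ) < (M : ℝ) + D := by linarith
      have h4 : (0 : ℝ) < (M : ℝ) + 1 := by linarith
      rw [div_div_div_eq, sub_le_iff_le_add, ← sub_le_iff_le_add']
      have e4 : 1 - ((M + 1 : ℕ) : ℝ) * (2 * (M : ℝ) + D) / ((2 * ((M + 1 : ℕ) : ℝ) + D) * ((M : ℝ) + D))
          = D * (2 * M + 1 + D) / ((2 * ((M + 1 : ℕ) : ℝ) + D) * ((M : ℝ) + D)) := by
        rw [eq_div_iff (mul_pos h1 h3).ne', sub_mul, div_mul_cancel₀ _ (mul_pos h1 h3).ne']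
        push_cast
        ring
      rw [e4, div_le_div_iff₀ (mul_pos h1 h3) h4]
      push_cast
      have h5 : (2 * (M : ℝ) + 1 + D) * ((M : ℝ) + 1) ≤ (2 * ((M : ℝ) + 1) + D) * ((M : ℝ) + D) := by
        nlinarith
      nlinarith
    calc (((M + 1 : ℕ) : ℝ) + 1) / (1 + D)
        = (1 - D / ((M : ℝ) + 1)) * (((M : ℝ) + 1) / (1 + D)) + 1 := by
          have h4 : (0 : ℝ) < (M : ℝ) + 1 := by positivity
          have h5 : (0 : ℝ) < 1 + D := by linarith
          push_cast
          field_simp
          ring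
      _ ≤ (cB D (M + 1) / cA D M) * (((M : ℝ) + 1) / (1 + D)) + 1 := by
          have h5 : (0 : ℝ) < 1 + D := by linarith
          have : 0 ≤ ((M : ℝ) + 1) / (1 + D) := by positivity
          nlinarith
      _ ≤ (cB D (M + 1) / cA D M) * (nn D M * kap D M) + 1 := by
          have := mul_le_mul_of_nonneg_left ih hr0
          linarith

lemma one_sub_G (hD : 3 ≤ D) (m : ℕ) :
    ∃ C : ℝ, 0 ≤ C ∧ ∀ x : ℝ, x ^ 2 ≤ 1 → |1 - G D x m| ≤ C * (1 - x) := by
  have hD0 : 0 < D := by linarith
  have key : ∀ m, (∃ C : ℝ, 0 ≤ C ∧ ∀ x : ℝ, x ^ 2 ≤ 1 → |1 - G D x m| ≤ C * (1 - x)) ∧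
      (∃ C : ℝ, 0 ≤ C ∧ ∀ x : ℝ, x ^ 2 ≤ 1 → |1 - G D x (m + 1)| ≤ C * (1 - x)) := by
    intro m
    induction m with
    | zero =>
      refine ⟨⟨0, le_rfl, fun x _ => by simp [G]⟩, ⟨1, zero_le_one, fun x hx => ?_⟩⟩
      have : x ≤ 1 := by nlinarith
      simp only [G, one_mul]
      rw [abs_of_nonneg (by linarith)]
    | succ m ih =>
      refine ⟨ih.2, ?_⟩
      obtain ⟨C0, hC0, h0⟩ := ih.1
      obtain ⟨C1, hC1, h1⟩ := ih.2
      have hA := cA_pos hD0 (m + 1)
      refine ⟨(1 + C1 + C0) / cA D (m + 1), by positivity, fun x hx => ?_⟩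
      have hx1 : x ≤ 1 := by nlinarith
      have hx2 : |x| ≤ 1 := by
        rw [abs_le]
        constructor <;> nlinarith
      have hrec := G_rec hD0 x m
      have hs := cA_add_cB hD0 (m + 1)
      have hB0 := cB_nonneg hD0 (m + 1)
      have hB1 := cB_le_half hD0 (m + 1)
      have e : cA D (m + 1) * (1 - G D x (m + 2))
          = (1 - x) + x * (1 - G D x (m + 1)) - cB D (m + 1) * (1 - G D x m) := by
        linear_combination (-1 : ℝ) * hrec + hs
      have e2 : |1 - G D x (m + 2)| * cA D (m + 1) ≤ (1 + C1 + C0) * (1 - x) := by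
        have e' : |1 - G D x (m + 2)| * cA D (m + 1) = |cA D (m + 1) * (1 - G D x (m + 2))| := by
          rw [abs_mul, abs_of_pos hA, mul_comm]
        rw [e', e]
        have t1 := h0 x hx
        have t2 := h1 x hx
        have t3 : |x * (1 - G D x (m + 1))| ≤ C1 * (1 - x) := by
          rw [abs_mul]
          calc |x| * |1 - G D x (m + 1)| ≤ 1 * |1 - G D x (m + 1)| :=
                mul_le_mul_of_nonneg_right hx2 (abs_nonneg _)
            _ ≤ _ := by rw [one_mul]; exact t2
        have t4 : |cB D (m + 1) * (1 - G D x m)| ≤ C0 * (1 - x) := by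
          rw [abs_mul, abs_of_nonneg hB0]
          calc cB D (m + 1) * |1 - G D x m| ≤ 1 * |1 - G D x m| :=
                mul_le_mul_of_nonneg_right (by linarith) (abs_nonneg _)
            _ ≤ _ := by rw [one_mul]; exact t1
        rw [abs_le] at t3 t4 ⊢
        constructor <;> nlinarith [t3.1, t3.2, t4.1, t4.2]
      rw [div_mul_eq_mul_div, le_div_iff₀ hA]
      exact e2
  exact (key m).1

end D3

open D3 in
/-- D3 -/
lemma approx_identity {D : ℝ} (hD : 3 ≤ D) : ∃ γ : ℕ → ℕ → ℝ, (∀ M m, |γ M m| ≤ 1) ∧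
    (∀ m, Tendsto (fun M => γ M m) atTop (𝓝 1)) ∧
    ∀ M, ∀ x : ℝ, x ^ 2 ≤ 1 →
      0 ≤ ∑ m ∈ Finset.range (2 * M + 1), γ M m * (G D x m / nn D m) := by
  have hD0 : 0 < D := by linarith
  choose w y hw hy hz hN using fun M : ℕ =>
    gauss_in_interval (D := D) (by linarith) (4 * M + 4) (by omega)
  set γ : ℕ → ℕ → ℝ := fun M m =>
    ∑ a, w M a * (KK D M (y M a) ^ 2 / kap D M * G D (y M a) m) with hγ
  have hq : ∀ M a, 0 ≤ w M a * (KK D M (y M a) ^ 2 / kap D M) := fun M a =>
    mul_nonneg (hw M a) (div_nonneg (sq_nonneg _) (kap_pos hD0 M).le)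
  have hmass : ∀ M, ∑ a, w M a * (KK D M (y M a) ^ 2 / kap D M) = 1 := by
    intro M
    have h := KK_mass hD0 (M := M) (K := 4 * M + 4) (by omega) (hN M)
    have hk := kap_pos hD0 M
    calc ∑ a, w M a * (KK D M (y M a) ^ 2 / kap D M)
        = (∑ a, w M a * KK D M (y M a) ^ 2) / kap D M := by
          rw [Finset.sum_div]
          apply Finset.sum_congr rfl
          intro a _
          ring
      _ = 1 := by rw [h, div_self hk.ne']
  have hfirst : ∀ M, ∑ a, w M a * (KK D M (y M a) ^ 2 / kap D M) * (1 - y M a)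
      = cA D M / (nn D M * kap D M) := by
    intro M
    have h := KK_first hD0 (M := M) (K := 4 * M + 4) (by omega) (hN M)
    have h2 := hmass M
    have hk := kap_pos hD0 M
    have hn := nn_pos hD0 M
    have e : ∀ a, w M a * (KK D M (y M a) ^ 2 / kap D M) * (1 - y M a)
        = w M a * (KK D M (y M a) ^ 2 / kap D M) - (w M a * (KK D M (y M a) ^ 2 * y M a)) / kap D M := by
      intro a; ring
    rw [Finset.sum_congr rfl (fun a _ => e a), Finset.sum_sub_distrib, h2, ← Finset.sum_div, h]
    field_simp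
    ring
  refine ⟨γ, ?_, ?_, ?_⟩
  · intro M m
    calc |γ M m| ≤ ∑ a, |w M a * (KK D M (y M a) ^ 2 / kap D M * G D (y M a) m)| :=
          Finset.abs_sum_le_sum_abs _ _
      _ ≤ ∑ a, w M a * (KK D M (y M a) ^ 2 / kap D M) := by
          apply Finset.sum_le_sum
          intro a _
          rw [← mul_assoc, abs_mul, abs_of_nonneg (hq M a)]
          have := G_abs_le_one hD (hy M a) m
          calc _ ≤ w M a * (KK D M (y M a) ^ 2 / kap D M) * 1 :=
                mul_le_mul_of_nonneg_left this (hq M a)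
            _ = _ := mul_one _
      _ = 1 := hmass M
  · intro m
    obtain ⟨C, hC, hb⟩ := one_sub_G hD m
    have hbound : ∀ M, |γ M m - 1| ≤ C * ((1 + D) / ((M : ℝ) + 1)) := by
      intro M
      have e : γ M m - 1 = - ∑ a, w M a * (KK D M (y M a) ^ 2 / kap D M) * (1 - G D (y M a) m) := by
        calc γ M m - 1 = γ M m - ∑ a, w M a * (KK D M (y M a) ^ 2 / kap D M) := by rw [hmass M]
          _ = _ := by
            simp only [hγ]
            rw [← Finset.sum_sub_distrib, ← Finset.sum_neg_distrib]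
            apply Finset.sum_congr rfl
            intro a _
            ring
      rw [e, abs_neg]
      calc |∑ a, w M a * (KK D M (y M a) ^ 2 / kap D M) * (1 - G D (y M a) m)|
          ≤ ∑ a, |w M a * (KK D M (y M a) ^ 2 / kap D M) * (1 - G D (y M a) m)| :=
            Finset.abs_sum_le_sum_abs _ _
        _ ≤ ∑ a, C * (w M a * (KK D M (y M a) ^ 2 / kap D M) * (1 - y M a)) := by
            apply Finset.sum_le_sum
            intro a _
            rw [abs_mul, abs_of_nonneg (hq M a)]
            have := mul_le_mul_of_nonneg_left (hb _ (hy M a)) (hq M a)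
            linarith
        _ = C * (cA D M / (nn D M * kap D M)) := by
            rw [← Finset.mul_sum, hfirst M]
        _ ≤ C * ((1 + D) / ((M : ℝ) + 1)) := by
            apply mul_le_mul_of_nonneg_left _ hC
            have h1 := nn_kap (D := D) (by linarith) M
            have h2 := cA_le_one hD0 M
            have h3 : (0 : ℝ) < (M : ℝ) + 1 := by positivity
            have h4 : (0 : ℝ) < 1 + D := by linarith
            have h5 : 0 < ((M : ℝ) + 1) / (1 + D) := by positivity
            have h6 := cA_pos hD0 M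
            calc cA D M / (nn D M * kap D M) ≤ 1 / (((M : ℝ) + 1) / (1 + D)) :=
                  div_le_div₀ zero_le_one h2 h5 h1
              _ = _ := by rw [one_div_div]
    rw [tendsto_iff_norm_sub_tendsto_zero]
    refine squeeze_zero (fun M => norm_nonneg _) (fun M => ?_)
      (g := fun M : ℕ => C * ((1 + D) / ((M : ℝ) + 1))) ?_
    · rw [Real.norm_eq_abs]; exact hbound M
    · have h1 : Tendsto (fun M : ℕ => (1 + D) / ((M : ℝ) + 1)) atTop (𝓝 0) := by
        have := tendsto_const_div_atTop_nhds_zero_nat (1 + D)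
        have h2 := this.comp (tendsto_add_atTop_nat 1)
        refine h2.congr (fun M => ?_)
        simp [Function.comp]
      simpa using h1.const_mul C
  · intro M x hx
    have hk := kap_pos hD0 M
    obtain ⟨c, hc⟩ := V_KK2 hD0 M
    have hcm : ∀ m ∈ Finset.range (2 * M + 1), γ M m * (G D x m / nn D m)
        = (c m / kap D M) * G D x m := by
      intro m hm
      rw [Finset.mem_range] at hm
      have hn := nn_pos hD0 m
      have e : γ M m = c m / kap D M * nn D m := by
        simp only [hγ]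
        have e1 : ∀ a, w M a * (KK D M (y M a) ^ 2 / kap D M * G D (y M a) m)
            = ∑ j ∈ Finset.range (2 * M + 1), (c j / kap D M)
              * (w M a * (G D (y M a) j * G D (y M a) m)) := by
          intro a
          have h1 : KK D M (y M a) ^ 2 = ∑ j ∈ Finset.range (2 * M + 1), c j * G D (y M a) j :=
            hc (y M a)
          rw [h1, Finset.sum_div, Finset.sum_mul, Finset.mul_sum]
          apply Finset.sum_congr rfl
          intro j _
          ring
        rw [Finset.sum_congr rfl (fun a _ => e1 a), Finset.sum_comm]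
        have e2 : ∀ j ∈ Finset.range (2 * M + 1),
            ∑ a, (c j / kap D M) * (w M a * (G D (y M a) j * G D (y M a) m))
            = if j = m then c m / kap D M * nn D m else 0 := by
          intro j hj
          rw [Finset.mem_range] at hj
          have h1 := hN M j m (by omega) (by omega)
          unfold NN at h1
          rw [← Finset.mul_sum, h1]
          by_cases hjm : j = m
          · rw [if_pos hjm, if_pos hjm, hjm]
          · rw [if_neg hjm, if_neg hjm, mul_zero]
        rw [Finset.sum_congr rfl e2, Finset.sum_ite_eq' (Finset.range (2 * M + 1)) m,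
          if_pos (Finset.mem_range.2 hm)]
      rw [e]
      field_simp
    rw [Finset.sum_congr rfl hcm]
    have h1 : ∑ m ∈ Finset.range (2 * M + 1), (c m / kap D M) * G D x m
        = KK D M x ^ 2 / kap D M := by
      have h2 : KK D M x ^ 2 = ∑ j ∈ Finset.range (2 * M + 1), c j * G D x j := hc x
      rw [h2, Finset.sum_div]
      apply Finset.sum_congr rfl
      intro j _
      ring
    rw [h1]
    exact div_nonneg (sq_nonneg _) hk.le

end Pool.Agent.Helper92.TP
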