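import Pool.Agent.Helper92.TP.D4core
import Pool.Agent.Helper92.TP.BD0
import Pool.Agent.Helper92.TP.BD1
import Pool.Agent.Helper92.TP.BD3

/-!
Block D4: positivity of the density.
-/

namespace Pool.Agent.Helper92.TP

open Pool.Agent.Helper92.LP Filter Topology

lemma FF_nonneg {D u v t : ℝ} (hD : 4 ≤ D) (hu : Good D u) (hv : Good D v) (ht : Good D t) :
    0 ≤ FF D u v t 0 := by
  have hD0 : 0 < D := by linarith
  have hq : ∀ {x : ℝ}, Good D x → x ^ 2 ≤ 1 := fun h => h.quarter.trans (by norm_num)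
  obtain ⟨γ, hγ1, hγ2, hγ3⟩ := approx_identity (D := D) (by linarith)
  refine D4.limit_core hD0 hu hv ht γ hγ1 hγ2 (fun M => ?_)
  obtain ⟨w, s, hw, hs, h0, hN⟩ := gauss_in_interval (D := D - 1) (by linarith) (M + 1) (by omega)
  refine D4.pos_core hw hs ?_ (hq hu) (hq hv) (hq ht) (2 * M + 1) (by omega) (γ M)
    (fun x hx => hγ3 M x hx)
  intro a b ha hb m hm
  have h := product_formula (D := D) (by linarith) (M := M + 1) (by omega) h0 hN ha hb m 0
    (by omega)
  have hnn := nn_pos hD0 m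
  rw [D4.Ph_zero, pow_zero, one_mul, mul_div_cancel₀ _ hnn.ne'] at h
  rw [← h]
  apply Finset.sum_congr rfl
  intro c _
  simp [G]

end Pool.Agent.Helper92.TP
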