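import Pool.Agent.Helper92.TP.BB4

namespace Pool.Agent.Helper92.TP

open Pool.Agent.Helper92.LP

private lemma CC_nonneg_aux {D : ℝ} (hD : 2 ≤ D) (m k : ℕ) : 0 ≤ CC D m k := by
  unfold CC
  split_ifs with h
  · exact le_refl _
  · have h1 : 0 < nn (D + 2 * k) (m - k) := nn_pos (by positivity) _
    have h2 : 0 < ∏ j ∈ Finset.range k, ((D + 1 + 2 * (j : ℝ)) / (D + 2 + 2 * j)) :=
      Finset.prod_pos fun j _ => by positivity
    positivity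

private lemma EE_nonneg_aux {D : ℝ} (hD : 2 ≤ D) {x : ℝ} (hx : x ^ 2 ≤ 1 / 4) (m k : ℕ) :
    0 ≤ EE D x m k := by
  unfold EE
  have h1 := CC_nonneg_aux hD m k
  have h2 : (0 : ℝ) ≤ 1 - x ^ 2 := by linarith
  positivity

private lemma EE_poly_aux {D x : ℝ} (hD : 2 ≤ D) (hx : Good D x) (k : ℕ) :
    ∃ C : ℝ, 0 ≤ C ∧ ∀ m : ℕ, EE D x m k ≤ C * ((m : ℝ) + 1) ^ 2 := by
  obtain ⟨C, hC⟩ := hx.ratio
  have hC0 : 0 ≤ C := by
    have h := hC 0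
    have h1 : 0 ≤ G D x 0 ^ 2 / nn D 0 := by
      have := nn_pos (show 0 < D by linarith) 0
      positivity
    have h2 : C * (((0 : ℕ) : ℝ) + 1) = C := by simp
    linarith
  refine ⟨32 * C, by positivity, fun m => ?_⟩
  have h1 := EE_bound hD hx.quarter m k
  have h2 : ∑ j ∈ Finset.range (m + 2), G D x j ^ 2 / nn D j
      ≤ ∑ _j ∈ Finset.range (m + 2), C * ((m : ℝ) + 2) := by
    refine Finset.sum_le_sum fun j hj => (hC j).trans ?_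
    have hj' : j + 1 ≤ m + 2 := Finset.mem_range.1 hj
    have hj'' : (j : ℝ) + 1 ≤ (m : ℝ) + 2 := by exact_mod_cast hj'
    exact mul_le_mul_of_nonneg_left hj'' hC0
  rw [Finset.sum_const, Finset.card_range, nsmul_eq_mul] at h2
  push_cast at h2
  have hm : (0 : ℝ) ≤ m := Nat.cast_nonneg m
  have h3 : ((m : ℝ) + 2) * (C * ((m : ℝ) + 2)) ≤ 4 * (C * ((m : ℝ) + 1) ^ 2) := by
    have : ((m : ℝ) + 2) ^ 2 ≤ 4 * ((m : ℝ) + 1) ^ 2 := by nlinarith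
    nlinarith [mul_le_mul_of_nonneg_left this hC0]
  nlinarith

/-- E1 -/
lemma Ph_bound {D u v : ℝ} (hD : 2 ≤ D) (hu : Good D u) (hv : Good D v) (k : ℕ) :
    ∃ C : ℝ, ∀ m : ℕ, |Ph D u v m k| ≤ C * ((m : ℝ) + 1) ^ 2 := by
  obtain ⟨Cu, hCu0, hCu⟩ := EE_poly_aux hD hu k
  obtain ⟨Cv, hCv0, hCv⟩ := EE_poly_aux hD hv k
  refine ⟨(4 / 3) ^ k * (Cu + Cv), fun m => ?_⟩
  have hm : (0 : ℝ) < (m : ℝ) + 1 := by positivity
  have hEu0 := EE_nonneg_aux hD hu.quarter m k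
  have hEv0 := EE_nonneg_aux hD hv.quarter m k
  have hprod : EE D u m k * EE D v m k
      ≤ ((Cu + Cv) * ((m : ℝ) + 1) ^ 2) ^ 2 := by
    have h1 : EE D u m k ≤ (Cu + Cv) * ((m : ℝ) + 1) ^ 2 :=
      (hCu m).trans (mul_le_mul_of_nonneg_right (by linarith) (by positivity))
    have h2 : EE D v m k ≤ (Cu + Cv) * ((m : ℝ) + 1) ^ 2 :=
      (hCv m).trans (mul_le_mul_of_nonneg_right (by linarith) (by positivity))
    calc EE D u m k * EE D v m k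
        ≤ ((Cu + Cv) * ((m : ℝ) + 1) ^ 2) * ((Cu + Cv) * ((m : ℝ) + 1) ^ 2) :=
          mul_le_mul h1 h2 hEv0 (hEu0.trans h1)
      _ = ((Cu + Cv) * ((m : ℝ) + 1) ^ 2) ^ 2 := by ring
  have hident : EE D u m k * EE D v m k
      = Ph D u v m k ^ 2 * ((1 - u ^ 2) * (1 - v ^ 2)) ^ k := by
    unfold EE Ph
    rw [mul_pow (1 - u ^ 2) (1 - v ^ 2) k]
    ring
  have hlow : ((3 / 4 : ℝ) ^ k) ^ 2 ≤ ((1 - u ^ 2) * (1 - v ^ 2)) ^ k := by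
    rw [← pow_mul, mul_comm k 2, pow_mul]
    refine pow_le_pow_left₀ (by norm_num) ?_ k
    have h1 : (3 / 4 : ℝ) ≤ 1 - u ^ 2 := by linarith [hu.quarter]
    have h2 : (3 / 4 : ℝ) ≤ 1 - v ^ 2 := by linarith [hv.quarter]
    nlinarith
  have hsq : (|Ph D u v m k| * (3 / 4) ^ k) ^ 2 ≤ ((Cu + Cv) * ((m : ℝ) + 1) ^ 2) ^ 2 := by
    rw [mul_pow, sq_abs]
    calc Ph D u v m k ^ 2 * ((3 / 4) ^ k) ^ 2
        ≤ Ph D u v m k ^ 2 * ((1 - u ^ 2) * (1 - v ^ 2)) ^ k :=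
          mul_le_mul_of_nonneg_left hlow (sq_nonneg _)
      _ ≤ _ := by rw [← hident]; exact hprod
  have h4 : |Ph D u v m k| * (3 / 4) ^ k ≤ (Cu + Cv) * ((m : ℝ) + 1) ^ 2 :=
    (sq_le_sq₀ (by positivity) (by positivity)).1 hsq
  have h5 : ((4 / 3 : ℝ) ^ k) * (3 / 4) ^ k = 1 := by
    rw [← mul_pow]; norm_num
  calc |Ph D u v m k| = (4 / 3) ^ k * (|Ph D u v m k| * (3 / 4) ^ k) := by
        rw [mul_comm (|Ph D u v m k|), ← mul_assoc, h5, one_mul]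
    _ ≤ (4 / 3) ^ k * ((Cu + Cv) * ((m : ℝ) + 1) ^ 2) :=
        mul_le_mul_of_nonneg_left h4 (by positivity)
    _ = (4 / 3) ^ k * (Cu + Cv) * ((m : ℝ) + 1) ^ 2 := by ring

end Pool.Agent.Helper92.TP
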