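import Pool.Agent.Helper92.TP.Form
import Pool.Agent.Helper92.TP.Dual
import Pool.Agent.Helper92.TP.BD4

namespace Pool.Agent.Helper92.TP

open Pool.Agent.Helper92.LP

lemma Qh_swap (D u v t : ℝ) : ∀ k, Qh D v u t k = Qh D u v t k := by
  intro k
  have : ∀ k, Qh D v u t k = Qh D u v t k ∧ Qh D v u t (k + 1) = Qh D u v t (k + 1) := by
    intro k
    induction k with
    | zero => exact ⟨rfl, by simp only [Qh]; ring⟩
    | succ k ih =>
      refine ⟨ih.2, ?_⟩
      simp only [Qh]
      rw [ih.1, ih.2]
      ring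
  exact (this k).1

lemma Qh_diag {D : ℝ} (hD : 2 ≤ D) (u : ℝ) (k : ℕ) : Qh D u u 1 k = (1 - u ^ 2) ^ k := by
  have : ∀ k, Qh D u u 1 k = (1 - u ^ 2) ^ k ∧ Qh D u u 1 (k + 1) = (1 - u ^ 2) ^ (k + 1) := by
    intro k
    induction k with
    | zero => exact ⟨rfl, by simp only [Qh]; ring⟩
    | succ k ih =>
      refine ⟨ih.2, ?_⟩
      have hA := cA_pos (D := D - 1) (by linarith) (k + 1)
      have hAB := cA_add_cB (D := D - 1) (by linarith) (k + 1)
      simp only [Qh]
      rw [ih.1, ih.2, div_eq_iff hA.ne']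
      have hB : cB (D - 1) (k + 1) = 1 - cA (D - 1) (k + 1) := by linarith
      rw [hB]
      ring
  exact (this k).1

lemma Qh_end (D u : ℝ) (k : ℕ) : Qh D u 1 u k = if k = 0 then 1 else 0 := by
  have : ∀ k, Qh D u 1 u (k + 1) = 0 ∧ Qh D u 1 u (k + 2) = 0 := by
    intro k
    induction k with
    | zero =>
      refine ⟨by simp [Qh], by simp [Qh]⟩
    | succ k ih =>
      refine ⟨ih.2, ?_⟩
      have e : Qh D u 1 u (k + 1 + 2) = ((u - u * 1) * Qh D u 1 u (k + 1 + 1)
        - cB (D - 1) (k + 1 + 1) * ((1 - u ^ 2) * (1 - 1 ^ 2)) * Qh D u 1 u (k + 1))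
          / cA (D - 1) (k + 1 + 1) := rfl
      rw [e]
      simp
  rcases k with _ | k
  · simp [Qh]
  · rw [if_neg (by omega)]; exact (this k).1

lemma trace_aux {N : ℕ} {F : Matrix (Fin N) (Fin N) ℝ} (hF : F.PosSemidef)
    (M : Fin N → Fin N → ℝ) (hs : ∀ a b, M a b = M b a)
    (hM : ∀ q : Fin N → ℝ, 0 ≤ ∑ a, ∑ b, q a * q b * M a b) :
    0 ≤ ∑ a, ∑ b, F a b * M a b := by
  have h1 : (Matrix.of M).PosSemidef := by
    refine Matrix.PosSemidef.of_dotProduct_mulVec_nonneg ?_ (fun q => ?_)
    · ext a b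
      simp [Matrix.conjTranspose_apply, hs a b]
    · have := hM q
      refine this.trans (le_of_eq ?_)
      simp only [dotProduct, Matrix.mulVec, Matrix.of_apply, Pi.star_apply, star_trivial,
        Finset.mul_sum]
      apply Finset.sum_congr rfl
      intro a _
      apply Finset.sum_congr rfl
      intro b _
      ring
  have h2 := hF.hadamard h1
  have h3 := h2.dotProduct_mulVec_nonneg (fun _ => 1)
  refine h3.trans (le_of_eq ?_)
  simp [dotProduct, Matrix.mulVec, Matrix.hadamard_apply]

lemma FF_zero_swap12 (D u v t : ℝ) : FF D v u t 0 = FF D u v t 0 := by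
  unfold FF Ph
  apply tsum_congr
  intro m
  ring

lemma FF_zero_swap23 (D u v t : ℝ) : FF D u t v 0 = FF D u v t 0 := by
  unfold FF Ph
  apply tsum_congr
  intro m
  simp only [Nat.cast_zero, mul_zero, add_zero, Nat.sub_zero]
  ring

variable {D : ℝ} {ι : Type*} [Fintype ι] {w x : ι → ℝ}

/-- entry of the moment matrix of order `k` -/
noncomputable def MM (D : ℝ) (w x : ι → ℝ) (X : ℝ) (k a b : ℕ) : ℝ :=
  Qh D 1 1 1 k
    + X * ∑ i, w i * (x i ^ a * x i ^ b * Qh D (x i) (x i) 1 k + x i ^ a * Qh D (x i) 1 (x i) k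
      + x i ^ b * Qh D 1 (x i) (x i) k)
    + X ^ 2 * ∑ i, ∑ j, ∑ l, w i * w j * w l * (x i ^ a * x j ^ b * Qh D (x i) (x j) (x l) k
      * FF D (x i) (x j) (x l) 0)

lemma MM_symm (X : ℝ) (k a b : ℕ) : MM D w x X k a b = MM D w x X k b a := by
  unfold MM
  congr 1
  · congr 2
    apply Finset.sum_congr rfl
    intro i _
    rw [Qh_swap D (x i) 1 (x i)]
    ring
  · congr 1
    rw [Finset.sum_comm]
    apply Finset.sum_congr rfl
    intro i _
    apply Finset.sum_congr rfl
    intro j _
    apply Finset.sum_congr rfl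
    intro l _
    rw [Qh_swap D (x i) (x j), FF_zero_swap12 D (x i) (x j)]
    ring

lemma MM_psd (hD : 2 ≤ D) (hw : ∀ i, 0 ≤ w i) (hg : ∀ i, Good D (x i))
    (h00 : ∑ i, w i = 1)
    (hdiag : ∀ j : ℕ, NN D w x j j ≤ (j + D) * nn D j) {ε X : ℝ} (hε : 0 ≤ ε) (hX : 0 ≤ X)
    (hXε : X * ε ≤ 1)
    (hmom : ∀ k : ℕ, 1 ≤ k → |NN D w x 0 k| * ((8 * ((k : ℝ) + 2) * (k + 1 + D)) * ((k + 1) * (k + 2)))
        ≤ ε) {N : ℕ} (k : ℕ) (q : Fin N → ℝ) :
    0 ≤ ∑ a : Fin N, ∑ b : Fin N, q a * q b * MM D w x X k a b := by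
  set p : ι → ℝ := fun i => ∑ a : Fin N, q a * x i ^ (a : ℕ) with hp
  set p1 : ℝ := ∑ a : Fin N, q a with hp1
  have hmain := main_form hD hw hg h00 hdiag hε hmom p k
  have e0 : ∑ a : Fin N, ∑ b : Fin N, q a * q b * MM D w x X k a b
      = p1 ^ 2 * Qh D 1 1 1 k
        + X * ∑ i, w i * (p i ^ 2 * Qh D (x i) (x i) 1 k + p i * p1 * Qh D (x i) 1 (x i) k
          + p i * p1 * Qh D 1 (x i) (x i) k)
        + X ^ 2 * ∑ i, ∑ j, ∑ l, w i * w j * w l * (p i * p j * Qh D (x i) (x j) (x l) k
          * FF D (x i) (x j) (x l) 0) := by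
    unfold MM
    simp only [mul_add, Finset.sum_add_distrib]
    congr 1
    · congr 1
      · rw [sq, hp1, Finset.sum_mul_sum, Finset.sum_mul]
        apply Finset.sum_congr rfl
        intro a _
        rw [Finset.sum_mul]
      · have s1 : ∀ i, p i ^ 2 = ∑ a : Fin N, ∑ b : Fin N, q a * q b * (x i ^ (a : ℕ) * x i ^ (b : ℕ)) := by
          intro i
          rw [sq, hp]
          simp only
          rw [Finset.sum_mul_sum]
          apply Finset.sum_congr rfl
          intro a _
          apply Finset.sum_congr rfl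
          intro b _
          ring
        have s2 : ∀ i, p i * p1 = ∑ a : Fin N, ∑ b : Fin N, q a * q b * x i ^ (a : ℕ) := by
          intro i
          rw [hp, hp1]
          simp only
          rw [Finset.sum_mul_sum]
          apply Finset.sum_congr rfl
          intro a _
          apply Finset.sum_congr rfl
          intro b _
          ring
        have s3 : ∀ i, p i * p1 = ∑ a : Fin N, ∑ b : Fin N, q a * q b * x i ^ (b : ℕ) := by
          intro i
          rw [mul_comm, hp, hp1]
          simp only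
          rw [Finset.sum_mul_sum]
          apply Finset.sum_congr rfl
          intro a _
          apply Finset.sum_congr rfl
          intro b _
          ring
        have t1 : ∑ i, w i * (p i ^ 2 * Qh D (x i) (x i) 1 k)
            = ∑ a : Fin N, ∑ b : Fin N, q a * q b * ∑ i, w i * (x i ^ (a : ℕ) * x i ^ (b : ℕ) * Qh D (x i) (x i) 1 k) := by
          simp only [s1, Finset.mul_sum, Finset.sum_mul]
          rw [Finset.sum_comm]
          apply Finset.sum_congr rfl
          intro a _
          rw [Finset.sum_comm]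
          apply Finset.sum_congr rfl
          intro b _
          apply Finset.sum_congr rfl
          intro i _
          ring
        have t2 : ∑ i, w i * (p i * p1 * Qh D (x i) 1 (x i) k)
            = ∑ a : Fin N, ∑ b : Fin N, q a * q b * ∑ i, w i * (x i ^ (a : ℕ) * Qh D (x i) 1 (x i) k) := by
          simp only [s2, Finset.mul_sum, Finset.sum_mul]
          rw [Finset.sum_comm]
          apply Finset.sum_congr rfl
          intro a _
          rw [Finset.sum_comm]
          apply Finset.sum_congr rfl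
          intro b _
          apply Finset.sum_congr rfl
          intro i _
          ring
        have t3 : ∑ i, w i * (p i * p1 * Qh D 1 (x i) (x i) k)
            = ∑ a : Fin N, ∑ b : Fin N, q a * q b * ∑ i, w i * (x i ^ (b : ℕ) * Qh D 1 (x i) (x i) k) := by
          simp only [s3, Finset.mul_sum, Finset.sum_mul]
          rw [Finset.sum_comm]
          apply Finset.sum_congr rfl
          intro a _
          rw [Finset.sum_comm]
          apply Finset.sum_congr rfl
          intro b _
          apply Finset.sum_congr rfl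
          intro i _
          ring
        rw [t1, t2, t3]
        simp only [Finset.mul_sum, ← Finset.sum_add_distrib]
        apply Finset.sum_congr rfl
        intro a _
        apply Finset.sum_congr rfl
        intro b _
        apply Finset.sum_congr rfl
        intro i _
        ring
    · have s1 : ∀ i j, p i * p j = ∑ a : Fin N, ∑ b : Fin N, q a * q b * (x i ^ (a : ℕ) * x j ^ (b : ℕ)) := by
        intro i j
        rw [hp]
        simp only
        rw [Finset.sum_mul_sum]
        apply Finset.sum_congr rfl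
        intro a _
        apply Finset.sum_congr rfl
        intro b _
        ring
      simp only [s1, Finset.mul_sum, Finset.sum_mul]
      -- move the sums over `a`, `b` outside
      have c1 : ∀ (f : ι → ι → ι → Fin N → Fin N → ℝ),
          ∑ a : Fin N, ∑ b : Fin N, ∑ i, ∑ j, ∑ l, f i j l a b
            = ∑ i, ∑ j, ∑ l, ∑ a : Fin N, ∑ b : Fin N, f i j l a b := by
        intro f
        calc ∑ a : Fin N, ∑ b : Fin N, ∑ i, ∑ j, ∑ l, f i j l a b
            = ∑ a : Fin N, ∑ i, ∑ b : Fin N, ∑ j, ∑ l, f i j l a b := by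
              apply Finset.sum_congr rfl; intro a _; rw [Finset.sum_comm]
          _ = ∑ i, ∑ a : Fin N, ∑ b : Fin N, ∑ j, ∑ l, f i j l a b := by rw [Finset.sum_comm]
          _ = ∑ i, ∑ a : Fin N, ∑ j, ∑ b : Fin N, ∑ l, f i j l a b := by
              apply Finset.sum_congr rfl; intro i _
              apply Finset.sum_congr rfl; intro a _; rw [Finset.sum_comm]
          _ = ∑ i, ∑ j, ∑ a : Fin N, ∑ b : Fin N, ∑ l, f i j l a b := by
              apply Finset.sum_congr rfl; intro i _; rw [Finset.sum_comm]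
          _ = ∑ i, ∑ j, ∑ a : Fin N, ∑ l, ∑ b : Fin N, f i j l a b := by
              apply Finset.sum_congr rfl; intro i _
              apply Finset.sum_congr rfl; intro j _
              apply Finset.sum_congr rfl; intro a _; rw [Finset.sum_comm]
          _ = _ := by
              apply Finset.sum_congr rfl; intro i _
              apply Finset.sum_congr rfl; intro j _; rw [Finset.sum_comm]
      rw [c1]
      apply Finset.sum_congr rfl; intro i _
      apply Finset.sum_congr rfl; intro j _
      apply Finset.sum_congr rfl; intro l _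
      apply Finset.sum_congr rfl; intro a _
      apply Finset.sum_congr rfl; intro b _
      ring
  rw [e0]
  have hQ1 : Qh D 1 1 1 k = if k = 0 then 1 else 0 := Qh_end D 1 k
  have hQ2 : ∀ i, Qh D (x i) 1 (x i) k = if k = 0 then 1 else 0 := fun i => Qh_end D (x i) k
  have hQ3 : ∀ i, Qh D 1 (x i) (x i) k = if k = 0 then 1 else 0 := fun i => by
    rw [Qh_swap D (x i) 1 (x i)]; exact Qh_end D (x i) k
  have hQ4 : ∀ i, Qh D (x i) (x i) 1 k = (1 - x i ^ 2) ^ k := fun i => Qh_diag hD (x i) k
  simp only [hQ1, hQ2, hQ3, hQ4]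
  set A := ∑ i, w i * (p i ^ 2 * (1 - x i ^ 2) ^ k) with hA
  have hA0 : 0 ≤ A := Finset.sum_nonneg fun i _ =>
    mul_nonneg (hw i) (mul_nonneg (sq_nonneg _) (pow_nonneg (by
      have := (hg i).quarter
      linarith) _))
  set T := ∑ i, ∑ j, ∑ l, w i * w j * w l * (p i * p j * Qh D (x i) (x j) (x l) k
          * FF D (x i) (x j) (x l) 0) with hT
  have hXA : X ^ 2 * (ε * A) ≤ X * A := by
    have h1 : X * (X * ε) * A ≤ X * 1 * A :=
      mul_le_mul_of_nonneg_right (mul_le_mul_of_nonneg_left hXε hX) hA0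
    calc X ^ 2 * (ε * A) = X * (X * ε) * A := by ring
      _ ≤ X * 1 * A := h1
      _ = X * A := by ring
  by_cases hk : k = 0
  · simp only [hk, if_true, pow_zero, mul_one] at hmain ⊢
    have hA' : A = ∑ i, w i * p i ^ 2 := by
      rw [hA]
      apply Finset.sum_congr rfl
      intro i _
      rw [hk, pow_zero, mul_one]
    set P := ∑ i, w i * p i with hP
    have e1 : ∑ i, w i * (p i ^ 2 + p i * p1 + p i * p1) = A + 2 * p1 * P := by
      rw [hA', hP, Finset.mul_sum, ← Finset.sum_add_distrib]
      apply Finset.sum_congr rfl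
      intro i _
      ring
    rw [e1]
    have h2 := mul_le_mul_of_nonneg_left hmain (sq_nonneg X)
    nlinarith [sq_nonneg (p1 + X * P)]
  · simp only [if_neg hk, mul_zero, add_zero, zero_add, zero_sub] at hmain ⊢
    have h2 := mul_le_mul_of_nonneg_left hmain (sq_nonneg X)
    have : X * ∑ i, w i * (p i ^ 2 * (1 - x i ^ 2) ^ k) = X * A := rfl
    rw [this]
    nlinarith

end Pool.Agent.Helper92.TP
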