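import Pool.Agent.Helper92.TP.Defs

/-!
Block D4, core part (no dependence on the blocks D0, D1, D3).
-/

namespace Pool.Agent.Helper92.TP

open Pool.Agent.Helper92.LP Filter Topology

namespace D4

lemma Ph_zero (D u v : ℝ) (m : ℕ) : Ph D u v m 0 = G D u m * G D v m / nn D m := by
  unfold Ph CC
  simp
  ring

/-- the double product formula -/
lemma pos_core {D : ℝ} {M' : ℕ} {w s : Fin M' → ℝ} (hw : ∀ i, 0 ≤ w i) (hs : ∀ i, s i ^ 2 ≤ 1)
    (hpf : ∀ u v : ℝ, u ^ 2 ≤ 1 → v ^ 2 ≤ 1 → ∀ m : ℕ, m < 2 * M' →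
      ∑ b, w b * G D (u * v + √(1 - u ^ 2) * √(1 - v ^ 2) * s b) m = G D u m * G D v m)
    {u v t : ℝ} (hu : u ^ 2 ≤ 1) (hv : v ^ 2 ≤ 1) (ht : t ^ 2 ≤ 1) (N : ℕ) (hN : N ≤ 2 * M')
    (g : ℕ → ℝ) (hg : ∀ x : ℝ, x ^ 2 ≤ 1 → 0 ≤ ∑ m ∈ Finset.range N, g m * (G D x m / nn D m)) :
    0 ≤ ∑ m ∈ Finset.range N, g m * (G D u m * G D v m / nn D m * G D t m) := by
  have key : ∀ x y : ℝ, x ^ 2 ≤ 1 → y ^ 2 ≤ 1 → ∀ b,
      (x * y + √(1 - x ^ 2) * √(1 - y ^ 2) * s b) ^ 2 ≤ 1 := by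
    intro x y hx hy b
    have h1 : √(1 - x ^ 2) ^ 2 = 1 - x ^ 2 := Real.sq_sqrt (by linarith)
    have h2 : √(1 - y ^ 2) ^ 2 = 1 - y ^ 2 := Real.sq_sqrt (by linarith)
    have h3 := hs b
    set p := √(1 - x ^ 2)
    set q := √(1 - y ^ 2)
    have h4 : (x * y + p * q * s b) ^ 2 ≤ (x ^ 2 + p ^ 2) * (y ^ 2 + q ^ 2 * s b ^ 2) := by
      nlinarith [sq_nonneg (x * (q * s b) - p * y)]
    have h5 : y ^ 2 + q ^ 2 * s b ^ 2 ≤ 1 := by
      have : q ^ 2 * s b ^ 2 ≤ q ^ 2 * 1 := mul_le_mul_of_nonneg_left h3 (sq_nonneg q)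
      linarith
    have h6 : x ^ 2 + p ^ 2 = 1 := by linarith
    rw [h6, one_mul] at h4
    linarith
  have h1 : ∀ m ∈ Finset.range N, g m * (G D u m * G D v m / nn D m * G D t m)
      = ∑ b, w b * ∑ b', w b' * (g m * (G D ((u * v + √(1 - u ^ 2) * √(1 - v ^ 2) * s b) * t
        + √(1 - (u * v + √(1 - u ^ 2) * √(1 - v ^ 2) * s b) ^ 2) * √(1 - t ^ 2) * s b') m
        / nn D m)) := by
    intro m hm
    have hm' : m < 2 * M' := lt_of_lt_of_le (Finset.mem_range.1 hm) hN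
    have e1 := hpf u v hu hv m hm'
    have e2 : ∀ b, ∑ b', w b' * (g m * (G D ((u * v + √(1 - u ^ 2) * √(1 - v ^ 2) * s b) * t
        + √(1 - (u * v + √(1 - u ^ 2) * √(1 - v ^ 2) * s b) ^ 2) * √(1 - t ^ 2) * s b') m
        / nn D m)) = g m / nn D m * (G D (u * v + √(1 - u ^ 2) * √(1 - v ^ 2) * s b) m * G D t m) := by
      intro b
      rw [← hpf _ t (key u v hu hv b) ht m hm', Finset.mul_sum]
      refine Finset.sum_congr rfl fun b' _ => ?_
      ring
    rw [Finset.sum_congr rfl fun b _ => by rw [e2 b]]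
    have e3 : ∀ b, w b * (g m / nn D m * (G D (u * v + √(1 - u ^ 2) * √(1 - v ^ 2) * s b) m * G D t m))
        = g m / nn D m * G D t m * (w b * G D (u * v + √(1 - u ^ 2) * √(1 - v ^ 2) * s b) m) := by
      intro b; ring
    rw [Finset.sum_congr rfl fun b _ => e3 b, ← Finset.mul_sum, e1]
    ring
  rw [Finset.sum_congr rfl h1, Finset.sum_comm]
  refine Finset.sum_nonneg fun b _ => ?_
  rw [← Finset.mul_sum, Finset.sum_comm]
  refine mul_nonneg (hw b) (Finset.sum_nonneg fun b' _ => ?_)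
  rw [← Finset.mul_sum]
  exact mul_nonneg (hw b') (hg _ (key _ _ (key u v hu hv b) ht b'))

lemma term_bound {D u v t : ℝ} (hD : 0 < D) (hu : Good D u) (hv : Good D v) (ht : Good D t) :
    ∃ C : ℝ, 0 ≤ C ∧ ∀ m : ℕ, |G D u m * G D v m / nn D m * G D t m| ≤ C * (1 / ((m : ℝ) + 1) ^ 3) := by
  obtain ⟨A, hA⟩ := hu.ratio
  obtain ⟨B, hB⟩ := hv.ratio
  obtain ⟨E, hE⟩ := ht.decay
  have hA0 : 0 ≤ A := by
    have := hA 0
    have h0 : 0 ≤ G D u 0 ^ 2 / nn D 0 := div_nonneg (sq_nonneg _) (nn_pos hD 0).le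
    simp only [Nat.cast_zero, zero_add, mul_one] at this
    linarith
  have hB0 : 0 ≤ B := by
    have := hB 0
    have h0 : 0 ≤ G D v 0 ^ 2 / nn D 0 := div_nonneg (sq_nonneg _) (nn_pos hD 0).le
    simp only [Nat.cast_zero, zero_add, mul_one] at this
    linarith
  have hE0 : 0 ≤ E := by
    have := hE 0
    simp only [Nat.cast_zero, zero_add, one_pow, div_one] at this
    have h0 := sq_nonneg (G D t 0)
    linarith
  refine ⟨(A + B) / 2 * √E, by positivity, fun m => ?_⟩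
  have hn := nn_pos hD m
  have hm : (0 : ℝ) < (m : ℝ) + 1 := by positivity
  have h1 : |G D u m * G D v m / nn D m| ≤ (A + B) / 2 * ((m : ℝ) + 1) := by
    have e1 := hA m
    have e2 := hB m
    rw [abs_div, abs_of_pos hn, div_le_iff₀ hn]
    rw [div_le_iff₀ hn] at e1 e2
    have : |G D u m * G D v m| ≤ (G D u m ^ 2 + G D v m ^ 2) / 2 := by
      rw [abs_le]
      constructor <;> nlinarith [sq_nonneg (G D u m + G D v m), sq_nonneg (G D u m - G D v m)]
    nlinarith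
  have h2 : |G D t m| ≤ √E / ((m : ℝ) + 1) ^ 4 := by
    have e1 := hE m
    apply abs_le_of_sq_le_sq
    · rw [div_pow, Real.sq_sqrt hE0, ← pow_mul]
      exact e1
    · positivity
  rw [abs_mul]
  calc |G D u m * G D v m / nn D m| * |G D t m|
      ≤ ((A + B) / 2 * ((m : ℝ) + 1)) * (√E / ((m : ℝ) + 1) ^ 4) :=
        mul_le_mul h1 h2 (abs_nonneg _) (by positivity)
    _ = (A + B) / 2 * √E * (1 / ((m : ℝ) + 1) ^ 3) := by
        field_simp

lemma summable_cube : Summable fun m : ℕ => 1 / ((m : ℝ) + 1) ^ 3 := by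
  have h := (Real.summable_one_div_nat_pow (p := 3)).2 (by norm_num)
  have h2 := (summable_nat_add_iff 1).2 h
  simpa using h2

lemma limit_core {D u v t : ℝ} (hD : 0 < D) (hu : Good D u) (hv : Good D v) (ht : Good D t)
    (γ : ℕ → ℕ → ℝ) (hγ1 : ∀ M m, |γ M m| ≤ 1) (hγ2 : ∀ m, Tendsto (fun M => γ M m) atTop (𝓝 1))
    (hpos : ∀ M, 0 ≤ ∑ m ∈ Finset.range (2 * M + 1),
      γ M m * (G D u m * G D v m / nn D m * G D t m)) : 0 ≤ FF D u v t 0 := by
  obtain ⟨C, hC0, hC⟩ := term_bound hD hu hv ht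
  have hFF : FF D u v t 0 = ∑' m, G D u m * G D v m / nn D m * G D t m := by
    unfold FF
    exact tsum_congr fun m => by rw [Ph_zero]
  rw [hFF]
  set a : ℕ → ℝ := fun m => G D u m * G D v m / nn D m * G D t m with ha
  have hlim : Tendsto (fun M : ℕ => ∑' m, (if m < 2 * M + 1 then γ M m * a m else 0)) atTop
      (𝓝 (∑' m, a m)) := by
    refine tendsto_tsum_of_dominated_convergence (bound := fun m => C * (1 / ((m : ℝ) + 1) ^ 3))
      (summable_cube.mul_left C) ?_ ?_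
    · intro m
      have h1 : Tendsto (fun M => γ M m * a m) atTop (𝓝 (1 * a m)) := (hγ2 m).mul_const _
      rw [one_mul] at h1
      refine h1.congr' ?_
      filter_upwards [eventually_ge_atTop m] with M hM
      rw [if_pos (by omega)]
    · refine Eventually.of_forall fun M m => ?_
      split_ifs with h
      · rw [Real.norm_eq_abs, abs_mul]
        calc |γ M m| * |a m| ≤ 1 * |a m| := mul_le_mul_of_nonneg_right (hγ1 M m) (abs_nonneg _)
          _ = |a m| := one_mul _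
          _ ≤ _ := hC m
      · rw [norm_zero]
        positivity
  refine ge_of_tendsto' hlim fun M => ?_
  rw [tsum_eq_sum (s := Finset.range (2 * M + 1)) (fun m hm => by
    rw [Finset.mem_range] at hm
    rw [if_neg hm])]
  rw [Finset.sum_congr rfl fun m hm => by rw [if_pos (Finset.mem_range.1 hm)]]
  exact hpos M

end D4

end Pool.Agent.Helper92.TP
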