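import Pool.Agent.Helper92.TP.BA2
import Pool.Agent.Helper92.TP.BA3
import Pool.Agent.Helper92.TP.BB4
import Pool.Agent.Helper92.TP.BE1

namespace Pool.Agent.Helper92.TP

open Pool.Agent.Helper92.LP Filter Topology

lemma Qh_FF {D u v t : ℝ} (hD : 2 ≤ D)
    (hP : ∀ k, ∃ C : ℝ, ∀ m : ℕ, |Ph D u v m k| ≤ C * ((m : ℝ) + 1) ^ 2)
    (hG : ∃ C : ℝ, ∀ m : ℕ, |G D t m| ≤ C / ((m : ℝ) + 1) ^ 4) (k : ℕ) :
    Qh D u v t k * FF D u v t 0 = ((1 - u ^ 2) * (1 - v ^ 2)) ^ k * FF D u v t k :=
  Qh_FF_of hD (star_zero hD u v) (star_succ hD u v) hP hG k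

lemma hasSum_tele : HasSum (fun m : ℕ => 1 / (((m : ℝ) + 1) * (m + 2))) 1 := by
  rw [hasSum_iff_tendsto_nat_of_nonneg (fun m => by positivity)]
  have e : ∀ n : ℕ, ∑ m ∈ Finset.range n, 1 / (((m : ℝ) + 1) * (m + 2)) = 1 - 1 / ((n : ℝ) + 1) := by
    intro n
    induction n with
    | zero => simp
    | succ n ih =>
      rw [Finset.sum_range_succ, ih]
      push_cast
      field_simp
      ring
  simp only [e]
  have h := tendsto_one_div_add_atTop_nhds_zero_nat (𝕜 := ℝ)
  simpa using h.const_sub 1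

lemma G_bound_of_good {D x : ℝ} (h : Good D x) : ∃ C : ℝ, ∀ m : ℕ, |G D x m| ≤ C / ((m : ℝ) + 1) ^ 4 := by
  obtain ⟨C, hC⟩ := h.decay
  have hC0 : 0 ≤ C := by
    have := hC 0
    have h2 := sq_nonneg (G D x 0)
    simp at this
    linarith [sq_nonneg (G D x 0)]
  refine ⟨Real.sqrt C, fun m => ?_⟩
  apply abs_le_of_sq_le_sq _ (by positivity) |> fun h => h
  rw [div_pow, Real.sq_sqrt hC0, ← pow_mul]
  exact hC m

lemma Ph_G_summable {D u v t : ℝ} (hD : 2 ≤ D) (hu : Good D u) (hv : Good D v) (ht : Good D t) (k : ℕ) :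
    Summable (fun m => Ph D u v m k * G D t m) := by
  obtain ⟨C, hC⟩ := Ph_bound hD hu hv k
  obtain ⟨C', hC'⟩ := G_bound_of_good ht
  have hs : Summable (fun m : ℕ => (2 * (|C| * |C'|)) * (1 / (((m : ℝ) + 1) * (m + 2)))) :=
    (hasSum_tele.summable).mul_left _
  refine Summable.of_norm_bounded hs (fun m => ?_)
  rw [Real.norm_eq_abs, abs_mul]
  have h1 := hC m
  have h2 := hC' m
  have hm : (0 : ℝ) ≤ m := Nat.cast_nonneg m
  have h3 : |Ph D u v m k| ≤ |C| * ((m : ℝ) + 1) ^ 2 :=
    h1.trans (mul_le_mul_of_nonneg_right (le_abs_self C) (by positivity))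
  have h4 : |G D t m| ≤ |C'| / ((m : ℝ) + 1) ^ 4 :=
    h2.trans (div_le_div_of_nonneg_right (le_abs_self C') (by positivity))
  calc |Ph D u v m k| * |G D t m| ≤ (|C| * ((m : ℝ) + 1) ^ 2) * (|C'| / ((m : ℝ) + 1) ^ 4) :=
        mul_le_mul h3 h4 (abs_nonneg _) (by positivity)
    _ = (|C| * |C'|) * (1 / (((m : ℝ) + 1) * (m + 1))) := by
        field_simp
    _ ≤ (|C| * |C'|) * (2 * (1 / (((m : ℝ) + 1) * (m + 2)))) := by
        apply mul_le_mul_of_nonneg_left _ (by positivity)
        rw [← mul_div_assoc, mul_one, div_le_div_iff₀ (by positivity) (by positivity)]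
        nlinarith
    _ = _ := by ring

variable {D : ℝ} {ι : Type*} [Fintype ι] {w x : ι → ℝ}

/-- the quadratic form of the triple measure as a series -/
lemma form_eq (hD : 2 ≤ D) (hg : ∀ i, Good D (x i)) (p : ι → ℝ) (k : ℕ) :
    Summable (fun m => NN D w x 0 m * (CC D m k * (∑ i, w i * (p i * (1 - x i ^ 2) ^ k
      * G (D + 2 * k) (x i) (m - k))) ^ 2)) ∧
    ∑ i, ∑ j, ∑ l, w i * w j * w l * (p i * p j * Qh D (x i) (x j) (x l) k
      * FF D (x i) (x j) (x l) 0)
    = ∑' m, NN D w x 0 m * (CC D m k * (∑ i, w i * (p i * (1 - x i ^ 2) ^ k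
      * G (D + 2 * k) (x i) (m - k))) ^ 2) := by
  have hs : ∀ i j l, Summable (fun m => w i * w j * w l * (p i * p j
      * (((1 - x i ^ 2) * (1 - x j ^ 2)) ^ k * (Ph D (x i) (x j) m k * G D (x l) m)))) := by
    intro i j l
    exact (((Ph_G_summable hD (hg i) (hg j) (hg l) k).mul_left _).mul_left _).mul_left _
  have hterm : ∀ m, ∑ i, ∑ j, ∑ l, w i * w j * w l * (p i * p j
      * (((1 - x i ^ 2) * (1 - x j ^ 2)) ^ k * (Ph D (x i) (x j) m k * G D (x l) m)))
      = NN D w x 0 m * (CC D m k * (∑ i, w i * (p i * (1 - x i ^ 2) ^ k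
      * G (D + 2 * k) (x i) (m - k))) ^ 2) := by
    intro m
    have hN : NN D w x 0 m = ∑ l, w l * G D (x l) m := by
      unfold NN
      apply Finset.sum_congr rfl
      intro l _
      simp [G]
    rw [hN, sq, Finset.sum_mul_sum, Finset.mul_sum, Finset.mul_sum]
    apply Finset.sum_congr rfl
    intro i _
    rw [Finset.mul_sum, Finset.mul_sum]
    apply Finset.sum_congr rfl
    intro j _
    rw [Finset.sum_mul]
    apply Finset.sum_congr rfl
    intro l _
    unfold Ph
    rw [mul_pow]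
    ring
  have hS : Summable (fun m => ∑ i, ∑ j, ∑ l, w i * w j * w l * (p i * p j
      * (((1 - x i ^ 2) * (1 - x j ^ 2)) ^ k * (Ph D (x i) (x j) m k * G D (x l) m)))) :=
    summable_sum fun i _ => summable_sum fun j _ => summable_sum fun l _ => hs i j l
  simp only [hterm] at hS
  refine ⟨hS, ?_⟩
  simp only [← hterm]
  rw [Summable.tsum_finsetSum (fun i _ => summable_sum fun j _ => summable_sum fun l _ => hs i j l)]
  apply Finset.sum_congr rfl
  intro i _
  rw [Summable.tsum_finsetSum (fun j _ => summable_sum fun l _ => hs i j l)]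
  apply Finset.sum_congr rfl
  intro j _
  rw [Summable.tsum_finsetSum (fun l _ => hs i j l)]
  apply Finset.sum_congr rfl
  intro l _
  rw [tsum_mul_left, tsum_mul_left, tsum_mul_left]
  have hq := Qh_FF hD (u := x i) (v := x j) (t := x l) (fun k => Ph_bound hD (hg i) (hg j) k)
    (G_bound_of_good (hg l)) k
  have : ∑' m, Ph D (x i) (x j) m k * G D (x l) m = FF D (x i) (x j) (x l) k := rfl
  rw [this, ← hq]
  ring

/-- trace bound for the associated functions -/
lemma Lam_bound (hD : 2 ≤ D) (hw : ∀ i, 0 ≤ w i) (hg : ∀ i, Good D (x i))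
    (hdiag : ∀ j : ℕ, NN D w x j j ≤ (j + D) * nn D j) (m k : ℕ) :
    ∑ i, w i * EE D (x i) m k ≤ 8 * ((m : ℝ) + 2) * (m + 1 + D) := by
  have hD0 : 0 < D := by linarith
  calc ∑ i, w i * EE D (x i) m k
      ≤ ∑ i, w i * (8 * ∑ j ∈ Finset.range (m + 2), G D (x i) j ^ 2 / nn D j) :=
        Finset.sum_le_sum fun i _ => mul_le_mul_of_nonneg_left (EE_bound hD (hg i).quarter m k) (hw i)
    _ = 8 * ∑ j ∈ Finset.range (m + 2), NN D w x j j / nn D j := by
        unfold NN
        simp only [Finset.mul_sum, Finset.sum_div]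
        rw [Finset.sum_comm]
        apply Finset.sum_congr rfl
        intro j _
        apply Finset.sum_congr rfl
        intro i _
        ring
    _ ≤ 8 * ∑ j ∈ Finset.range (m + 2), ((m : ℝ) + 1 + D) := by
        apply mul_le_mul_of_nonneg_left _ (by norm_num)
        apply Finset.sum_le_sum
        intro j hj
        rw [div_le_iff₀ (nn_pos hD0 j)]
        refine (hdiag j).trans (mul_le_mul_of_nonneg_right ?_ (nn_pos hD0 j).le)
        have : j ≤ m + 1 := by
          have := Finset.mem_range.1 hj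
          omega
        have : (j : ℝ) ≤ m + 1 := by exact_mod_cast this
        linarith
    _ = _ := by
        rw [Finset.sum_const, Finset.card_range]
        simp only [nsmul_eq_mul]
        push_cast
        ring

/-- lower bound of the quadratic form -/
lemma main_form (hD : 2 ≤ D) (hw : ∀ i, 0 ≤ w i) (hg : ∀ i, Good D (x i))
    (h00 : ∑ i, w i = 1)
    (hdiag : ∀ j : ℕ, NN D w x j j ≤ (j + D) * nn D j) {ε : ℝ} (hε : 0 ≤ ε)
    (hmom : ∀ k : ℕ, 1 ≤ k → |NN D w x 0 k| * ((8 * ((k : ℝ) + 2) * (k + 1 + D)) * ((k + 1) * (k + 2)))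
        ≤ ε) (p : ι → ℝ) (k : ℕ) :
    (if k = 0 then (∑ i, w i * p i) ^ 2 else 0) - ε * ∑ i, w i * (p i ^ 2 * (1 - x i ^ 2) ^ k)
      ≤ ∑ i, ∑ j, ∑ l, w i * w j * w l * (p i * p j * Qh D (x i) (x j) (x l) k
        * FF D (x i) (x j) (x l) 0) := by
  have hD0 : 0 < D := by linarith
  obtain ⟨hS, he⟩ := form_eq (w := w) hD hg p k
  rw [he]
  set A := ∑ i, w i * (p i ^ 2 * (1 - x i ^ 2) ^ k) with hA
  have h1x : ∀ i, 0 ≤ 1 - x i ^ 2 := fun i => by
    have := (hg i).quarter
    linarith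
  have hA0 : 0 ≤ A := Finset.sum_nonneg fun i _ =>
    mul_nonneg (hw i) (mul_nonneg (sq_nonneg _) (pow_nonneg (h1x i) _))
  have hCC : ∀ m, 0 ≤ CC D m k := by
    intro m
    unfold CC
    split_ifs
    · exact le_rfl
    · have h1 := nn_pos (D := D + 2 * k) (by positivity) (m - k)
      have h2 : 0 < ∏ j ∈ Finset.range k, ((D + 1 + 2 * j) / (D + 2 + 2 * j)) :=
        Finset.prod_pos fun j _ => by positivity
      positivity
  -- the comparison series
  have hcmp : HasSum (fun m : ℕ => (if m = 0 then (if k = 0 then (∑ i, w i * p i) ^ 2 else 0) else 0)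
      - (ε * A) * (1 / (((m : ℝ) + 1) * (m + 2))))
      ((if k = 0 then (∑ i, w i * p i) ^ 2 else 0) - (ε * A) * 1) :=
    (hasSum_ite_eq 0 _).sub (hasSum_tele.mul_left _)
  have hle : (if k = 0 then (∑ i, w i * p i) ^ 2 else 0) - (ε * A) * 1
      ≤ ∑' m, NN D w x 0 m * (CC D m k * (∑ i, w i * (p i * (1 - x i ^ 2) ^ k
      * G (D + 2 * k) (x i) (m - k))) ^ 2) := by
    refine hasSum_le (fun m => ?_) hcmp hS.hasSum
    rcases Nat.eq_zero_or_pos m with hm | hm
    · subst hm
      have hN0 : NN D w x 0 0 = 1 := by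
        unfold NN
        simp [G, h00]
      rw [hN0]
      simp only [if_true, Nat.cast_zero, zero_add, one_mul]
      have hneg : 0 ≤ ε * A * (1 / (1 * 2)) := by positivity
      by_cases hk : k = 0
      · subst hk
        simp only [if_true, pow_zero, mul_one, Nat.sub_self]
        have hC : CC D 0 0 = 1 := by simp [CC, nn]
        rw [hC]
        simp only [G, mul_one, one_mul]
        linarith
      · have hC : CC D 0 k = 0 := by
          unfold CC
          rw [if_pos (Nat.pos_of_ne_zero hk)]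
        rw [if_neg hk, hC]
        linarith
    · rw [if_neg (by omega)]
      have hcs : (∑ i, w i * (p i * (1 - x i ^ 2) ^ k * G (D + 2 * k) (x i) (m - k))) ^ 2
          ≤ A * ∑ i, w i * ((1 - x i ^ 2) ^ k * G (D + 2 * k) (x i) (m - k) ^ 2) := by
        have hcs := Finset.sum_mul_sq_le_sq_mul_sq Finset.univ
          (fun i => Real.sqrt (w i * (1 - x i ^ 2) ^ k) * p i)
          (fun i => Real.sqrt (w i * (1 - x i ^ 2) ^ k) * G (D + 2 * k) (x i) (m - k))
        have e0 : ∀ i, 0 ≤ w i * (1 - x i ^ 2) ^ k := fun i =>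
          mul_nonneg (hw i) (pow_nonneg (h1x i) _)
        have e1 : ∀ i, Real.sqrt (w i * (1 - x i ^ 2) ^ k) * p i
            * (Real.sqrt (w i * (1 - x i ^ 2) ^ k) * G (D + 2 * k) (x i) (m - k))
            = w i * (p i * (1 - x i ^ 2) ^ k * G (D + 2 * k) (x i) (m - k)) := by
          intro i
          have := Real.mul_self_sqrt (e0 i)
          calc _ = (Real.sqrt (w i * (1 - x i ^ 2) ^ k) * Real.sqrt (w i * (1 - x i ^ 2) ^ k))
                * (p i * G (D + 2 * k) (x i) (m - k)) := by ring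
            _ = _ := by rw [this]; ring
        have e2 : ∀ i, (Real.sqrt (w i * (1 - x i ^ 2) ^ k) * p i) ^ 2
            = w i * (p i ^ 2 * (1 - x i ^ 2) ^ k) := by
          intro i
          rw [mul_pow, Real.sq_sqrt (e0 i)]
          ring
        have e3 : ∀ i, (Real.sqrt (w i * (1 - x i ^ 2) ^ k) * G (D + 2 * k) (x i) (m - k)) ^ 2
            = w i * ((1 - x i ^ 2) ^ k * G (D + 2 * k) (x i) (m - k) ^ 2) := by
          intro i
          rw [mul_pow, Real.sq_sqrt (e0 i)]
          ring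
        simp only [e1, e2, e3] at hcs
        exact hcs
      have hL := Lam_bound hD hw hg hdiag m k
      have hL' : CC D m k * ∑ i, w i * ((1 - x i ^ 2) ^ k * G (D + 2 * k) (x i) (m - k) ^ 2)
          = ∑ i, w i * EE D (x i) m k := by
        unfold EE
        rw [Finset.mul_sum]
        apply Finset.sum_congr rfl
        intro i _
        ring
      set B := (∑ i, w i * (p i * (1 - x i ^ 2) ^ k * G (D + 2 * k) (x i) (m - k))) ^ 2
      have hB0 : 0 ≤ B := sq_nonneg _
      have h3 : CC D m k * B ≤ A * (8 * ((m : ℝ) + 2) * (m + 1 + D)) := by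
        calc CC D m k * B ≤ CC D m k * (A * ∑ i, w i * ((1 - x i ^ 2) ^ k
              * G (D + 2 * k) (x i) (m - k) ^ 2)) := mul_le_mul_of_nonneg_left hcs (hCC m)
          _ = A * ∑ i, w i * EE D (x i) m k := by rw [← hL']; ring
          _ ≤ _ := mul_le_mul_of_nonneg_left hL hA0
      have h4 : |NN D w x 0 m| * (CC D m k * B) ≤ (ε * A) * (1 / (((m : ℝ) + 1) * (m + 2))) := by
        rw [mul_one_div, le_div_iff₀ (by positivity)]
        calc |NN D w x 0 m| * (CC D m k * B) * (((m : ℝ) + 1) * (m + 2))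
            ≤ |NN D w x 0 m| * (A * (8 * ((m : ℝ) + 2) * (m + 1 + D))) * (((m : ℝ) + 1) * (m + 2)) := by
              apply mul_le_mul_of_nonneg_right _ (by positivity)
              exact mul_le_mul_of_nonneg_left h3 (abs_nonneg _)
          _ = (|NN D w x 0 m| * ((8 * ((m : ℝ) + 2) * (m + 1 + D)) * ((m + 1) * (m + 2)))) * A := by ring
          _ ≤ ε * A := mul_le_mul_of_nonneg_right (hmom m hm) hA0
      have h5 : -(|NN D w x 0 m| * (CC D m k * B)) ≤ NN D w x 0 m * (CC D m k * B) := by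
        have := neg_abs_le (NN D w x 0 m)
        have h6 : 0 ≤ CC D m k * B := mul_nonneg (hCC m) hB0
        nlinarith
      linarith
  linarith

end Pool.Agent.Helper92.TP
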